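import Pool.Agent.MP_5168f5_an.H95.Iter

/-!
The restricted weak type estimate for lines through unit cells.
-/

open MeasureTheory Set Classical Real
open scoped ENNReal

namespace Pool.Agent.MP_5168f5_an.H95

variable {m : ℕ} {τ : Type}

/-- Number of cells of `E` at height `t`. -/
noncomputable def cnt (E : Set (ℝ × (Fin m → ℤ))) (t : ℝ) : ℝ≥0∞ :=
  Measure.count (Prod.mk t ⁻¹' E)

theorem measurable_cnt {E : Set (ℝ × (Fin m → ℤ))} (hE : MeasurableSet E) : Measurable (cnt E) :=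
  measurable_measure_prodMk_left hE

theorem measurable_cell (x v : τ → Fin m → ℝ) (T : τ) : Measurable fun t => cell x v t T :=
  measurable_pi_lambda _ fun i =>
    Int.measurable_floor.comp (by fun_prop : Measurable fun t : ℝ => x T i + t * v T i)

theorem log_card_le {R : Finset ℝ} {β L n : ℝ} (h : SD R β L) (F : Finset τ) (hF : F.Nonempty)
    (x v : τ → Fin m → ℝ) (hi : ∀ T ∈ F, ∀ T' ∈ F, fl (v T) = fl (v T') → T = T')
    (hn : ∀ t ∈ R, ((F.image (cell x v t)).card : ℝ) ≤ n) :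
    log F.card ≤ β * log n + m * L := by
  obtain ⟨Λ, hΛ, h⟩ := h
  have hp : ∀ _ : F, (0 : ℝ) ≤ 1 := fun _ => zero_le_one
  have hm : mass (fun _ : F => (1 : ℝ)) = F.card := by simp [mass]
  have h1 := h m F (fun _ => 1) (fun T => x T) (fun T => v T) hp fun T T' _ _ e => by
    rw [Subtype.ext (hi T T.2 T' T'.2 e)]; exact ⟨rfl, rfl⟩
  have h2 : ent (fun _ : F => (1 : ℝ)) (fun T => fl (v T)) = F.card * log F.card := by
    have : ∀ T : F, pr (fun _ : F => (1 : ℝ)) (fun T => fl (v T)) (fl (v T)) = 1 := fun T =>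
      (Finset.sum_eq_single T (fun T' _ hne => if_neg fun e =>
        hne (Subtype.ext (hi _ T'.2 _ T.2 e))) (by simp)).trans (if_pos rfl)
    simp [ent, this, hm]
  have h3 := hΛ.le (φ := fun t => ent (fun _ : F => (1 : ℝ))
      (cell (fun T : F => x T) (fun T => v T) t)) (ψ := 0) (c := F.card * log n) fun t ht => by
    rw [Pi.zero_apply, zero_add, ← hm]
    exact ent_le_log_card hp _ _ (fun T _ => Finset.mem_image_of_mem (cell x v t) T.2) (hn t ht)
  rw [map_zero] at h3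
  rw [h2, hm] at h1
  have hc : (0 : ℝ) < F.card := by exact_mod_cast hF.card_pos
  refine le_of_mul_le_mul_left ?_ hc
  linarith

theorem slab {β C K : ℝ} {M M' : ℕ} (h : TIn β C (M : ℝ)⁻¹ K M') (F : Finset τ)
    (hF : F.Nonempty) (x v : τ → Fin m → ℝ)
    (hi : ∀ T ∈ F, ∀ T' ∈ F, fl (v T) = fl (v T') → T = T') {E : Set (ℝ × (Fin m → ℤ))}
    (hE : MeasurableSet E) {N : ℕ} (hN : 0 < N) (k : ℤ) {i : ℕ × ℕ × ℕ}
    (h1 : i.1 + 2 ≤ i.2.1) (h2 : i.2.1 + 2 ≤ i.2.2) (h3 : i.2.2 < M) {l : ℝ} (hl : 0 ≤ l)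
    (hY : ∀ T ∈ F, ∀ j ∈ ({i.1, i.2.1, i.2.2} : Set ℕ), ENNReal.ofReal (2 * exp (-l))
      ≤ volume (zoom N k {t | (t, cell x v t T) ∈ E} ∩ blk M j))
    {n : ℝ} (hn : 0 < n)
    (hint : ∫⁻ t in Ico ((k : ℝ) / N) ((k + 1) / N), cnt E t ≤ ENNReal.ofReal (n * exp (-l) / N)) :
    log F.card ≤ C * l + K + β * log n + m * (49 / 50 * l + K + log (N + 1)) := by
  have hN' : (0 : ℝ) < N := by exact_mod_cast hN
  set Hs := {t | ENNReal.ofReal n ≤ cnt E t} with hHs
  have hHm : MeasurableSet Hs := measurableSet_le measurable_const (measurable_cnt hE)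
  have hH : volume (zoom N k (Hs ∩ Ico ((k : ℝ) / N) ((k + 1) / N))) ≤ ENNReal.ofReal (exp (-l)) := by
    have e1 := mul_meas_ge_le_lintegral (μ := volume.restrict (Ico ((k : ℝ) / N) ((k + 1) / N)))
      (measurable_cnt hE) (ENNReal.ofReal n)
    rw [Measure.restrict_apply hHm] at e1
    have e2 := e1.trans hint
    rw [mul_div_assoc, ENNReal.ofReal_mul hn.le] at e2
    have e3 := (ENNReal.mul_le_mul_iff_right (ENNReal.ofReal_pos.2 hn).ne'
      ENNReal.ofReal_ne_top).1 e2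
    simp only [zoom, div_eq_mul_inv _ (N : ℝ)] at e3 ⊢
    rw [volume_affine _ _ (by positivity), inv_inv, abs_of_pos hN']
    calc _ ≤ ENNReal.ofReal N * ENNReal.ofReal (exp (-l) * (N : ℝ)⁻¹) := by gcongr
      _ = _ := by rw [← ENNReal.ofReal_mul hN'.le]; congr 1; field_simp
  obtain ⟨R, -, d, F', s, f, g⟩ := h.zoomed F hF (fun T => {t | (t, cell x v t T) ∈ E} \ Hs) hN k
    h1 h2 h3 hl fun T hT => by
      refine ⟨((measurable_id.prodMk (measurable_cell x v T)) hE).diff hHm, fun j hj => ?_⟩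
      have e1 : zoom N k {t | (t, cell x v t T) ∈ E} ∩ blk M j
          ⊆ zoom N k ({t | (t, cell x v t T) ∈ E} \ Hs) ∩ blk M j
            ∪ zoom N k (Hs ∩ Ico ((k : ℝ) / N) ((k + 1) / N)) := by
        rintro t ⟨t1, t2⟩
        by_cases t3 : (k : ℝ) / N + t / N ∈ Hs
        · have t4 := blk_sub (show j < M by rcases hj with rfl | rfl | rfl <;> omega) t2
          refine Or.inr ⟨t3, le_add_of_nonneg_right (div_nonneg t4.1 hN'.le), ?_⟩
          rw [← add_div]
          gcongr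
          exact t4.2
        · exact Or.inl ⟨⟨t1, t3⟩, t2⟩
      have e2 := (hY T hT j hj).trans ((measure_mono e1).trans ((measure_union_le _ _).trans
        (add_le_add le_rfl hH)))
      rw [two_mul, ENNReal.ofReal_add (exp_pos _).le (exp_pos _).le] at e2
      exact (ENNReal.add_le_add_iff_right ENNReal.ofReal_ne_top).1 e2
  have hF' := nonempty_of_frac (exp_pos _) hF f
  have k1 := log_card_le (n := n) d F' hF' x v (fun T hT T' hT' => hi T (s hT) T' (s hT'))
    fun t ht => by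
      obtain ⟨T₀, hT₀⟩ := hF'
      have e1 : cnt E t < ENNReal.ofReal n := not_le.1 (g T₀ hT₀ ht).2
      have e2 : ((F'.image (cell x v t)).card : ℝ≥0∞) ≤ cnt E t := by
        rw [← Measure.count_apply_finset]
        refine measure_mono fun z hz => ?_
        obtain ⟨T, hT, rfl⟩ := Finset.mem_image.1 hz
        exact (g T hT ht).1
      rw [← ENNReal.ofReal_natCast] at e2
      exact ((ENNReal.ofReal_lt_ofReal_iff hn).1 (e2.trans_lt e1)).le
  have hc : (0 : ℝ) < F.card := by exact_mod_cast hF.card_pos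
  have k2 := log_le_log (by positivity) f
  rw [log_mul (exp_pos _).ne' hc.ne', log_exp] at k2
  linarith

theorem rpow_sum_le {ι : Type} (S : Finset ι) (a : ι → ℝ) (ha : ∀ i, 0 ≤ a i) {p : ℝ}
    (hp : 0 < p) (hp1 : p ≤ 1) : (∑ i ∈ S, a i) ^ p ≤ ∑ i ∈ S, a i ^ p := by
  induction S using Finset.induction_on with
  | empty => simp [hp.ne']
  | insert i S hi ih =>
    rw [Finset.sum_insert hi, Finset.sum_insert hi]
    exact (rpow_add_le_add_rpow (ha i) (Finset.sum_nonneg fun i _ => ha i) hp.le hp1).trans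
      (add_le_add le_rfl ih)

theorem exists_unit {Y : Set ℝ} {lam h : ℝ} (hlam : 0 < lam)
    (hY : ENNReal.ofReal lam ≤ volume (Y ∩ Icc (h - 3 / 2) (h + 3 / 2))) :
    ∃ k : ℤ, ENNReal.ofReal (lam / 5) ≤ volume (zoom 1 k Y ∩ Ico 0 1) := by
  by_contra hc
  push Not at hc
  have h1 : Y ∩ Icc (h - 3 / 2) (h + 3 / 2) ⊆ ⋃ k ∈ Finset.Ico ⌊h - 3 / 2⌋ (⌊h - 3 / 2⌋ + 4),
      {t | -(k : ℝ) + t * 1 ∈ zoom 1 k Y ∩ Ico 0 1} := by
    rintro t ⟨t1, t2, t3⟩
    refine mem_biUnion (x := ⌊t⌋) (Finset.mem_coe.2 (Finset.mem_Ico.2 ⟨Int.floor_mono t2, ?_⟩))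
      ⟨by simpa [zoom] using t1, by linarith [Int.floor_le t], by linarith [Int.lt_floor_add_one t]⟩
    rw [Int.floor_lt]
    push_cast
    linarith [Int.lt_floor_add_one (h - 3 / 2)]
  have h2 := hY.trans ((measure_mono h1).trans ((measure_biUnion_finset_le _ _).trans
    (Finset.sum_le_sum (g := fun _ => ENNReal.ofReal (lam / 5)) fun k _ => by
      rw [volume_affine _ _ one_ne_zero]; simpa using (hc k).le)))
  rw [← ENNReal.ofReal_sum_of_nonneg fun _ _ => by positivity,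
    ENNReal.ofReal_le_ofReal_iff (by positivity)] at h2
  simp at h2
  linarith

theorem core {β : ℝ} (hβ : 1 ≤ β) (hT : TT β) : ∃ m₀ : ℕ, ∀ m ≥ m₀, ∀ ε > 0, ∃ c > 0,
    ∀ (τ : Type) (F : Finset τ) (x v : τ → Fin m → ℝ) (h : τ → ℝ) (E : Set (ℝ × (Fin m → ℤ)))
      (l : ℝ), MeasurableSet E → 0 ≤ l → (∀ T ∈ F, ∀ T' ∈ F, fl (v T) = fl (v T') → T = T') →
      (∀ T ∈ F, ENNReal.ofReal (exp (-l))
        ≤ volume ({t | (t, cell x v t T) ∈ E} ∩ Icc (h T - 3 / 2) (h T + 3 / 2))) →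
      ENNReal.ofReal (c * exp (-((1 + m / β + ε) * l)) * (F.card : ℝ) ^ β⁻¹) ≤ ∫⁻ t, cnt E t := by
  obtain ⟨C, hC, hT⟩ := hT
  refine ⟨⌈50 * C⌉₊, fun m hm ε hε => ?_⟩
  have hmC : 50 * C ≤ m := Nat.ceil_le.1 hm
  have hβ0 : 0 < β := by linarith
  set d := 1 + m / β with hd
  have hd1 : 1 ≤ d := le_add_of_nonneg_right (by positivity)
  obtain ⟨M, hM⟩ := exists_nat_gt (10 * exp (d * log 20 / ε))
  have h20 : 0 < log 20 := log_pos (by norm_num)
  have hM10 : (10 : ℝ) < M := by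
    linarith [one_le_exp (show 0 ≤ d * log 20 / ε by positivity)]
  have hM0 : (0 : ℝ) < M := by linarith
  set A := log (M / 10) with hA
  have hAε : d * log 20 ≤ A * ε := by
    rw [← div_le_iff₀ hε, hA, le_log_iff_exp_le (by positivity)]; linarith
  obtain ⟨K, M', hK, hT⟩ := hT (M : ℝ)⁻¹ (by positivity) (inv_le_one_of_one_le₀ (by linarith))
  set K₂ := 3 * log M + K + m * (K + log 2) + 1 with hK₂
  refine ⟨exp (-(d * (log (20 * M) + log 2) + K₂ / β + ε * log 5)), exp_pos _,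
    fun τ F x v h E l hE hl hi hY => ?_⟩
  rcases F.eq_empty_or_nonempty with rfl | hF
  · simp [hβ0.ne']
  have := fun T hT => (exists_unit (exp_pos _) (hY T hT)).elim fun k hk =>
    localize (M := M) (by exact_mod_cast hM10) (by positivity) hk
  choose! j k i g0 g1 g2 g3 g4 using this
  obtain ⟨j₀, F₁, s₁, f₁, e₁⟩ := pigeon_nat F j
  have n₁ := nonempty_of_frac (by positivity) hF f₁
  have eA : (M / 10 : ℝ) ^ j₀ = exp (j₀ * A) := by rw [exp_nat_mul, hA, exp_log (by positivity)]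
  have hj : j₀ * A ≤ l + log 5 := by
    obtain ⟨T₀, hT₀⟩ := n₁
    have := g0 T₀ (s₁ hT₀)
    rw [e₁ T₀ hT₀, eA, ← exp_log (show (0 : ℝ) < 5 by norm_num), ← exp_sub, ← exp_add,
      exp_le_one_iff] at this
    linarith
  set l₁ := l + log (20 * M) - j₀ * A with hl₁
  have hl₁0 : 0 ≤ l₁ := by
    have := log_le_log (show (0 : ℝ) < 5 by norm_num) (show 5 ≤ 20 * (M : ℝ) by linarith)
    linarith
  have hN : log ((M ^ j₀ : ℕ) : ℝ) = j₀ * A + j₀ * log 10 := by
    rw [Nat.cast_pow, log_pow, hA, log_div hM0.ne' (by norm_num)]; ring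
  have hM1 : 0 < M := by exact_mod_cast hM0
  have hN0 : (0 : ℝ) < (M ^ j₀ : ℕ) := by positivity
  set y := exp (-(d * (l + log (20 * M) + j₀ * log 10) + K₂ / β)) with hy
  have key : ∀ k₀ ∈ F₁.image k, ENNReal.ofReal (y * ((F₁.filter fun T => k T = k₀).card : ℝ) ^ β⁻¹)
      ≤ ∫⁻ t in Ico ((k₀ : ℝ) / (M ^ j₀ : ℕ)) ((k₀ + 1) / (M ^ j₀ : ℕ)), cnt E t := by
    intro k₀ hk₀
    set G := F₁.filter fun T => k T = k₀ with hG
    have hG1 : ∀ T ∈ G, T ∈ F₁ ∧ k T = k₀ := fun T hT => Finset.mem_filter.1 hT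
    have nG : G.Nonempty := by
      obtain ⟨T, h1, h2⟩ := Finset.mem_image.1 hk₀
      exact ⟨T, Finset.mem_filter.2 ⟨h1, h2⟩⟩
    have hGc : (0 : ℝ) < G.card := by exact_mod_cast nG.card_pos
    obtain ⟨i₀, F₂, s₂, f₂, e₂⟩ := pigeon G i
      (Finset.range M ×ˢ Finset.range M ×ˢ Finset.range M) ⟨(0, 0, 0), by simp [hM1]⟩
      fun T hT => by
        have k1 := g1 T (s₁ (hG1 T hT).1)
        have k2 := g2 T (s₁ (hG1 T hT).1)
        have k3 := g3 T (s₁ (hG1 T hT).1)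
        simp only [Finset.mem_product, Finset.mem_range]
        omega
    simp only [Finset.card_product, Finset.card_range] at f₂
    have n₂ := nonempty_of_frac (by positivity) nG f₂
    obtain ⟨T₀, hT₀⟩ := id n₂
    have hT₀' := s₁ (hG1 _ (s₂ hT₀)).1
    by_contra hcon
    have k1 := slab hT F₂ n₂ x v (fun T hT T' hT' =>
      hi T (s₁ (hG1 _ (s₂ hT)).1) T' (s₁ (hG1 _ (s₂ hT')).1)) hE (N := M ^ j₀) (by positivity) k₀
      (i := i₀) (e₂ T₀ hT₀ ▸ g1 T₀ hT₀') (e₂ T₀ hT₀ ▸ g2 T₀ hT₀') (e₂ T₀ hT₀ ▸ g3 T₀ hT₀') hl₁0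
      (fun T hT a ha => by
        have k1 := g4 T (s₁ (hG1 _ (s₂ hT)).1)
        rw [e₁ T (hG1 _ (s₂ hT)).1, (hG1 _ (s₂ hT)).2, e₂ T hT] at k1
        refine le_trans (le_of_eq ?_) (k1 a ha)
        rw [eA, hl₁, neg_sub, sub_eq_add_neg, neg_add, exp_add, exp_add, exp_neg (log _),
          exp_log (by positivity)]
        congr 1
        field_simp
        ring)
      (n := exp ((log G.card - m * (l + log (20 * M) + j₀ * log 10) - K₂) / β)) (exp_pos _)
      ((not_le.1 hcon).le.trans (le_of_eq (by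
        rw [rpow_def_of_pos hGc, ← exp_log hN0, hN, ← exp_add, ← exp_add, ← exp_sub]
        congr 2
        rw [hl₁, hd]
        field_simp
        ring)))
    have k2 := log_le_log (by positivity) f₂
    rw [log_mul (by positivity) hGc.ne', log_inv, Nat.cast_mul, Nat.cast_mul,
      log_mul hM0.ne' (by positivity), log_mul hM0.ne' hM0.ne'] at k2
    have k3 : log ((M ^ j₀ : ℕ) + 1 : ℝ) ≤ log 2 + (j₀ * A + j₀ * log 10) := by
      rw [← hN, ← log_mul two_ne_zero hN0.ne']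
      have : (1 : ℝ) ≤ (M ^ j₀ : ℕ) := by exact_mod_cast Nat.one_le_pow _ _ hM1
      exact log_le_log (by positivity) (by linarith)
    rw [log_exp, mul_div_cancel₀ _ hβ0.ne'] at k1
    have k4 := mul_le_mul_of_nonneg_left k3 (Nat.cast_nonneg (α := ℝ) m)
    have k5 := mul_le_mul_of_nonneg_right hmC hl₁0
    rw [hl₁] at k1 k5
    linarith
  have hdisj : (F₁.image k : Set ℤ).PairwiseDisjoint fun k₀ =>
      Ico ((k₀ : ℝ) / (M ^ j₀ : ℕ)) ((k₀ + 1) / (M ^ j₀ : ℕ)) := by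
    intro a _ b _ hab
    refine disjoint_left.2 fun t ha hb => hab ?_
    rw [mem_Ico, div_le_iff₀ hN0, lt_div_iff₀ hN0] at ha hb
    exact (Int.floor_eq_iff.2 ha).symm.trans (Int.floor_eq_iff.2 hb)
  refine le_trans ?_ ((Finset.sum_le_sum key).trans
    ((lintegral_biUnion_finset hdisj (fun _ _ => measurableSet_Ico) _).symm.le.trans
      (setLIntegral_le_lintegral _ _)))
  rw [← ENNReal.ofReal_sum_of_nonneg fun _ _ => by positivity, ← Finset.mul_sum]
  refine ENNReal.ofReal_le_ofReal (le_trans ?_ (mul_le_mul_of_nonneg_left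
    (rpow_sum_le _ _ (fun _ => Nat.cast_nonneg _) (by positivity) (inv_le_one_of_one_le₀ hβ))
    (exp_pos _).le))
  rw [← Nat.cast_sum, ← Finset.card_eq_sum_card_image]
  refine le_trans ?_ (mul_le_mul_of_nonneg_left
    (rpow_le_rpow (by positivity) f₁ (by positivity)) (exp_pos _).le)
  rw [mul_rpow (by positivity) (by positivity), ← mul_assoc, rpow_def_of_pos (x := _ ^ _)
    (by positivity), ← exp_add, ← exp_add, log_pow, one_div, log_inv]
  refine mul_le_mul_of_nonneg_right (exp_le_exp.2 ?_) (by positivity)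
  have h2 : 0 < log 2 := log_pos (by norm_num)
  have k1 : log 20 = log 10 + log 2 := by rw [← log_mul (by norm_num) (by norm_num)]; norm_num
  have k2 : β⁻¹ ≤ d := (inv_le_one_of_one_le₀ hβ).trans hd1
  have k3 := mul_le_mul_of_nonneg_left k2 (show 0 ≤ ((j₀ : ℝ) + 1) * log 2 by positivity)
  have k4 := mul_le_mul_of_nonneg_left hAε (Nat.cast_nonneg (α := ℝ) j₀)
  have k5 := mul_le_mul_of_nonneg_right hj hε.le
  rw [k1] at k4
  push_cast
  linarith

end Pool.Agent.MP_5168f5_an.H95
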