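import Mathlib

/-!
Definitions: tubes and the Kakeya maximal function.
-/

open MeasureTheory Set
open scoped ENNReal

namespace Pool.Agent.MP_5168f5_an.H95

/-- The closed tube of length `1` and radius `δ` with axis direction `e` and centre `a`. -/
def tube {n : ℕ} (e a : EuclideanSpace ℝ (Fin n)) (δ : ℝ) : Set (EuclideanSpace ℝ (Fin n)) :=
  {y | |inner ℝ (y - a) e| ≤ 1 / 2 ∧ ‖(y - a) - (inner ℝ (y - a) e) • e‖ ≤ δ}

/-- The Kakeya maximal function: the supremum over centres `a` of the average of `|f|` over the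
tube with direction `e` and centre `a`. -/
noncomputable def kakeyaMax {n : ℕ} (δ : ℝ) (f : EuclideanSpace ℝ (Fin n) → ℝ)
    (e : Metric.sphere (0 : EuclideanSpace ℝ (Fin n)) 1) : ℝ≥0∞ :=
  ⨆ a, (∫⁻ y in tube (e : EuclideanSpace ℝ (Fin n)) a δ, ‖f y‖ₑ)
    / volume (tube (e : EuclideanSpace ℝ (Fin n)) a δ)

end Pool.Agent.MP_5168f5_an.H95
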