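import Mathlib

/-!
A small library for the entropy of functions on a finite set carrying non-negative weights
(the total weight is arbitrary; all quantities are homogeneous of degree one in the weights).
-/

open Finset Classical

namespace Pool.Agent.MP_5168f5_an.H95

variable {Ω Ω' Ω₀ α β γ : Type} [Fintype Ω] [Fintype Ω'] [Fintype Ω₀]

/-- Total weight. -/
noncomputable def mass (p : Ω → ℝ) : ℝ := ∑ ω, p ω

/-- Weight of the fibre of `f` over `y`. -/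
noncomputable def pr (p : Ω → ℝ) (f : Ω → α) (y : α) : ℝ := ∑ ω, if f ω = y then p ω else 0

/-- Entropy of `f` (times the total weight). -/
noncomputable def ent (p : Ω → ℝ) (f : Ω → α) : ℝ :=
  ∑ ω, p ω * (Real.log (mass p) - Real.log (pr p f (f ω)))

theorem mass_nonneg {p : Ω → ℝ} (hp : ∀ ω, 0 ≤ p ω) : 0 ≤ mass p :=
  sum_nonneg fun ω _ => hp ω

theorem pr_nonneg {p : Ω → ℝ} (hp : ∀ ω, 0 ≤ p ω) (f : Ω → α) (y : α) : 0 ≤ pr p f y :=
  sum_nonneg fun ω _ => by split_ifs; exacts [hp ω, le_rfl]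

theorem le_pr {p : Ω → ℝ} (hp : ∀ ω, 0 ≤ p ω) (f : Ω → α) (ω : Ω) : p ω ≤ pr p f (f ω) := by
  have := single_le_sum (f := fun ω' => if f ω' = f ω then p ω' else 0)
    (fun ω' _ => by split_ifs; exacts [hp ω', le_rfl]) (mem_univ ω)
  simpa [pr] using this

theorem pr_le_mass {p : Ω → ℝ} (hp : ∀ ω, 0 ≤ p ω) (f : Ω → α) (y : α) : pr p f y ≤ mass p :=
  sum_le_sum fun ω _ => by split_ifs; exacts [le_rfl, hp ω]

theorem pr_pos {p : Ω → ℝ} (hp : ∀ ω, 0 ≤ p ω) (f : Ω → α) {ω : Ω} (h : p ω ≠ 0) :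
    0 < pr p f (f ω) :=
  ((hp ω).lt_of_ne' h).trans_le (le_pr hp f ω)

theorem mass_pos {p : Ω → ℝ} (hp : ∀ ω, 0 ≤ p ω) {ω : Ω} (h : p ω ≠ 0) : 0 < mass p :=
  (pr_pos hp (fun _ => ()) h).trans_le (pr_le_mass hp _ _)

theorem sum_mul_le {p : Ω → ℝ} (hp : ∀ ω, 0 ≤ p ω) {φ ψ : Ω → ℝ}
    (h : ∀ ω, p ω ≠ 0 → φ ω ≤ ψ ω) : ∑ ω, p ω * φ ω ≤ ∑ ω, p ω * ψ ω :=
  sum_le_sum fun ω _ => by
    by_cases h0 : p ω = 0
    · simp [h0]
    · exact mul_le_mul_of_nonneg_left (h ω h0) (hp ω)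

theorem ent_nonneg {p : Ω → ℝ} (hp : ∀ ω, 0 ≤ p ω) (f : Ω → α) : 0 ≤ ent p f := by
  have := sum_mul_le hp (φ := fun _ => 0)
    (ψ := fun ω => Real.log (mass p) - Real.log (pr p f (f ω))) fun ω h =>
      sub_nonneg.2 (Real.log_le_log (pr_pos hp f h) (pr_le_mass hp f _))
  simpa [ent] using this

/-- If `f` determines `g` on the support then `g` has smaller entropy. -/
theorem ent_le_of_det {p : Ω → ℝ} (hp : ∀ ω, 0 ≤ p ω) {f : Ω → α} {g : Ω → β}
    (h : ∀ ω ω', p ω ≠ 0 → p ω' ≠ 0 → f ω = f ω' → g ω = g ω') : ent p g ≤ ent p f := by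
  refine sum_mul_le hp fun ω h0 => sub_le_sub_left (Real.log_le_log (pr_pos hp f h0) ?_) _
  refine sum_le_sum fun ω' _ => ?_
  by_cases h1 : p ω' = 0
  · simp [h1]
  · by_cases h2 : f ω' = f ω
    · simp [h2, h ω' ω h1 h0 h2]
    · simp only [h2, if_false]; split_ifs; exacts [hp ω', le_rfl]

theorem sum_fib (p : Ω → ℝ) (f : Ω → α) (S : Finset α) (hS : ∀ ω, p ω ≠ 0 → f ω ∈ S)
    (φ : α → ℝ) : ∑ ω, p ω * φ (f ω) = ∑ y ∈ S, pr p f y * φ y := by
  simp only [pr, sum_mul]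
  rw [sum_comm]
  refine sum_congr rfl fun ω _ => ?_
  by_cases h0 : p ω = 0
  · simp [h0]
  · rw [sum_eq_single (f ω)]
    · simp
    · intro b _ hb; simp [hb.symm]
    · intro h; exact absurd (hS ω h0) h

theorem sum_pr (p : Ω → ℝ) (f : Ω → α) (S : Finset α) (hS : ∀ ω, p ω ≠ 0 → f ω ∈ S) :
    ∑ y ∈ S, pr p f y = mass p := by
  simpa [mass] using (sum_fib p f S hS fun _ => 1).symm

/-- Gibbs-type inequality. -/
theorem gibbs {p : Ω → ℝ} (hp : ∀ ω, 0 ≤ p ω) (f : Ω → α) (q : α → ℝ) (S : Finset α)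
    (hS : ∀ ω, p ω ≠ 0 → f ω ∈ S) (hq : ∀ y, 0 ≤ q y) (hq0 : ∀ ω, p ω ≠ 0 → 0 < q (f ω))
    (hsum : ∑ y ∈ S, q y ≤ mass p) :
    ∑ ω, p ω * (Real.log (q (f ω)) - Real.log (pr p f (f ω))) ≤ 0 := by
  calc ∑ ω, p ω * (Real.log (q (f ω)) - Real.log (pr p f (f ω)))
      ≤ ∑ ω, p ω * (q (f ω) / pr p f (f ω) - 1) := by
        refine sum_mul_le hp fun ω h0 => ?_
        rw [← Real.log_div (hq0 ω h0).ne' (pr_pos hp f h0).ne']
        exact Real.log_le_sub_one_of_pos (div_pos (hq0 ω h0) (pr_pos hp f h0))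
    _ = ∑ y ∈ S, pr p f y * (q y / pr p f y) - mass p := by
        rw [← sum_fib p f S hS (fun y => q y / pr p f y), mass, ← sum_sub_distrib]
        exact sum_congr rfl fun ω _ => by ring
    _ ≤ ∑ y ∈ S, q y - mass p := by
        refine sub_le_sub_right (sum_le_sum fun y _ => ?_) _
        by_cases h : pr p f y = 0
        · simp [h, hq y]
        · rw [mul_div_cancel₀ _ h]
    _ ≤ 0 := sub_nonpos.2 hsum

theorem ent_le_log_card {p : Ω → ℝ} (hp : ∀ ω, 0 ≤ p ω) (f : Ω → α) (S : Finset α)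
    (hS : ∀ ω, p ω ≠ 0 → f ω ∈ S) {M : ℝ} (hM : (S.card : ℝ) ≤ M) :
    ent p f ≤ mass p * Real.log M := by
  by_cases h : ∀ ω, p ω = 0
  · simp [ent, mass, h]
  push Not at h
  obtain ⟨ω₀, h₀⟩ := h
  have hc : (0 : ℝ) < S.card := by exact_mod_cast card_pos.2 ⟨_, hS ω₀ h₀⟩
  have hM0 : 0 < M := hc.trans_le hM
  have hm := mass_pos hp h₀
  have := gibbs hp f (fun _ => mass p / M) S hS (fun _ => by positivity)
    (fun _ _ => by positivity) (by
      rw [sum_const, nsmul_eq_mul, ← mul_div_assoc, div_le_iff₀ hM0, mul_comm]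
      exact mul_le_mul_of_nonneg_left hM hm.le)
  rw [Real.log_div hm.ne' hM0.ne'] at this
  have e : ent p f - mass p * Real.log M
      = ∑ ω, p ω * (Real.log (mass p) - Real.log M - Real.log (pr p f (f ω))) := by
    rw [ent, mass, sum_mul, ← sum_sub_distrib]
    exact sum_congr rfl fun ω _ => by ring
  linarith

/-- Subadditivity. -/
theorem ent_pair_le {p : Ω → ℝ} (hp : ∀ ω, 0 ≤ p ω) (f : Ω → α) (g : Ω → β) :
    ent p (fun ω => (f ω, g ω)) ≤ ent p f + ent p g := by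
  by_cases h : ∀ ω, p ω = 0
  · simp [ent, h]
  push Not at h
  obtain ⟨ω₀, h₀⟩ := h
  have hm := mass_pos hp h₀
  have := gibbs hp (fun ω => (f ω, g ω)) (fun y => pr p f y.1 * pr p g y.2 / mass p)
    (univ.image f ×ˢ univ.image g) (fun ω _ => by simp)
    (fun y => div_nonneg (mul_nonneg (pr_nonneg hp _ _) (pr_nonneg hp _ _)) hm.le)
    (fun ω h0 => div_pos (mul_pos (pr_pos hp f h0) (pr_pos hp g h0)) hm) (by
      rw [← sum_div, sum_product' (f := fun a b => pr p f a * pr p g b), ← sum_mul_sum,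
        sum_pr p f _ (fun ω _ => by simp), sum_pr p g _ (fun ω _ => by simp),
        mul_div_cancel_right₀ _ hm.ne'])
  have e : ent p (fun ω => (f ω, g ω)) - (ent p f + ent p g)
      = ∑ ω, p ω * (Real.log (pr p f (f ω) * pr p g (g ω) / mass p)
          - Real.log (pr p (fun ω => (f ω, g ω)) (f ω, g ω))) := by
    rw [ent, ent, ent, ← sum_add_distrib, ← sum_sub_distrib]
    refine sum_congr rfl fun ω _ => ?_
    by_cases h0 : p ω = 0
    · simp [h0]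
    · rw [Real.log_div (mul_pos (pr_pos hp f h0) (pr_pos hp g h0)).ne' hm.ne',
        Real.log_mul (pr_pos hp f h0).ne' (pr_pos hp g h0).ne']
      ring
  linarith

/-- Restriction of the weights to a fibre of `W`. -/
noncomputable def res (p : Ω → ℝ) (W : Ω → γ) (w : γ) : Ω → ℝ :=
  fun ω => if W ω = w then p ω else 0

omit [Fintype Ω] in
theorem res_nonneg {p : Ω → ℝ} (hp : ∀ ω, 0 ≤ p ω) (W : Ω → γ) (w : γ) (ω : Ω) :
    0 ≤ res p W w ω := by
  unfold res; split_ifs; exacts [hp ω, le_rfl]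

omit [Fintype Ω] in
theorem res_ne {p : Ω → ℝ} {W : Ω → γ} {w : γ} {ω : Ω} (h : res p W w ω ≠ 0) :
    W ω = w ∧ p ω ≠ 0 := by
  unfold res at h; split_ifs at h with h1
  · exact ⟨h1, h⟩
  · exact absurd rfl h

theorem sum_mass_res (p : Ω → ℝ) (W : Ω → γ) :
    ∑ w ∈ univ.image W, mass (res p W w) = mass p :=
  sum_pr p W _ fun ω _ => by simp

/-- Chain rule. -/
theorem ent_cond (p : Ω → ℝ) (f : Ω → α) (W : Ω → γ) :
    ent p (fun ω => (f ω, W ω)) - ent p W = ∑ w ∈ univ.image W, ent (res p W w) f := by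
  have e1 : ∀ w y, pr (res p W w) f y = pr p (fun ω => (f ω, W ω)) (y, w) := fun w y =>
    sum_congr rfl fun ω _ => by
      by_cases h1 : f ω = y <;> by_cases h2 : W ω = w <;> simp [res, h1, h2]
  have e2 : ∀ w, mass (res p W w) = pr p W w := fun w => rfl
  simp only [ent, e1, e2]
  rw [← sum_sub_distrib, sum_comm]
  refine sum_congr rfl fun ω _ => ?_
  rw [sum_eq_single (W ω)]
  · simp only [res, if_true]; ring
  · intro b _ hb; simp [res, hb.symm]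
  · intro h; simp at h

theorem ent_pair_le_log {p : Ω → ℝ} (hp : ∀ ω, 0 ≤ p ω) (f : Ω → α) (W : Ω → γ) {M : ℝ}
    (h : ∀ ω, p ω ≠ 0 → ∃ S : Finset α, (S.card : ℝ) ≤ M ∧
      ∀ ω', p ω' ≠ 0 → W ω' = W ω → f ω' ∈ S) :
    ent p (fun ω => (f ω, W ω)) ≤ ent p W + mass p * Real.log M := by
  rw [← sub_le_iff_le_add', ent_cond, ← sum_mass_res p W, sum_mul]
  refine sum_le_sum fun w _ => ?_
  by_cases h0 : ∀ ω, res p W w ω = 0
  · simp [ent, mass, h0]
  push Not at h0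
  obtain ⟨ω, hω⟩ := h0
  obtain ⟨S, hS, hS'⟩ := h ω (res_ne hω).2
  exact ent_le_log_card (res_nonneg hp W w) f S
    (fun ω' h' => hS' ω' (res_ne h').2 ((res_ne h').1.trans (res_ne hω).1.symm)) hS

/-- `T` pushes the weights `p` forward to `p₀`. -/
def Push (p : Ω → ℝ) (T : Ω → Ω₀) (p₀ : Ω₀ → ℝ) : Prop := ∀ y, pr p T y = p₀ y

theorem Push.sum {p : Ω → ℝ} {T : Ω → Ω₀} {p₀ : Ω₀ → ℝ} (h : Push p T p₀) (φ : Ω₀ → ℝ) :
    ∑ ω, p ω * φ (T ω) = ∑ y, p₀ y * φ y := by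
  rw [sum_fib p T univ (fun _ _ => mem_univ _)]
  exact sum_congr rfl fun y _ => by rw [h y]

theorem Push.mass {p : Ω → ℝ} {T : Ω → Ω₀} {p₀ : Ω₀ → ℝ} (h : Push p T p₀) :
    mass p = mass p₀ := by
  simpa [H95.mass] using h.sum fun _ => 1

theorem Push.pr {p : Ω → ℝ} {T : Ω → Ω₀} {p₀ : Ω₀ → ℝ} (h : Push p T p₀) (f : Ω₀ → α) (y : α) :
    pr p (fun ω => f (T ω)) y = pr p₀ f y := by
  simpa [H95.pr] using h.sum fun z => if f z = y then 1 else 0

theorem Push.ent {p : Ω → ℝ} {T : Ω → Ω₀} {p₀ : Ω₀ → ℝ} (h : Push p T p₀) (f : Ω₀ → α) :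
    ent p (fun ω => f (T ω)) = ent p₀ f := by
  simp only [H95.ent, h.mass, h.pr]
  exact h.sum fun z => Real.log (H95.mass p₀) - Real.log (H95.pr p₀ f (f z))

/-- Gluing two weighted sets along `a` and `a'`, conditionally independently. -/
noncomputable def glue (p : Ω → ℝ) (p' : Ω' → ℝ) (a : Ω → γ) (a' : Ω' → γ) : Ω × Ω' → ℝ :=
  fun z => if a' z.2 = a z.1 then p z.1 * p' z.2 / pr p' a' (a z.1) else 0

omit [Fintype Ω] in
theorem glue_nonneg {p : Ω → ℝ} {p' : Ω' → ℝ} (hp : ∀ ω, 0 ≤ p ω) (hp' : ∀ ω, 0 ≤ p' ω)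
    (a : Ω → γ) (a' : Ω' → γ) (z : Ω × Ω') : 0 ≤ glue p p' a a' z := by
  unfold glue; split_ifs
  · exact div_nonneg (mul_nonneg (hp _) (hp' _)) (pr_nonneg hp' _ _)
  · exact le_rfl

omit [Fintype Ω] in
theorem glue_ne {p : Ω → ℝ} {p' : Ω' → ℝ} {a : Ω → γ} {a' : Ω' → γ} {z : Ω × Ω'}
    (h : glue p p' a a' z ≠ 0) : a' z.2 = a z.1 ∧ p z.1 ≠ 0 ∧ p' z.2 ≠ 0 := by
  unfold glue at h; split_ifs at h with h1
  · refine ⟨h1, fun h2 => h ?_, fun h2 => h ?_⟩ <;> simp [h2]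
  · exact absurd rfl h

theorem pr_glue (p : Ω → ℝ) (p' : Ω' → ℝ) (a : Ω → γ) (a' : Ω' → γ) (f : Ω → α) (g : Ω' → β)
    (y : α) (w : γ) (u : β) :
    pr (glue p p' a a') (fun z => ((f z.1, a z.1), g z.2)) ((y, w), u)
      = pr p (fun ω => (f ω, a ω)) (y, w) * pr p' (fun ω => (g ω, a' ω)) (u, w) / pr p' a' w := by
  simp only [pr, glue]
  rw [sum_mul_sum, sum_div, Fintype.sum_prod_type]
  refine sum_congr rfl fun ω _ => ?_
  rw [sum_div]
  refine sum_congr rfl fun ω' _ => ?_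
  by_cases h1 : f ω = y <;> by_cases h2 : a ω = w <;> by_cases h3 : g ω' = u <;>
    by_cases h4 : a' ω' = w <;> simp [h1, h2, h3, h4]

theorem push_fst {p : Ω → ℝ} {p' : Ω' → ℝ} (hp : ∀ ω, 0 ≤ p ω) {a : Ω → γ} {a' : Ω' → γ}
    (h : ∀ w, pr p a w = pr p' a' w) : Push (glue p p' a a') Prod.fst p := by
  intro y
  rw [pr, Fintype.sum_prod_type, sum_eq_single y (fun b _ hb => by simp [hb]) (by simp)]
  by_cases h0 : p y = 0
  · simp [glue, h0]
  have h1 : pr p' a' (a y) ≠ 0 := by rw [← h]; exact (pr_pos hp a h0).ne'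
  have : ∑ ω', glue p p' a a' (y, ω') = p y * pr p' a' (a y) / pr p' a' (a y) := by
    conv_rhs => rw [pr, mul_sum, sum_div]
    refine sum_congr rfl fun ω' _ => ?_
    by_cases h4 : a' ω' = a y <;> simp [glue, h4, pr]
  simp only [if_true]
  rw [this, mul_div_cancel_right₀ _ h1]

theorem push_snd {p : Ω → ℝ} {p' : Ω' → ℝ} (hp' : ∀ ω, 0 ≤ p' ω) {a : Ω → γ} {a' : Ω' → γ}
    (h : ∀ w, pr p a w = pr p' a' w) : Push (glue p p' a a') Prod.snd p' := by
  intro y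
  rw [pr, Fintype.sum_prod_type_right, sum_eq_single y (fun b _ hb => by simp [hb]) (by simp)]
  by_cases h0 : p' y = 0
  · simp [glue, h0]
  have h1 : pr p' a' (a' y) ≠ 0 := (pr_pos hp' a' h0).ne'
  have : ∑ ω, glue p p' a a' (ω, y) = p' y * pr p a (a' y) / pr p' a' (a' y) := by
    conv_rhs => rw [pr, mul_sum, sum_div]
    refine sum_congr rfl fun ω _ => ?_
    by_cases h4 : a' y = a ω
    · simp [glue, h4, mul_comm]
    · simp [glue, h4, Ne.symm h4]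
  simp only [if_true]
  rw [this, h, mul_div_cancel_right₀ _ h1]

theorem push_glue {p : Ω → ℝ} {T : Ω → Ω₀} {p₀ : Ω₀ → ℝ} (h : Push p T p₀) (p' : Ω' → ℝ)
    (a : Ω₀ → γ) (a' : Ω' → γ) :
    Push (glue p p' (fun ω => a (T ω)) a') (fun z => (T z.1, z.2)) (glue p₀ p' a a') := by
  rintro ⟨y, y'⟩
  rw [pr, Fintype.sum_prod_type_right,
    sum_eq_single y' (fun b _ hb => by simp [hb]) (by simp)]
  have := h.sum fun z => if z = y then
    (if a' y' = a z then p' y' / pr p' a' (a z) else 0) else 0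
  simp only [mul_ite, mul_zero, sum_ite_eq', mem_univ, if_true] at this
  simp only [glue, mul_div_assoc, Prod.mk.injEq, and_true]
  exact this

theorem ent_glue {p : Ω → ℝ} {p' : Ω' → ℝ} (hp : ∀ ω, 0 ≤ p ω) (hp' : ∀ ω, 0 ≤ p' ω)
    {a : Ω → γ} {a' : Ω' → γ} (h : ∀ w, pr p a w = pr p' a' w) (f : Ω → α) (g : Ω' → β) :
    ent (glue p p' a a') (fun z => ((f z.1, a z.1), g z.2))
      = ent p (fun ω => (f ω, a ω)) + ent p' (fun ω => (g ω, a' ω)) - ent p a := by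
  have h1 := push_fst hp h
  have h2 := push_snd hp' h
  rw [← h1.ent, ← h2.ent, ← h1.ent a]
  simp only [ent]
  rw [← sum_add_distrib, ← sum_sub_distrib]
  refine sum_congr rfl fun z _ => ?_
  by_cases h0 : glue p p' a a' z = 0
  · simp [h0]
  obtain ⟨e, h3, h4⟩ := glue_ne h0
  rw [pr_glue, h1.pr (fun ω => (f ω, a ω)), h2.pr (fun ω => (g ω, a' ω)), h1.pr a, ← h, ← e]
  have p1 := pr_pos hp (fun ω => (f ω, a ω)) h3
  have p2 := pr_pos hp' (fun ω => (g ω, a' ω)) h4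
  have p3 := pr_pos hp a h3
  simp only [← e] at p1 p3
  rw [Real.log_div (mul_pos p1 p2).ne' p3.ne', Real.log_mul p1.ne' p2.ne']
  ring

end Pool.Agent.MP_5168f5_an.H95
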