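import Pool.Agent.MP_5168f5_an.H95.Ent

/-!
Discretized sum-difference inequalities in entropy form: definitions, the trivial inequality,
conditioning, padding and rescaling of the heights.
-/

open Finset Classical

namespace Pool.Agent.MP_5168f5_an.H95

variable {Ω γ α : Type} [Fintype Ω] {m : ℕ}

/-- The unit cell containing a point. -/
noncomputable def fl (y : Fin m → ℝ) : Fin m → ℤ := fun i => ⌊y i⌋

/-- The cell of the direction determines the line. -/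
def Inj (p : Ω → ℝ) (x v : Ω → Fin m → ℝ) : Prop :=
  ∀ ω ω', p ω ≠ 0 → p ω' ≠ 0 → fl (v ω) = fl (v ω') → x ω = x ω' ∧ v ω = v ω'

/-- The cell of the point of the line at height `t`. -/
noncomputable def cell (x v : Ω → Fin m → ℝ) (t : ℝ) (ω : Ω) : Fin m → ℤ := fl (x ω + t • v ω)

/-- A positive functional of total weight `z` carried by `R`. -/
def Pos (R : Finset ℝ) (z : ℝ) (Λ : (ℝ → ℝ) →ₗ[ℝ] ℝ) : Prop :=
  (∀ φ, (∀ t ∈ R, 0 ≤ φ t) → 0 ≤ Λ φ) ∧ Λ 1 = z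

/-- Sum-difference inequality with heights `R`, exponent `β` and loss `L` per dimension. -/
def SD (R : Finset ℝ) (β L : ℝ) : Prop :=
  ∃ Λ, Pos R β Λ ∧ ∀ (m : ℕ) (Ω : Type) [Fintype Ω] (p : Ω → ℝ) (x v : Ω → Fin m → ℝ),
    (∀ ω, 0 ≤ p ω) → Inj p x v →
    ent p (fun ω => fl (v ω)) ≤ Λ (fun t => ent p (cell x v t)) + mass p * m * L

/-- Evaluation at a height. -/
def ev (r : ℝ) : (ℝ → ℝ) →ₗ[ℝ] ℝ := LinearMap.proj r

theorem ev_apply (r : ℝ) (φ : ℝ → ℝ) : ev r φ = φ r := rfl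

theorem Pos.le {R : Finset ℝ} {z : ℝ} {Λ : (ℝ → ℝ) →ₗ[ℝ] ℝ} (h : Pos R z Λ) {φ ψ : ℝ → ℝ}
    {c : ℝ} (hφ : ∀ t ∈ R, φ t ≤ ψ t + c) : Λ φ ≤ Λ ψ + z * c := by
  have := h.1 (ψ + c • 1 - φ) fun t ht => by simpa using hφ t ht
  rw [map_sub, map_add, map_smul, h.2, smul_eq_mul] at this
  linarith

theorem Pos.nonempty {R : Finset ℝ} {z : ℝ} {Λ : (ℝ → ℝ) →ₗ[ℝ] ℝ} (h : Pos R z Λ) (hz : 0 < z) :
    R.Nonempty := by
  by_contra h0
  rw [not_nonempty_iff_eq_empty] at h0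
  have := h.le (φ := 0) (ψ := 0) (c := -1) (by simp [h0])
  linarith

theorem fl_close {y y' : Fin m → ℝ} (h : fl y = fl y') (i : Fin m) : |y i - y' i| ≤ 1 :=
  (Int.abs_sub_lt_one_of_floor_eq_floor (congrFun h i)).le

theorem ent_fl_le {p : Ω → ℝ} (hp : ∀ ω, 0 ≤ p ω) (A : Ω → Fin m → ℝ) (W : Ω → γ) {K : ℝ}
    (hK : 0 ≤ K) (h : ∀ ω ω', p ω ≠ 0 → p ω' ≠ 0 → W ω = W ω' → ∀ i, |A ω i - A ω' i| ≤ K) :
    ent p (fun ω => (fl (A ω), W ω)) ≤ ent p W + mass p * m * Real.log (2 * K + 2) := by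
  rw [mul_assoc, ← Real.log_pow]
  refine ent_pair_le_log hp _ W fun ω h0 =>
    ⟨Fintype.piFinset fun i => Finset.Icc ⌊A ω i - K⌋ ⌊A ω i + K⌋, ?_, fun ω' h1 h2 => ?_⟩
  · rw [Fintype.card_piFinset, Nat.cast_prod]
    refine (prod_le_prod (g := fun _ => 2 * K + 2) (fun _ _ => by positivity)
      fun i _ => ?_).trans (by simp)
    rw [Int.card_Icc]
    have h3 : (0 : ℤ) ≤ ⌊A ω i + K⌋ + 1 - ⌊A ω i - K⌋ := by
      have := Int.floor_mono (show A ω i - K ≤ A ω i + K by linarith)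
      omega
    have h4 : (((⌊A ω i + K⌋ + 1 - ⌊A ω i - K⌋).toNat : ℕ) : ℝ)
        = ((⌊A ω i + K⌋ + 1 - ⌊A ω i - K⌋ : ℤ) : ℝ) := by
      rw [← Int.cast_natCast, Int.toNat_of_nonneg h3]
    rw [h4]
    push_cast
    linarith [Int.floor_le (A ω i + K), Int.lt_floor_add_one (A ω i - K)]
  · rw [Fintype.mem_piFinset]
    intro i
    have := abs_le.1 (h ω' ω h1 h0 h2 i)
    exact Finset.mem_Icc.2 ⟨Int.floor_mono (by linarith [this.1]),
      Int.floor_mono (by linarith [this.2])⟩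

/-- If `W` determines `A` up to `K`, and the cell of `A` together with `W` determines `F`. -/
theorem ent_le_approx {p : Ω → ℝ} (hp : ∀ ω, 0 ≤ p ω) (A : Ω → Fin m → ℝ) {W : Ω → γ}
    {F : Ω → α} {K : ℝ} (hK : 0 ≤ K)
    (h : ∀ ω ω', p ω ≠ 0 → p ω' ≠ 0 → W ω = W ω' → ∀ i, |A ω i - A ω' i| ≤ K)
    (h' : ∀ ω ω', p ω ≠ 0 → p ω' ≠ 0 → fl (A ω) = fl (A ω') → W ω = W ω' → F ω = F ω') :
    ent p F ≤ ent p W + mass p * m * Real.log (2 * K + 2) :=
  (ent_le_of_det hp fun ω ω' h0 h1 e =>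
    h' ω ω' h0 h1 (Prod.ext_iff.1 e).1 (Prod.ext_iff.1 e).2).trans (ent_fl_le hp A W hK h)

/-- The conditional form of a sum-difference inequality. -/
theorem SD_cond {Λ : (ℝ → ℝ) →ₗ[ℝ] ℝ} {β L : ℝ} {R : Finset ℝ} (hΛ : Pos R β Λ)
    (h : ∀ (p : Ω → ℝ) (x v : Ω → Fin m → ℝ), (∀ ω, 0 ≤ p ω) → Inj p x v →
      ent p (fun ω => fl (v ω)) ≤ Λ (fun t => ent p (cell x v t)) + mass p * m * L)
    {p : Ω → ℝ} {x v : Ω → Fin m → ℝ} (hp : ∀ ω, 0 ≤ p ω) (W : Ω → γ)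
    (hi : ∀ ω ω', p ω ≠ 0 → p ω' ≠ 0 → W ω = W ω' → fl (v ω) = fl (v ω') →
      x ω = x ω' ∧ v ω = v ω') :
    ent p (fun ω => (fl (v ω), W ω)) + (β - 1) * ent p W
      ≤ Λ (fun t => ent p (fun ω => (cell x v t ω, W ω))) + mass p * m * L := by
  have h1 : ent p (fun ω => (fl (v ω), W ω)) - ent p W
      ≤ ∑ w ∈ univ.image W, (Λ (fun t => ent (res p W w) (cell x v t))
        + mass (res p W w) * m * L) := by
    rw [ent_cond]
    exact sum_le_sum fun w _ => h _ x v (res_nonneg hp W w) fun ω ω' h0 h1 =>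
      hi ω ω' (res_ne h0).2 (res_ne h1).2 ((res_ne h0).1.trans (res_ne h1).1.symm)
  rw [sum_add_distrib, ← sum_mul, ← sum_mul, sum_mass_res, ← map_sum] at h1
  have h2 := hΛ.le (φ := ∑ w ∈ univ.image W, fun t => ent (res p W w) (cell x v t))
    (ψ := fun t => ent p (fun ω => (cell x v t ω, W ω))) (c := -ent p W) fun t _ => by
      rw [Finset.sum_apply, ← ent_cond]; linarith
  linarith

theorem SD.mono {R R' : Finset ℝ} {β β' L L' : ℝ} (h : SD R β L) (hβ0 : 0 < β) (hR : R ⊆ R')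
    (hβ : β ≤ β') (hL : L ≤ L') : SD R' β' L' := by
  obtain ⟨Λ, hΛ, h⟩ := h
  obtain ⟨r, hr⟩ := hΛ.nonempty hβ0
  refine ⟨Λ + (β' - β) • ev r, ⟨fun φ hφ => ?_, by simp [hΛ.2, ev_apply]⟩,
    fun m Ω _ p x v hp hi => ?_⟩
  · have := hΛ.1 φ fun t ht => hφ t (hR ht)
    have := mul_nonneg (sub_nonneg.2 hβ) (hφ r (hR hr))
    simp only [LinearMap.add_apply, LinearMap.smul_apply, ev_apply, smul_eq_mul]
    linarith
  · have h1 := h m Ω p x v hp hi
    have h2 := mul_nonneg (sub_nonneg.2 hβ) (ent_nonneg hp (cell x v r))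
    have h3 := mul_le_mul_of_nonneg_left hL
      (mul_nonneg (mass_nonneg hp) (Nat.cast_nonneg (α := ℝ) m))
    simp only [LinearMap.add_apply, LinearMap.smul_apply, ev_apply, smul_eq_mul]
    linarith

theorem abs_le_div {c d k σ : ℝ} (hσ : 0 < σ) (hc : σ ≤ |c|) (h : |c * d| ≤ k) : |d| ≤ k / σ := by
  rw [le_div_iff₀ hσ]
  rw [abs_mul] at h
  nlinarith [abs_nonneg d]

theorem SD_two {r s σ : ℝ} (hσ : 0 < σ) (h : σ ≤ |r - s|) :
    SD {r, s} 2 (Real.log (2 * (2 / σ) + 2)) := by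
  refine ⟨ev r + ev s, ⟨fun φ hφ => ?_, by
    simp only [LinearMap.add_apply, ev_apply, Pi.one_apply]; norm_num⟩,
    fun m Ω _ p x v hp hi => ?_⟩
  · simpa [ev_apply] using add_nonneg (hφ r (by simp)) (hφ s (by simp))
  · have h1 := ent_le_approx hp v (W := fun ω => (cell x v r ω, cell x v s ω))
      (F := fun ω => fl (v ω)) (K := 2 / σ) (by positivity) (fun ω ω' _ _ e i => by
        have h1 := abs_le.1 (fl_close (Prod.ext_iff.1 e).1 i)
        have h2 := abs_le.1 (fl_close (Prod.ext_iff.1 e).2 i)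
        simp only [Pi.add_apply, Pi.smul_apply, smul_eq_mul] at h1 h2
        exact abs_le_div hσ h (abs_le.2 ⟨by linarith [h1.1, h2.2], by linarith [h1.2, h2.1]⟩))
      (fun _ _ _ _ e _ => e)
    have h2 := ent_pair_le hp (cell x v r) (cell x v s)
    simp only [LinearMap.add_apply, ev_apply]
    linarith

/-- Shrinking the heights by the factor `1 / N` costs `log (N + 1)` per dimension. -/
theorem SD.rescale {R : Finset ℝ} {β L : ℝ} (h : SD R β L) (t₀ : ℝ) {N : ℕ}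
    (hN : 0 < N) : SD (R.image fun t => t₀ + t / N) β (L + Real.log (N + 1)) := by
  obtain ⟨Λ, hΛ, h⟩ := h
  have hN' : (0 : ℝ) < N := by exact_mod_cast hN
  refine ⟨Λ ∘ₗ LinearMap.funLeft ℝ ℝ fun t => t₀ + t / N,
    ⟨fun φ hφ => hΛ.1 _ fun t ht => hφ _ (mem_image_of_mem _ ht), hΛ.2⟩,
    fun m Ω _ p x v hp hi => ?_⟩
  set W : Ω → Fin m → ℤ := fun ω i => fl (v ω) i % (N + 1 : ℕ) with hW
  have key : ∀ ω ω', W ω = W ω' → fl ((N : ℝ)⁻¹ • v ω) = fl ((N : ℝ)⁻¹ • v ω') →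
      fl (v ω) = fl (v ω') := by
    intro ω ω' e1 e2
    funext i
    have h1 : ((N + 1 : ℕ) : ℤ) ∣ fl (v ω') i - fl (v ω) i := Int.ModEq.dvd (congrFun e1 i)
    have h2 := abs_lt.1 (Int.abs_sub_lt_one_of_floor_eq_floor (congrFun e2 i))
    simp only [Pi.smul_apply, smul_eq_mul] at h2
    have h3 : v ω i - v ω' i < N := by
      have := mul_lt_mul_of_pos_left h2.2 hN'
      rwa [mul_sub, ← mul_assoc, ← mul_assoc, mul_inv_cancel₀ hN'.ne', one_mul, one_mul,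
        mul_one] at this
    have h4 : -(N : ℝ) < v ω i - v ω' i := by
      have := mul_lt_mul_of_pos_left h2.1 hN'
      rwa [mul_sub, ← mul_assoc, ← mul_assoc, mul_inv_cancel₀ hN'.ne', one_mul, one_mul,
        mul_neg_one] at this
    have h5 : |fl (v ω') i - fl (v ω) i| < ((N + 1 : ℕ) : ℤ) := by
      have a1 := Int.floor_le (v ω i)
      have a2 := Int.lt_floor_add_one (v ω i)
      have a3 := Int.floor_le (v ω' i)
      have a4 := Int.lt_floor_add_one (v ω' i)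
      rw [abs_lt]
      constructor <;> apply (Int.cast_lt (R := ℝ)).1 <;> simp only [fl] <;> push_cast <;> linarith
    have := Int.eq_zero_of_abs_lt_dvd h1 h5
    omega
  have h1 := SD_cond hΛ (h m Ω) (x := fun ω => x ω + t₀ • v ω) (v := fun ω => (N : ℝ)⁻¹ • v ω)
    hp W fun ω ω' h0 h1 e1 e2 => by
      obtain ⟨e3, e4⟩ := hi ω ω' h0 h1 (key ω ω' e1 e2)
      simp only [e3, e4, and_self]
  have h2 : ent p (fun ω => fl (v ω)) ≤ ent p (fun ω => (fl ((N : ℝ)⁻¹ • v ω), W ω)) :=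
    ent_le_of_det hp fun ω ω' _ _ e => key ω ω' (Prod.ext_iff.1 e).2 (Prod.ext_iff.1 e).1
  have h3 : ent p W ≤ mass p * m * Real.log (N + 1) := by
    rw [mul_assoc, ← Real.log_pow]
    refine ent_le_log_card hp W (Fintype.piFinset fun _ => Finset.Ico (0 : ℤ) (N + 1 : ℕ))
      (fun ω _ => Fintype.mem_piFinset.2 fun i => Finset.mem_Ico.2
        ⟨Int.emod_nonneg _ (by omega), Int.emod_lt_of_pos _ (by omega)⟩) (by simp)
  have h4 := hΛ.le
    (φ := fun t => ent p (fun ω => (cell (fun ω => x ω + t₀ • v ω)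
      (fun ω => (N : ℝ)⁻¹ • v ω) t ω, W ω)))
    (ψ := LinearMap.funLeft ℝ ℝ (fun t => t₀ + t / N) fun t => ent p (cell x v t))
    (c := ent p W) fun t _ => by
      refine (ent_pair_le hp _ _).trans (le_of_eq ?_)
      rw [LinearMap.funLeft_apply]
      congr 2
      funext ω
      simp only [cell, smul_smul, add_smul, add_assoc, div_eq_mul_inv]
  rw [LinearMap.comp_apply]
  linarith

end Pool.Agent.MP_5168f5_an.H95
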