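import Pool.Agent.MP_5168f5_an.H95.Defs
import Pool.Agent.MP_5168f5_an.H95.SD

/-!
Coordinates adapted to a coordinate axis: tubes, cells of directions and smoothing.
-/

open MeasureTheory Set Classical Metric
open scoped ENNReal Pointwise

namespace Pool.Agent.MP_5168f5_an.H95

variable {m : ℕ}

/-- Splitting off the `i`-th coordinate. -/
noncomputable def spl (i : Fin (m + 1)) :
    EuclideanSpace ℝ (Fin (m + 1)) ≃ᵐ ℝ × (Fin m → ℝ) :=
  (MeasurableEquiv.toLp 2 (Fin (m + 1) → ℝ)).symm.trans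
    (MeasurableEquiv.piFinSuccAbove (fun _ => ℝ) i)

theorem spl_apply (i : Fin (m + 1)) (y : EuclideanSpace ℝ (Fin (m + 1))) :
    spl i y = (y i, fun j => y (i.succAbove j)) := rfl

theorem spl_mp (i : Fin (m + 1)) : MeasurePreserving (spl i) volume (volume.prod volume) :=
  (volume_preserving_piFinSuccAbove (fun _ => ℝ) i).comp (PiLp.volume_preserving_ofLp _)

/-- A sheared box. -/
def sbox (t₀ t₁ : ℝ) (x v : Fin m → ℝ) (r : ℝ) : Set (ℝ × (Fin m → ℝ)) :=
  {z | z.1 ∈ Icc t₀ t₁ ∧ z.2 ∈ closedBall (x + z.1 • v) r}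

theorem measurableSet_sbox (t₀ t₁ : ℝ) (x v : Fin m → ℝ) (r : ℝ) :
    MeasurableSet (sbox t₀ t₁ x v r) :=
  (measurable_fst measurableSet_Icc).inter (isClosed_le (f := fun z : ℝ × (Fin m → ℝ) =>
    dist z.2 (x + z.1 • v)) (by fun_prop) continuous_const).measurableSet

theorem lintegral_sbox (t₀ t₁ : ℝ) (x v : Fin m → ℝ) (r : ℝ) {g : ℝ × (Fin m → ℝ) → ℝ≥0∞}
    (hg : Measurable g) : ∫⁻ z in sbox t₀ t₁ x v r, g z ∂(volume.prod volume)
      = ∫⁻ t in Icc t₀ t₁, ∫⁻ y in closedBall (x + t • v) r, g (t, y) := by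
  rw [← lintegral_indicator (measurableSet_sbox _ _ _ _ _),
    lintegral_prod _ (hg.indicator (measurableSet_sbox _ _ _ _ _)).aemeasurable,
    ← lintegral_indicator measurableSet_Icc]
  refine lintegral_congr fun t => ?_
  by_cases ht : t ∈ Icc t₀ t₁
  · rw [indicator_of_mem ht, ← lintegral_indicator measurableSet_closedBall]
    refine lintegral_congr fun y => ?_
    simp only [indicator_apply, sbox, mem_ofPred_eq, ht, true_and]
  · simp only [indicator_apply, sbox, mem_ofPred_eq, ht, false_and, if_false, lintegral_zero]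

theorem volume_sbox (i : Fin (m + 1)) {t₀ t₁ : ℝ} (ht : t₀ ≤ t₁) (x v : Fin m → ℝ) {r : ℝ}
    (hr : 0 ≤ r) :
    volume (spl i ⁻¹' sbox t₀ t₁ x v r) = ENNReal.ofReal ((t₁ - t₀) * (2 * r) ^ m) := by
  rw [(spl_mp i).measure_preimage (measurableSet_sbox _ _ _ _ _).nullMeasurableSet,
    ← setLIntegral_one, lintegral_sbox _ _ _ _ _ measurable_const]
  simp only [setLIntegral_one, Real.volume_pi_closedBall _ hr, Fintype.card_fin, setLIntegral_const,
    Real.volume_Icc]
  rw [mul_comm, ENNReal.ofReal_mul (sub_nonneg.2 ht)]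

/-- The slope of the direction `e` with respect to the `i`-th axis. -/
noncomputable def slope (i : Fin (m + 1)) (e : EuclideanSpace ℝ (Fin (m + 1))) : Fin m → ℝ :=
  fun j => e (i.succAbove j) / e i

/-- The point at height zero of the line through `a` with direction `e`. -/
noncomputable def icpt (i : Fin (m + 1)) (e a : EuclideanSpace ℝ (Fin (m + 1))) : Fin m → ℝ :=
  fun j => a (i.succAbove j) - a i * slope i e j

theorem norm_le_of_coord {n : ℕ} {w : EuclideanSpace ℝ (Fin n)} {c : ℝ} (hc : 0 ≤ c)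
    (h : ∀ k, |w k| ≤ c) : ‖w‖ ≤ n * c := by
  rw [EuclideanSpace.norm_eq, Real.sqrt_le_left (by positivity)]
  refine (Finset.sum_le_sum (g := fun _ => c ^ 2) fun k _ =>
    pow_le_pow_left₀ (norm_nonneg _) (h k) 2).trans ?_
  rw [Finset.sum_const, Finset.card_fin, nsmul_eq_mul, mul_pow]
  gcongr
  exact_mod_cast Nat.le_self_pow two_ne_zero n

theorem coord_le {n : ℕ} (w : EuclideanSpace ℝ (Fin n)) (k : Fin n) : |w k| ≤ ‖w‖ :=
  PiLp.norm_apply_le w k

theorem big_coord {i : Fin (m + 1)} {e : EuclideanSpace ℝ (Fin (m + 1))} (he : ‖e‖ = 1)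
    (hi : ∀ k, |e k| ≤ |e i|) : 1 ≤ (m + 1 : ℝ) * |e i| := by
  simpa [he] using norm_le_of_coord (abs_nonneg _) hi

theorem coord_ne {i : Fin (m + 1)} {e : EuclideanSpace ℝ (Fin (m + 1))} (he : ‖e‖ = 1)
    (hi : ∀ k, |e k| ≤ |e i|) : e i ≠ 0 := fun h => by
  have := big_coord he hi
  rw [h] at this
  norm_num at this

theorem slope_le {i : Fin (m + 1)} {e : EuclideanSpace ℝ (Fin (m + 1))}
    (hi : ∀ k, |e k| ≤ |e i|) (j : Fin m) : |slope i e j| ≤ 1 := by
  rw [slope, abs_div]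
  exact div_le_one_of_le₀ (hi _) (abs_nonneg _)

theorem tube_sub {i : Fin (m + 1)} {e a : EuclideanSpace ℝ (Fin (m + 1))} {δ : ℝ} (hδ : δ < 1)
    (he : ‖e‖ = 1) (hi : ∀ k, |e k| ≤ |e i|) : tube e a δ ⊆
      spl i ⁻¹' sbox (a i - 3 / 2) (a i + 3 / 2) (icpt i e a) (slope i e) (2 * δ) := by
  rintro y ⟨h1, h2⟩
  generalize inner ℝ (y - a) e = s at h1 h2
  have h3 : ∀ k, |y k - a k - s * e k| ≤ δ := fun k => (coord_le _ k).trans' (le_of_eq rfl) |>.trans h2
  have h0 : 0 ≤ δ := (norm_nonneg _).trans h2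
  have h4 : |s * e i| ≤ 1 / 2 := by
    rw [abs_mul]
    nlinarith [abs_nonneg s, abs_nonneg (e i), coord_le e i]
  have h5 := abs_le.1 (h3 i)
  have h6 := abs_le.1 h4
  refine ⟨⟨by rw [spl_apply]; linarith [h5.1, h6.1], by rw [spl_apply]; linarith [h5.2, h6.2]⟩, ?_⟩
  rw [mem_closedBall, dist_pi_le_iff (by linarith)]
  intro j
  have e1 : y (i.succAbove j) - (icpt i e a j + y i * slope i e j)
      = (y (i.succAbove j) - a (i.succAbove j) - s * e (i.succAbove j))
        - (y i - a i - s * e i) * slope i e j := by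
    have := coord_ne he hi
    simp only [icpt, slope]; field_simp; ring
  have e2 : |(y i - a i - s * e i) * slope i e j| ≤ δ := by
    rw [abs_mul]
    exact (mul_le_of_le_one_right (abs_nonneg _) (slope_le hi j)).trans (h3 i)
  show |y (i.succAbove j) - (icpt i e a j + y i * slope i e j)| ≤ 2 * δ
  rw [e1]
  exact (abs_sub _ _).trans (by linarith [h3 (i.succAbove j)])

theorem sub_tube {i : Fin (m + 1)} {e a : EuclideanSpace ℝ (Fin (m + 1))} {δ : ℝ} (hδ0 : 0 < δ)
    (hδ : δ < 1) (he : ‖e‖ = 1) (hi : ∀ k, |e k| ≤ |e i|) :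
    spl i ⁻¹' sbox (a i - 1 / (4 * (m + 1))) (a i + 1 / (4 * (m + 1))) (icpt i e a) (slope i e)
      (δ / (4 * (m + 1))) ⊆ tube e a δ := by
  rintro y ⟨h1, h2⟩
  rw [mem_closedBall, dist_pi_le_iff (by positivity)] at h2
  have h0 := coord_ne he hi
  set s := (y i - a i) / e i with hs
  have hs1 : |s| ≤ 1 / 4 := by
    have k1 : |y i - a i| ≤ 1 / (4 * (m + 1)) :=
      abs_le.2 ⟨by linarith [show a i - _ ≤ y i from h1.1], by linarith [show y i ≤ a i + _ from h1.2]⟩
    rw [le_div_iff₀ (by positivity)] at k1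
    rw [hs, abs_div, div_le_iff₀ (abs_pos.2 h0)]
    have k2 := mul_le_mul_of_nonneg_left (big_coord he hi) (abs_nonneg (y i - a i))
    nlinarith [abs_nonneg (e i)]
  set w := y - a - s • e with hw
  have hw1 : ‖w‖ ≤ δ / 4 := by
    refine (norm_le_of_coord (c := δ / (4 * (m + 1))) (by positivity) fun k => ?_).trans
      (le_of_eq (by push_cast; field_simp))
    show |y k - a k - s * e k| ≤ _
    refine Fin.succAboveCases i ?_ (fun j => ?_) k
    · rw [hs, div_mul_cancel₀ _ h0, sub_self, abs_zero]; positivity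
    · refine le_trans (le_of_eq ?_) (h2 j)
      show _ = |y (i.succAbove j) - (icpt i e a j + y i * slope i e j)|
      congr 1
      simp only [icpt, slope, hs]; field_simp; ring
  have hwe : |inner ℝ w e| ≤ δ / 4 := by
    have := abs_real_inner_le_norm w e
    rw [he, mul_one] at this
    exact this.trans hw1
  have e1 : y - a = s • e + w := by rw [hw]; abel
  have e2 : inner ℝ (y - a) e = s + inner ℝ w e := by
    rw [e1, inner_add_left, real_inner_smul_left, real_inner_self_eq_norm_sq, he]; ring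
  constructor
  · rw [e2]; exact (abs_add_le _ _).trans (by linarith)
  · rw [e2, e1, show s • e + w - (s + inner ℝ w e) • e = w - (inner ℝ w e) • e by module]
    refine (norm_sub_le _ _).trans ?_
    rw [norm_smul, he, Real.norm_eq_abs]
    linarith

theorem volume_tube_ge {e a : EuclideanSpace ℝ (Fin (m + 1))} {δ : ℝ} (hδ0 : 0 < δ)
    (hδ : δ < 1) (he : ‖e‖ = 1) :
    ENNReal.ofReal (δ ^ m / (2 * (m + 1)) ^ (m + 1)) ≤ volume (tube e a δ) := by
  obtain ⟨i, -, hi⟩ := Finset.univ.exists_max_image (fun k => |e k|) Finset.univ_nonempty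
  refine le_trans (le_of_eq ?_) (measure_mono (sub_tube hδ0 hδ he fun k => hi k (by simp)))
  have : (0 : ℝ) < 1 / (4 * (m + 1)) := by positivity
  rw [volume_sbox i (by linarith) _ _ (by positivity)]
  congr 1
  rw [show 2 * (δ / (4 * (m + 1))) = δ / (2 * (m + 1)) by field_simp; ring, div_pow, pow_succ]
  field_simp
  ring

theorem measurable_fl : Measurable (fl : (Fin m → ℝ) → Fin m → ℤ) :=
  measurable_pi_lambda _ fun i => Int.measurable_floor.comp (measurable_pi_apply i)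

theorem dist_fl {δ : ℝ} (hδ : 0 < δ) (y : Fin m → ℝ) :
    dist y (fun j => δ * fl (δ⁻¹ • y) j) ≤ δ := by
  rw [dist_pi_le_iff hδ.le]
  intro j
  have h1 := mul_le_mul_of_nonneg_left (Int.floor_le (δ⁻¹ * y j)) hδ.le
  have h2 := mul_lt_mul_of_pos_left (Int.lt_floor_add_one (δ⁻¹ * y j)) hδ
  rw [mul_inv_cancel_left₀ hδ.ne'] at h1 h2
  exact abs_le.2 ⟨by simp only [fl, Pi.smul_apply, smul_eq_mul]; linarith,
    by simp only [fl, Pi.smul_apply, smul_eq_mul]; linarith⟩

theorem sphere_cell (i : Fin (m + 1)) {δ : ℝ} (hδ : 0 < δ) (z : Fin m → ℤ) :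
    (volume : Measure (EuclideanSpace ℝ (Fin (m + 1)))).toSphere
      {e | e.1 i ≠ 0 ∧ fl (δ⁻¹ • slope i e.1) = z} ≤ ENNReal.ofReal ((m + 1) * (2 * (2 * δ) ^ m)) := by
  have hm : MeasurableSet {e : sphere (0 : EuclideanSpace ℝ (Fin (m + 1))) 1 |
      e.1 i ≠ 0 ∧ fl (δ⁻¹ • slope i e.1) = z} := by
    refine MeasurableSet.inter ((by fun_prop : Measurable fun e :
      sphere (0 : EuclideanSpace ℝ (Fin (m + 1))) 1 => e.1 i) (measurableSet_singleton 0).compl)
      ((measurable_fl.comp ?_) (measurableSet_singleton z))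
    refine measurable_pi_lambda _ fun j => ?_
    simp only [slope, Pi.smul_apply, smul_eq_mul]
    fun_prop
  rw [Measure.toSphere_apply' _ hm, finrank_euclideanSpace_fin,
    ENNReal.ofReal_mul (by positivity), ← Nat.cast_succ, ENNReal.ofReal_natCast]
  gcongr
  refine le_trans (measure_mono ?_) (le_of_eq ((volume_sbox i (show (-1 : ℝ) ≤ 1 by norm_num) 0
    (fun j => δ * z j) hδ.le).trans (by norm_num)))
  rintro _ ⟨r, hr, _, ⟨e, ⟨h1, rfl⟩, rfl⟩, rfl⟩
  have h2 : |r * e.1 i| ≤ 1 := by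
    have := coord_le e.1 i
    rw [norm_eq_of_mem_sphere e] at this
    rw [abs_mul, abs_of_pos hr.1]
    nlinarith [hr.1, hr.2, abs_nonneg (e.1 i)]
  refine ⟨abs_le.1 h2, ?_⟩
  rw [mem_closedBall, dist_pi_le_iff hδ.le]
  intro j
  have h3 := (dist_pi_le_iff hδ.le).1 (dist_fl hδ (slope i e.1)) j
  show |r * e.1 (i.succAbove j) - (0 + r * e.1 i * (δ * fl (δ⁻¹ • slope i e.1) j))| ≤ δ
  rw [show r * e.1 (i.succAbove j) = r * e.1 i * slope i e.1 j by rw [slope]; field_simp, zero_add,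
    ← mul_sub, abs_mul]
  exact (mul_le_of_le_one_left (abs_nonneg _) h2).trans h3

/-- The integral of `g` over an enlarged cell at a given height. -/
noncomputable def smooth (δ : ℝ) (g : ℝ × (Fin m → ℝ) → ℝ≥0∞) (q : ℝ × (Fin m → ℤ)) : ℝ≥0∞ :=
  ∫⁻ y in closedBall (fun j => δ * q.2 j) (3 * δ), g (q.1, y)

theorem measurable_smooth (δ : ℝ) {g : ℝ × (Fin m → ℝ) → ℝ≥0∞} (hg : Measurable g) :
    Measurable (smooth δ g) :=
  measurable_from_prod_countable_left fun z =>
    hg.lintegral_prod_right' (ν := volume.restrict (closedBall (fun j => δ * z j) (3 * δ)))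

theorem holder_one {X : Type*} [MeasurableSpace X] (μ : Measure X) {g : X → ℝ≥0∞}
    (hg : Measurable g) {p : ℝ} (hp : 1 < p) :
    (∫⁻ x, g x ∂μ) ^ p ≤ μ univ ^ (p - 1) * ∫⁻ x, g x ^ p ∂μ := by
  have hp0 : 0 < p := by linarith
  have h := ENNReal.lintegral_mul_le_Lp_mul_Lq μ (Real.HolderConjugate.conjExponent hp)
    hg.aemeasurable (g := fun _ => 1) aemeasurable_const
  simp only [Pi.mul_apply, mul_one, ENNReal.one_rpow, lintegral_one] at h
  refine (ENNReal.rpow_le_rpow h hp0.le).trans (le_of_eq ?_)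
  rw [ENNReal.mul_rpow_of_nonneg _ _ hp0.le, ← ENNReal.rpow_mul, ← ENNReal.rpow_mul,
    one_div_mul_cancel hp0.ne', ENNReal.rpow_one, mul_comm, Real.conjExponent]
  congr 2
  field_simp

theorem sum_cells {δ : ℝ} (hδ : 0 < δ) {G : (Fin m → ℝ) → ℝ≥0∞} (hG : Measurable G) :
    ∑' z : Fin m → ℤ, ∫⁻ y in closedBall (fun j => δ * z j) (3 * δ), G y ≤ 7 ^ m * ∫⁻ y, G y := by
  simp only [← lintegral_indicator measurableSet_closedBall]
  rw [← lintegral_tsum fun z => (hG.indicator measurableSet_closedBall).aemeasurable,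
    ← lintegral_const_mul _ hG]
  refine lintegral_mono fun y => ?_
  set S := Fintype.piFinset fun j => Finset.Icc (⌊y j / δ⌋ - 3) (⌊y j / δ⌋ + 3) with hS
  rw [tsum_eq_sum (s := S) fun z hz => indicator_of_notMem (fun h => hz ?_) _]
  · refine (Finset.sum_le_sum (g := fun _ => G y) fun z _ => indicator_le_self _ _ _).trans
      (le_of_eq ?_)
    have : ∀ a : ℤ, (a + 3 + 1 - (a - 3)).toNat = 7 := fun a => by omega
    simp [hS, this]
  · rw [mem_closedBall, dist_pi_le_iff (by positivity)] at h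
    refine Fintype.mem_piFinset.2 fun j => ?_
    have h1 := abs_le.1 (h j)
    have h2 : y j / δ ≤ z j + 3 := by rw [div_le_iff₀ hδ]; linarith [h1.2]
    have h3 : (z j : ℝ) - 3 ≤ y j / δ := by rw [le_div_iff₀ hδ]; linarith [h1.1]
    have h4 : ⌊y j / δ⌋ ≤ z j + 3 := by
      have := Int.floor_mono h2
      rwa [show (z j + 3 : ℝ) = ((z j + 3 : ℤ) : ℝ) by push_cast; rfl, Int.floor_intCast] at this
    have h5 : z j - 3 ≤ ⌊y j / δ⌋ := Int.le_floor.2 (by push_cast; exact h3)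
    exact Finset.mem_Icc.2 ⟨by omega, by omega⟩

theorem lintegral_smooth {δ : ℝ} (hδ : 0 < δ) {g : ℝ × (Fin m → ℝ) → ℝ≥0∞} (hg : Measurable g)
    {p : ℝ} (hp : 1 < p) : ∫⁻ q, smooth δ g q ^ p ∂(volume.prod Measure.count)
      ≤ ENNReal.ofReal ((6 * δ) ^ m) ^ (p - 1) * 7 ^ m * ∫⁻ q, g q ^ p ∂(volume.prod volume) := by
  rw [lintegral_prod _ ((measurable_smooth δ hg).pow_const p).aemeasurable,
    lintegral_prod _ (hg.pow_const p).aemeasurable,
    ← lintegral_const_mul _ (hg.pow_const p).lintegral_prod_right']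
  refine lintegral_mono fun t => ?_
  have hgt : Measurable fun y => g (t, y) := hg.comp measurable_prodMk_left
  rw [lintegral_count, mul_assoc]
  refine le_trans ?_ (mul_le_mul_right (sum_cells hδ (hgt.pow_const p)) _)
  rw [← ENNReal.tsum_mul_left]
  refine ENNReal.tsum_le_tsum fun z => (holder_one _ hgt hp).trans (le_of_eq ?_)
  rw [Measure.restrict_apply_univ, Real.volume_pi_closedBall _ (by positivity), Fintype.card_fin,
    show 2 * (3 * δ) = 6 * δ by ring]

theorem tube_le_smooth {i : Fin (m + 1)} {e a : EuclideanSpace ℝ (Fin (m + 1))} {δ : ℝ}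
    (hδ0 : 0 < δ) (hδ : δ < 1) (he : ‖e‖ = 1) (hi : ∀ k, |e k| ≤ |e i|)
    {g : ℝ × (Fin m → ℝ) → ℝ≥0∞} (hg : Measurable g) :
    ∫⁻ y in tube e a δ, g (spl i y) ≤ ∫⁻ t in Icc (a i - 3 / 2) (a i + 3 / 2),
      smooth δ g (t, fl (δ⁻¹ • icpt i e a + t • δ⁻¹ • slope i e)) := by
  refine (lintegral_mono_set (tube_sub hδ he hi)).trans ?_
  rw [(spl_mp i).setLIntegral_comp_preimage (measurableSet_sbox _ _ _ _ _) hg,
    lintegral_sbox _ _ _ _ _ hg]
  refine lintegral_mono fun t => lintegral_mono_set (closedBall_subset_closedBall' ?_)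
  rw [smul_comm t, ← smul_add]
  linarith [dist_fl hδ0 (icpt i e a + t • slope i e)]

end Pool.Agent.MP_5168f5_an.H95
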