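import Pool.Agent.MP_5168f5_an.H95.Step

/-!
The iteration of the corner step down to the exponent of Katz and Tao.
-/

open MeasureTheory Set Classical Real
open scoped ENNReal

namespace Pool.Agent.MP_5168f5_an.H95

/-- Heights for the exponent `β` in sets that are big in three separated blocks. -/
def TIn (β C σ K : ℝ) (M : ℕ) : Prop :=
  ∀ (τ : Type) (F : Finset τ) (Y : τ → Set ℝ) (l : ℝ) (J₀ J₁ J₂ : Set ℝ),
    Blk σ J₀ J₁ → Blk σ J₁ J₂ → Blk σ J₂ J₀ → F.Nonempty → 0 ≤ l →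
    (∀ T ∈ F, Big l J₀ J₁ J₂ (Y T)) →
    ∃ R, R.card ≤ M ∧ SD R β (49 / 50 * l + K) ∧ Found F Y (C * l + K) R

/-- The two-ends form of the statement for the exponent `β`. -/
def TT (β : ℝ) : Prop :=
  ∃ C : ℝ, 0 ≤ C ∧ ∀ σ : ℝ, 0 < σ → σ ≤ 1 → ∃ (K : ℝ) (M : ℕ), 0 ≤ K ∧ TIn β C σ K M

theorem pick_point {τ : Type} (F : Finset τ) (hF : F.Nonempty) (Y : τ → Set ℝ) {J : Set ℝ} {l : ℝ}
    (hJ : MeasurableSet J) (hJ1 : J ⊆ Ico 0 1)
    (h : ∀ T ∈ F, MeasurableSet (Y T) ∧ ENNReal.ofReal (exp (-l)) ≤ volume (Y T ∩ J)) :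
    ∃ t ∈ J, ∃ F' ⊆ F, F'.Nonempty ∧ exp (-(l + 1)) * F.card ≤ F'.card ∧ ∀ T ∈ F', t ∈ Y T := by
  obtain ⟨t, F', s, f, g⟩ := exists_popular F (fun T => Y T ∩ J) (fun T hT => (h T hT).1.inter hJ)
    zero_lt_one (exp_pos (-l)) (fun T _ _ hx => Ico_subset_Icc_self (hJ1 hx.2))
    fun T hT => (h T hT).2
  have hF' := nonempty_of_frac (by positivity) hF f
  refine ⟨t, (g _ hF'.choose_spec).2, F', s, hF', le_trans ?_ f, fun T hT => (g T hT).1⟩
  gcongr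
  rw [neg_add, exp_add, exp_neg 1, ← div_eq_mul_inv]
  gcongr
  linarith [add_one_le_exp (1 : ℝ)]

theorem TT_two : TT 2 := by
  refine ⟨2, by norm_num, fun σ hσ _ => ?_⟩
  have h00 : 0 ≤ 2 / σ := by positivity
  have h0 : 0 ≤ log (2 * (2 / σ) + 2) := log_nonneg (by linarith)
  refine ⟨log (2 * (2 / σ) + 2) + 2, 2, by positivity,
    fun τ F Y l J₀ J₁ J₂ B₀ B₁ _ hF hl hY => ?_⟩
  obtain ⟨r, hr, F₁, s₁, n₁, f₁, g₁⟩ := pick_point F hF Y B₀.1 B₀.2.1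
    fun T hT => ⟨(hY T hT).1, (hY T hT).2.1⟩
  obtain ⟨s, hs, F₂, s₂, -, f₂, g₂⟩ := pick_point F₁ n₁ Y B₁.1 B₁.2.1
    fun T hT => ⟨(hY T (s₁ hT)).1, (hY T (s₁ hT)).2.2.1⟩
  refine ⟨{r, s}, Finset.card_le_two, (SD_two hσ (B₀.2.2 r hr s hs)).mono two_pos subset_rfl le_rfl
    (by linarith), F₂, s₂.trans s₁, exp_frac_mono (exp_frac f₁ f₂) (by linarith), fun T hT => ?_⟩
  simp [insert_subset_iff, g₁ T (s₂ hT), g₂ T hT]

theorem TT.mono {β β' : ℝ} (h : TT β) (hβ : 0 < β) (h' : β ≤ β') : TT β' := by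
  obtain ⟨C, hC, h⟩ := h
  refine ⟨C, hC, fun σ hσ hσ1 => ?_⟩
  obtain ⟨K, M, hK, h⟩ := h σ hσ hσ1
  refine ⟨K, M, hK, fun τ F Y l J₀ J₁ J₂ B₀ B₁ B₂ hF hl hY => ?_⟩
  obtain ⟨R, h1, h2, h3⟩ := h τ F Y l J₀ J₁ J₂ B₀ B₁ B₂ hF hl hY
  exact ⟨R, h1, h2.mono hβ subset_rfl h' le_rfl, h3⟩

theorem UT.toTT {X z : ℝ} (h : UT X z) (hX : 1 ≤ X) : TT (z / X) := by
  obtain ⟨C, hC, h⟩ := h
  refine ⟨C + 2, by positivity, fun σ hσ hσ1 => ?_⟩
  obtain ⟨K, M, hK, h⟩ := h σ hσ hσ1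
  refine ⟨K + 2, M, by positivity, fun τ F Y l J₀ J₁ J₂ B₀ B₁ B₂ hF hl hY => ?_⟩
  obtain ⟨b, hb, F₁, s₁, n₁, f₁, g₁⟩ := pick_point F hF Y B₀.1 B₀.2.1
    fun T hT => ⟨(hY T hT).1, (hY T hT).2.1⟩
  obtain ⟨a, ha, F₂, s₂, n₂, f₂, g₂⟩ := pick_point F₁ n₁ Y B₁.1 B₁.2.1
    fun T hT => ⟨(hY T (s₁ hT)).1, (hY T (s₁ hT)).2.2.1⟩
  obtain ⟨R, h1, h2, F₃, s₃, f₃, g₃⟩ := h τ F₂ Y l J₀ J₁ J₂ b a a B₀ B₁ B₂ n₂ hl hb ha ha
    fun T hT => ⟨hY T (s₁ (s₂ hT)), g₁ T (s₂ hT), g₂ T hT, g₂ T hT⟩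
  have hX0 : 0 < X := by linarith
  refine ⟨R, h1, (h2.mono (L' := (49 / 50 * l + (K + 2)) * X) (by nlinarith)).toSD hX0 |>
    fun h => by rwa [mul_div_cancel_right₀ _ hX0.ne'] at h, F₃, s₃.trans (s₂.trans s₁),
    exp_frac_mono (exp_frac (exp_frac f₁ f₂) f₃) (by linarith), g₃⟩

theorem measurable_zoom (N : ℕ) (k : ℤ) {Y : Set ℝ} (hY : MeasurableSet Y) :
    MeasurableSet (zoom N k Y) :=
  (by fun_prop : Measurable fun t : ℝ => (k : ℝ) / N + t / N) hY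

theorem TIn.zoomed {β C K : ℝ} {M M' : ℕ} (h : TIn β C (M : ℝ)⁻¹ K M') {τ : Type} (F : Finset τ)
    (hF : F.Nonempty) (Y : τ → Set ℝ) {N : ℕ} (hN : 0 < N) (k : ℤ) {i : ℕ × ℕ × ℕ}
    (h1 : i.1 + 2 ≤ i.2.1) (h2 : i.2.1 + 2 ≤ i.2.2) (h3 : i.2.2 < M) {l : ℝ} (hl : 0 ≤ l)
    (hY : ∀ T ∈ F, MeasurableSet (Y T) ∧ ∀ j ∈ ({i.1, i.2.1, i.2.2} : Set ℕ),
      ENNReal.ofReal (exp (-l)) ≤ volume (zoom N k (Y T) ∩ blk M j)) :
    ∃ R, R.card ≤ M' ∧ SD R β (49 / 50 * l + K + log (N + 1)) ∧ Found F Y (C * l + K) R := by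
  have hM : 0 < M := by omega
  obtain ⟨R, c, d, F', s, f, g⟩ := h τ F (fun T => zoom N k (Y T)) l (blk M i.1) (blk M i.2.1)
    (blk M i.2.2) ⟨measurableSet_Ico, blk_sub (by omega), fun x hx y hy => blk_sep hM h1 hx hy⟩
    ⟨measurableSet_Ico, blk_sub (by omega), fun x hx y hy => blk_sep hM h2 hx hy⟩
    ⟨measurableSet_Ico, blk_sub h3, fun x hx y hy =>
      abs_sub_comm y x ▸ blk_sep hM (by omega) hy hx⟩ hF hl fun T hT =>
    ⟨measurable_zoom N k (hY T hT).1, (hY T hT).2 _ (by simp), (hY T hT).2 _ (by simp),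
      (hY T hT).2 _ (by simp)⟩
  refine ⟨_, Finset.card_image_le.trans c, d.rescale (k / N) hN, F', s, f, fun T hT t ht => ?_⟩
  obtain ⟨r, hr, rfl⟩ := Finset.mem_image.1 ht
  exact g T hT hr

theorem TT.toSS {β : ℝ} (h : TT β) (hβ : 0 < β) : SS β := by
  obtain ⟨C, hC, h⟩ := h
  obtain ⟨K, M', hK, h⟩ := h ((10 ^ 20 : ℕ) : ℝ)⁻¹ (by positivity) (by norm_num)
  set a := log 10 with ha
  have ha1 : 1 ≤ a := by
    rw [ha, le_log_iff_exp_le (by norm_num)]; linarith [exp_one_lt_d9]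
  have e10 : exp a = 10 := exp_log (by norm_num)
  refine ⟨C + 2, K + (C + 100) * (21 * a), M', by positivity, by positivity,
    fun τ F Y l hF hl hY => ?_⟩
  have := fun T hT => localize (M := 10 ^ 20) (by norm_num) (Y := Y T) (exp_pos (-l)) (k₀ := 0)
    ((hY T hT).2.2.trans (measure_mono fun t ht => ⟨by simpa [zoom] using ht, (hY T hT).2.1 ht⟩))
  choose! j k i g0 g1 g2 g3 g4 using this
  obtain ⟨j₀, F₁, s₁, f₁, e₁⟩ := pigeon_nat F j
  obtain ⟨⟨k₀, i₀⟩, F₂, s₂, f₂, e₂⟩ := pigeon F₁ (fun T => (k T, i T))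
    (Finset.Ico (0 : ℤ) ((10 ^ 20) ^ j₀ : ℕ) ×ˢ Finset.range (10 ^ 20) ×ˢ Finset.range (10 ^ 20)
      ×ˢ Finset.range (10 ^ 20)) ⟨(0, 0, 0, 0), by simp⟩ fun T hT => by
      have hT' := s₁ hT
      have k1 := g1 T hT'
      have k2 := g2 T hT'
      have k3 := g3 T hT'
      obtain ⟨t, ht1, ht2⟩ := nonempty_of_measure_ne_zero
        ((ENNReal.ofReal_pos.2 (by positivity)).trans_le (g4 T hT' _ (Or.inl rfl))).ne'
      have k4 := blk_sub (by omega) ht2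
      have k5 := (hY T hT').2.1 ht1
      rw [e₁ T hT, ← add_div, mem_Ico, div_lt_one (by positivity),
        le_div_iff₀ (by positivity)] at k5
      simp only [Finset.mem_product, Finset.mem_Ico, Finset.mem_range]
      refine ⟨⟨?_, ?_⟩, by omega, by omega, k3⟩
      · have : (-1 : ℝ) < k T := by linarith [k5.1, k4.2]
        have : (-1 : ℤ) < k T := by exact_mod_cast this
        omega
      · have : (k T : ℝ) < ((10 ^ 20) ^ j₀ : ℕ) := by linarith [k5.2, k4.1]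
        exact_mod_cast this
  have n₁ := nonempty_of_frac (by positivity) hF f₁
  have n₂ := nonempty_of_frac (by simp) n₁ f₂
  obtain ⟨T₀, hT₀⟩ := id n₂
  have e19 : (((10 ^ 20 : ℕ) : ℝ) / 10) ^ j₀ = exp (j₀ * (19 * a)) := by
    rw [exp_nat_mul, show 19 * a = (19 : ℕ) * a by norm_num, exp_nat_mul, e10]; norm_num
  have e20 : ((10 ^ 20 : ℕ) : ℝ) = exp (20 * a) := by
    rw [show 20 * a = (20 : ℕ) * a by norm_num, exp_nat_mul, e10]; norm_num
  have hj : j₀ * (19 * a) ≤ l := by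
    have := g0 T₀ (s₁ (s₂ hT₀))
    rw [e₁ T₀ (s₂ hT₀), e19, ← exp_add, exp_le_one_iff] at this
    linarith
  have hi : i T₀ = i₀ := (Prod.ext_iff.1 (e₂ T₀ hT₀)).2
  obtain ⟨R, c, d, F₃, s₃, f₃, g₃⟩ := h.zoomed F₂ n₂ Y (N := (10 ^ 20) ^ j₀) (by positivity) k₀
    (i := i₀) (hi ▸ g1 T₀ (s₁ (s₂ hT₀))) (hi ▸ g2 T₀ (s₁ (s₂ hT₀))) (hi ▸ g3 T₀ (s₁ (s₂ hT₀)))
    (l := l - j₀ * (19 * a) + 21 * a) (by linarith) fun T hT => by
      refine ⟨(hY T (s₁ (s₂ hT))).1, fun y hy => ?_⟩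
      have k1 := g4 T (s₁ (s₂ hT))
      have k2 := Prod.ext_iff.1 (e₂ T hT)
      simp only at k2
      rw [e₁ T (s₂ hT), k2.1, k2.2] at k1
      refine le_trans (ENNReal.ofReal_le_ofReal ?_) (k1 y hy)
      rw [e19, e20, le_div_iff₀ (by positivity), ← exp_add]
      calc _ ≤ exp (-(l - j₀ * (19 * a) + 21 * a)) * (exp a * exp (20 * a)) := by
            gcongr; rw [e10]; norm_num
        _ = _ := by rw [← exp_add, ← exp_add]; congr 1; ring
  have hj0 : (0 : ℝ) ≤ j₀ := Nat.cast_nonneg _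
  refine ⟨R, c, d.mono hβ subset_rfl le_rfl ?_, F₃, s₃.trans (s₂.trans s₁), ?_, g₃⟩
  · have k1 : log (((10 ^ 20) ^ j₀ : ℕ) + 1) ≤ j₀ * (20 * a) + a := by
      rw [log_le_iff_le_exp (by positivity), exp_add, Nat.cast_pow, e20, ← exp_nat_mul, e10]
      have := one_le_exp (show 0 ≤ j₀ * (20 * a) by positivity)
      linarith
    refine (add_le_add le_rfl k1).trans ?_
    have k2 := mul_nonneg hC (zero_le_one.trans ha1)
    clear_value a
    nlinarith [k2, hj, ha1]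
  · have k1 : exp (-((j₀ + 1) * a)) * F.card ≤ F₁.card := by
      refine le_trans ?_ f₁
      gcongr
      rw [← mul_neg, show (j₀ + 1 : ℝ) = (j₀ + 1 : ℕ) by norm_num, exp_nat_mul, exp_neg, e10]
      gcongr
      norm_num
    have k2 : exp (-((j₀ + 3) * (20 * a))) * F₁.card ≤ F₂.card := by
      refine le_trans (le_of_eq ?_) f₂
      rw [exp_neg, show (j₀ + 3 : ℝ) = (j₀ + 3 : ℕ) by norm_num, exp_nat_mul, ← e20]
      simp only [Finset.card_product, Int.card_Ico, sub_zero, Int.toNat_natCast, Finset.card_range]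
      push_cast
      ring
    refine exp_frac_mono (exp_frac (exp_frac k1 k2) f₃) ?_
    have := mul_nonneg hC (show 0 ≤ j₀ * (19 * a) by positivity)
    nlinarith

theorem TT.step {β β' : ℝ} (h : TT β) (h1 : 1.67 ≤ β)
    (h3 : 3 * β ^ 2 + 2 * β - 2 < β' * (β ^ 2 + 3 * β - 2)) : TT β' := by
  have hS := h.toSS (by linarith)
  have hD : 0 < β - 1 := by linarith
  set η := (β' * (β ^ 2 + 3 * β - 2) - (3 * β ^ 2 + 2 * β - 2)) / (β - 1) ^ 2 with hη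
  have hη0 : 0 < η := div_pos (sub_pos.2 h3) (by positivity)
  have key : ∀ j : ℕ, ∃ X z, UT X z ∧ j ≤ X ∧ 0 < z ∧ z - β' * X ≤ 2 - j * η := by
    intro j
    induction j with
    | zero => exact ⟨0, 2, UT_zero, by simp, by simp, by simp⟩
    | succ j ih =>
      obtain ⟨X, z, k1, k2, k3, k4⟩ := ih
      have hj : (0 : ℝ) ≤ j := Nat.cast_nonneg _
      have hX : 0 ≤ X := hj.trans k2
      have hq : 1 ≤ β ^ 2 / (β - 1) ^ 2 := (one_le_div (by positivity)).2 (by nlinarith)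
      refine ⟨_, _, UT_step (by linarith) (by nlinarith) hS k1, ?_, ?_, ?_⟩
      · have e : (β + 2 + (2 * β + β ^ 2 * X) / (β - 1)) / (β - 1)
            = (β ^ 2 + 3 * β - 2) / (β - 1) ^ 2 + β ^ 2 / (β - 1) ^ 2 * X := by field_simp; ring
        have : 1 ≤ (β ^ 2 + 3 * β - 2) / (β - 1) ^ 2 :=
          (one_le_div (by positivity)).2 (by nlinarith)
        rw [e]; push_cast; nlinarith
      · have : 0 < β := by linarith
        positivity
      · have e : (3 * β + (β + β ^ 2 * z) / (β - 1)) / (β - 1)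
            - β' * ((β + 2 + (2 * β + β ^ 2 * X) / (β - 1)) / (β - 1))
            = 2 - η + β ^ 2 / (β - 1) ^ 2 * (z - β' * X - 2) := by
          rw [hη]; field_simp; ring
        have : 0 ≤ j * η := by positivity
        rw [e]; push_cast; nlinarith
  obtain ⟨j, hj⟩ := exists_nat_ge (2 / η + 1)
  obtain ⟨X, z, k1, k2, k3, k4⟩ := key j
  have : 0 < 2 / η := by positivity
  have hX : 1 ≤ X := by linarith
  refine (k1.toTT hX).mono (by positivity) ?_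
  rw [div_le_iff₀ (by linarith)]
  have : 2 ≤ j * η := by rw [← div_le_iff₀ hη0]; linarith
  linarith

theorem TT_all {β : ℝ} (h1 : 1 < β) (h2 : 0 < β ^ 3 - 4 * β + 2) : TT β := by
  rcases le_total 2 β with h | h
  · exact TT_two.mono two_pos h
  have h3 : 1.67 ≤ β := by
    by_contra hc
    push Not at hc
    nlinarith [mul_pos (sub_pos.2 h1) (sub_pos.2 hc)]
  set η := (β ^ 3 - 4 * β + 2) / 16 with hη
  have hη0 : 0 < η := by positivity
  have key : ∀ k : ℕ, TT (max β (2 - k * η)) := by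
    intro k
    induction k with
    | zero => simpa [max_eq_right h] using TT_two
    | succ k ih =>
      have hk : 0 ≤ k * η := by positivity
      set b := max β (2 - k * η) with hb
      have b1 : β ≤ b := le_max_left _ _
      have b2 : b ≤ 2 := max_le h (by linarith)
      have b3 : η ≤ 1 / 8 := by rw [hη]; nlinarith [mul_nonneg (sub_nonneg.2 h) (sub_nonneg.2 h3)]
      have b4 : 16 * η ≤ b ^ 3 - 4 * b + 2 := by
        rw [hη]
        nlinarith [mul_nonneg (sub_nonneg.2 b1) (show 0 ≤ b ^ 2 + b * β + β ^ 2 - 4 by nlinarith)]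
      refine (ih.step (β' := b - η) (h3.trans b1) ?_).mono (by linarith) ?_
      · nlinarith [mul_le_mul_of_nonneg_left (show b ^ 2 + 3 * b - 2 ≤ 8 by nlinarith) hη0.le]
      · rcases max_cases β (2 - k * η) with e | e
        · exact le_max_of_le_left (by linarith [e.1])
        · refine le_max_of_le_right ?_
          push_cast; linarith [e.1]
  obtain ⟨k, hk⟩ := exists_nat_ge (2 / η)
  have := key k
  rw [div_le_iff₀ hη0] at hk
  rwa [max_eq_left (by linarith)] at this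

end Pool.Agent.MP_5168f5_an.H95
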