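import Mathlib

/-!
From restricted weak type to strong type with a logarithmic loss, for a real exponent.
-/

open MeasureTheory Set Classical
open scoped ENNReal

namespace Pool.Agent.MP_5168f5_an.H95

theorem height_split (y a : ℝ≥0∞) (ha0 : a ≠ 0) (ha : a ≠ ∞) (M : ℕ) {p : ℝ} (hp : 1 ≤ p) :
    y ≤ a + ∑ k ∈ Finset.range M, (if 2 ^ k * a ≤ y then 2 ^ (k + 1) * a else 0)
      + (2 ^ M * a) ^ (1 - p) * y ^ p := by
  by_cases h1 : y < 2 ^ M * a
  · have hex : ∃ k, y < 2 ^ k * a := ⟨M, h1⟩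
    have hk := Nat.find_spec hex
    have hkM : Nat.find hex ≤ M := Nat.find_min' hex h1
    refine le_add_right ?_
    rcases hk0 : Nat.find hex with _ | k
    · rw [hk0] at hk
      simp only [pow_zero, one_mul] at hk
      exact le_add_right hk.le
    · have h2 : 2 ^ k * a ≤ y := not_lt.mp (Nat.find_min hex (by omega))
      rw [hk0] at hk
      refine le_add_left (le_trans ?_ (Finset.single_le_sum
        (f := fun k => if 2 ^ k * a ≤ y then 2 ^ (k + 1) * a else 0) (fun _ _ => zero_le)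
        (Finset.mem_range.2 (by omega : k < M))))
      simp only [h2, if_true]
      exact hk.le
  · refine le_add_left ?_
    have hb0 : 2 ^ M * a ≠ 0 := mul_ne_zero (pow_ne_zero _ two_ne_zero) ha0
    have hb : 2 ^ M * a ≠ ∞ := ENNReal.mul_ne_top (ENNReal.pow_ne_top ENNReal.ofNat_ne_top) ha
    generalize 2 ^ M * a = t at h1 hb0 hb
    have e : y ^ p = y ^ (p - 1) * y := by
      conv_lhs => rw [show p = p - 1 + 1 by ring]
      rw [ENNReal.rpow_add_of_nonneg _ _ (by linarith) zero_le_one, ENNReal.rpow_one]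
    calc y = t ^ (1 - p) * (t ^ (p - 1) * y) := by
          rw [← mul_assoc, ← ENNReal.rpow_add _ _ hb0 hb]; simp
      _ ≤ _ := by
          rw [e]
          gcongr
          exact not_lt.1 h1

theorem level_split (y : ℝ≥0∞) (hy : y ≤ 1) (k : ℕ) :
    y ≤ 2⁻¹ ^ k + ∑ i ∈ Finset.range (k + 1), (if 2⁻¹ ^ i < y then 2 * 2⁻¹ ^ i else 0) := by
  by_cases h1 : 2⁻¹ ^ k < y
  · have hex : ∃ i, (2⁻¹ : ℝ≥0∞) ^ i < y := ⟨k, h1⟩
    have hi := Nat.find_spec hex
    have hik : Nat.find hex ≤ k := Nat.find_min' hex h1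
    refine le_add_left (le_trans ?_ (Finset.single_le_sum
        (f := fun i => if (2⁻¹ : ℝ≥0∞) ^ i < y then 2 * 2⁻¹ ^ i else 0) (fun _ _ => zero_le)
        (Finset.mem_range.2 (by omega : Nat.find hex < k + 1))))
    simp only [hi, if_true]
    rcases hi0 : Nat.find hex with _ | i
    · simp only [pow_zero, mul_one]
      exact hy.trans one_le_two
    · have h2 : y ≤ 2⁻¹ ^ i := not_lt.mp (Nat.find_min hex (by omega))
      rw [pow_succ', ← mul_assoc, ENNReal.mul_inv_cancel two_ne_zero ENNReal.ofNat_ne_top, one_mul]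
      exact h2
  · exact le_add_right (not_lt.mp h1)

theorem two_pow_cancel (k : ℕ) : (2 : ℝ≥0∞) ^ k * 2⁻¹ ^ k = 1 := by
  rw [← mul_pow, ENNReal.mul_inv_cancel two_ne_zero ENNReal.ofNat_ne_top, one_pow]

theorem levels {X Y A : Type*} [MeasurableSpace X] [MeasurableSpace Y] (μ : Measure X)
    (ν : Measure Y) (ρ : A → Y → Measure X) (hprob : ∀ a v, ρ a v univ ≤ 1)
    (hρ : ∀ a v, ρ a v ≤ μ) {p : ℝ} (hp : 2 ≤ p) {N : ℕ} (hN : N ≠ 0) {K : ℝ≥0∞} (hK : K ≠ 0)
    {h : X → ℝ≥0∞} (hh : Measurable h)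
    (hW : ∀ E, MeasurableSet E → ∀ i ≤ 2 * N,
      ν {v | ∃ a, 2⁻¹ ^ i < ρ a v E} ≤ (K * 2 ^ i) ^ p * μ E) :
    ∃ G : Y → ℝ≥0∞, Measurable G ∧ (∀ a v, ∫⁻ x, h x ∂ρ a v ≤ G v) ∧
      eLpNorm G (ENNReal.ofReal p) ν ≤ ((2 * N + 2) * 2⁻¹ ^ N * ν univ ^ (1 / p)
        + 2 * N * (2 * N + 1) * (4 * K)) * (∫⁻ x, h x ^ p ∂μ) ^ (1 / p) := by
  have hp0 : 0 < p := by linarith
  have hp' : ENNReal.ofReal p ≠ 0 := (ENNReal.ofReal_pos.2 hp0).ne'
  have hp1 : 1 ≤ ENNReal.ofReal p := ENNReal.one_le_ofReal.2 (by linarith)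
  set s := (∫⁻ x, h x ^ p ∂μ) ^ (1 / p) with hs
  have hsp : s ^ p = ∫⁻ x, h x ^ p ∂μ := by
    rw [hs, ← ENNReal.rpow_mul, one_div_mul_cancel hp0.ne', ENNReal.rpow_one]
  clear_value s
  by_cases hst : s = ∞
  · refine ⟨fun _ => ∞, measurable_const, fun _ _ => le_top, ?_⟩
    rw [hst, ENNReal.mul_top (by simp [hN, hK])]
    exact le_top
  by_cases hs0 : s = 0
  · refine ⟨fun _ => 0, measurable_const, fun a v => ?_, by simp⟩
    rw [hs0, ENNReal.zero_rpow_of_pos hp0] at hsp
    have h1 : ∀ᵐ x ∂μ, h x ^ p = 0 := (lintegral_eq_zero_iff (hh.pow_const p)).1 hsp.symm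
    refine le_of_eq ((lintegral_eq_zero_iff hh).2 ?_)
    filter_upwards [(Measure.absolutelyContinuous_of_le (hρ a v)).ae_le h1] with x hx
    simpa [hp0, hp0.not_gt] using hx
  set b : ℝ≥0∞ := 2⁻¹ ^ N * s with hb
  have hb0 : b ≠ 0 := mul_ne_zero (pow_ne_zero _ (by simp)) hs0
  have hbt : b ≠ ∞ := ENNReal.mul_ne_top (ENNReal.pow_ne_top (by simp)) hst
  set E : ℕ → Set X := fun k => {x | 2 ^ k * b ≤ h x} with hE
  have hEm : ∀ k, MeasurableSet (E k) := fun k => measurableSet_le measurable_const hh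
  set D : ℕ × ℕ → Set Y := fun q => toMeasurable ν {v | ∃ a, 2⁻¹ ^ q.2 < ρ a v (E q.1)} with hD
  have hDm : ∀ q, MeasurableSet (D q) := fun q => measurableSet_toMeasurable _ _
  set S : Finset (ℕ × ℕ) := Finset.range (2 * N) ×ˢ Finset.range (2 * N + 1) with hS
  set u : ℕ × ℕ → Y → ℝ≥0∞ := fun q =>
    (D q).indicator fun _ => 2 ^ (q.1 + 1) * b * (2 * 2⁻¹ ^ q.2) with hu
  have hum : ∀ q, Measurable (u q) := fun q => measurable_const.indicator (hDm q)
  have hsm : Measurable (∑ q ∈ S, u q) := Finset.measurable_sum _ (fun q _ => hum q) |> fun h => by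
    convert h using 1; funext v; exact Finset.sum_apply _ _ _
  refine ⟨(fun _ => (2 * N + 2) * b) + ∑ q ∈ S, u q, measurable_const.add hsm, fun a v => ?_, ?_⟩
  · have h1 : (2 ^ (2 * N) * b) ^ (1 - p) * ∫⁻ x, h x ^ p ∂ρ a v ≤ b := by
      have e1 : 2 ^ (2 * N) * b = 2 ^ N * s := by
        rw [hb, two_mul, pow_add, mul_assoc, ← mul_assoc (2 ^ N) (2⁻¹ ^ N), two_pow_cancel, one_mul]
      have e2 : ((2 : ℝ≥0∞) ^ N) ^ (1 - p) ≤ 2⁻¹ ^ N := by
        rw [← ENNReal.inv_pow, ← ENNReal.rpow_neg_one]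
        exact ENNReal.rpow_le_rpow_of_exponent_le (one_le_pow₀ one_le_two) (by linarith)
      calc _ ≤ (2 ^ N * s) ^ (1 - p) * s ^ p := by
            rw [e1, hsp]; gcongr; exact hρ a v
        _ = (2 ^ N) ^ (1 - p) * s := by
            rw [ENNReal.mul_rpow_of_ne_top (by simp) hst, mul_assoc, ← ENNReal.rpow_add _ _ hs0 hst]
            simp
        _ ≤ b := by rw [hb]; gcongr
    have h2 : ∀ k ∈ Finset.range (2 * N), 2 ^ (k + 1) * b * ρ a v (E k)
        ≤ b + ∑ i ∈ Finset.range (2 * N + 1), u (k, i) v := by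
      intro k hk
      refine (mul_le_mul_right (level_split _ ((measure_mono (subset_univ _)).trans (hprob a v))
        (2 * N)) _).trans ?_
      rw [mul_add, Finset.mul_sum]
      refine add_le_add ?_ (Finset.sum_le_sum fun i _ => ?_)
      · calc _ ≤ 2 ^ (2 * N) * b * 2⁻¹ ^ (2 * N) := by
              gcongr
              · exact one_le_two
              · exact Finset.mem_range.1 hk
          _ = b := by rw [mul_right_comm, two_pow_cancel, one_mul]
      · split_ifs with h3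
        · have h4 : v ∈ D (k, i) := subset_toMeasurable _ _ ⟨a, h3⟩
          simp only [hu, indicator_of_mem h4, le_refl]
        · simp
    calc ∫⁻ x, h x ∂ρ a v ≤ ∫⁻ x, (b + ∑ k ∈ Finset.range (2 * N),
          (E k).indicator (fun _ => 2 ^ (k + 1) * b) x
          + (2 ^ (2 * N) * b) ^ (1 - p) * h x ^ p) ∂ρ a v :=
          lintegral_mono fun x => (height_split (h x) b hb0 hbt (2 * N) (by linarith)).trans
            (le_of_eq (by simp only [hE, indicator_apply, mem_ofPred_eq]))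
      _ = b * ρ a v univ + ∑ k ∈ Finset.range (2 * N), 2 ^ (k + 1) * b * ρ a v (E k)
          + (2 ^ (2 * N) * b) ^ (1 - p) * ∫⁻ x, h x ^ p ∂ρ a v := by
          rw [lintegral_add_right _ ((hh.pow_const p).const_mul _),
            lintegral_add_left measurable_const, lintegral_const,
            lintegral_finsetSum _ fun k _ => measurable_const.indicator (hEm k),
            lintegral_const_mul _ (hh.pow_const p)]
          simp only [lintegral_indicator_const (hEm _)]
      _ ≤ b * 1 + ∑ k ∈ Finset.range (2 * N), (b + ∑ i ∈ Finset.range (2 * N + 1), u (k, i) v)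
          + b := add_le_add (add_le_add (mul_le_mul_right (hprob a v) _)
            (Finset.sum_le_sum h2)) h1
      _ = _ := by
          rw [Finset.sum_add_distrib, Pi.add_apply, Finset.sum_apply, hS, Finset.sum_product]
          simp only [Finset.sum_const, Finset.card_range, nsmul_eq_mul]
          push_cast
          ring
  · refine (eLpNorm_add_le measurable_const.aestronglyMeasurable hsm.aestronglyMeasurable
      hp1).trans ?_
    rw [add_mul _ _ s]
    refine add_le_add (le_of_eq ?_) ((eLpNorm_sum_le (fun q _ => (hum q).aestronglyMeasurable)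
      hp1).trans ((Finset.sum_le_sum (g := fun _ => 4 * K * s) fun q hq => ?_).trans
        (le_of_eq ?_)))
    · rw [eLpNorm_const' _ hp' ENNReal.ofReal_ne_top, ENNReal.toReal_ofReal hp0.le, enorm_eq_self,
        hb]
      ring
    · rw [hu, eLpNorm_indicator_const (hDm q) hp' ENNReal.ofReal_ne_top,
        ENNReal.toReal_ofReal hp0.le, enorm_eq_self, hD, measure_toMeasurable]
      have h1 := hW _ (hEm q.1) q.2
        (Nat.lt_succ_iff.1 (Finset.mem_range.1 (Finset.mem_product.1 hq).2))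
      have h2 : (2 ^ q.1 * b) ^ p * μ (E q.1) ≤ s ^ p := by
        rw [hsp]
        refine le_trans (mul_le_mul_right (measure_mono fun x hx => ?_) _)
          (mul_meas_ge_le_lintegral (hh.pow_const p) _)
        exact ENNReal.rpow_le_rpow hx hp0.le
      have e : ∀ x y : ℝ≥0∞, (x ^ p * y) ^ (1 / p) = x * y ^ (1 / p) := fun x y => by
        rw [ENNReal.mul_rpow_of_nonneg _ _ (by positivity), ← ENNReal.rpow_mul,
          mul_one_div_cancel hp0.ne', ENNReal.rpow_one]
      have h3 := ENNReal.rpow_le_rpow h1 (show 0 ≤ 1 / p by positivity)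
      have h4 := ENNReal.rpow_le_rpow h2 (show 0 ≤ 1 / p by positivity)
      rw [e] at h3 h4
      rw [← ENNReal.rpow_mul, mul_one_div_cancel hp0.ne', ENNReal.rpow_one] at h4
      calc _ ≤ 2 ^ (q.1 + 1) * b * (2 * 2⁻¹ ^ q.2) * (K * 2 ^ q.2 * μ (E q.1) ^ (1 / p)) := by
            gcongr
        _ = 4 * K * (2 ^ q.2 * 2⁻¹ ^ q.2) * (2 ^ q.1 * b * μ (E q.1) ^ (1 / p)) := by ring
        _ ≤ _ := by rw [two_pow_cancel, mul_one]; gcongr
    · simp only [hS, Finset.sum_const, Finset.card_product, Finset.card_range, nsmul_eq_mul]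
      push_cast
      ring

end Pool.Agent.MP_5168f5_an.H95
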