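import Pool.Agent.MP_5168f5_an.H95.Geo
import Pool.Agent.MP_5168f5_an.H95.Core
import Pool.Agent.MP_5168f5_an.H95.Levels

/-!
The maximal estimate.
-/

open MeasureTheory Set Classical Metric Real
open scoped ENNReal

namespace Pool.Agent.MP_5168f5_an.H95

variable {m : ℕ}

/-- The path of cells followed by the line through `a` with direction `e`. -/
noncomputable def path (δ : ℝ) (i : Fin (m + 1)) (e a : EuclideanSpace ℝ (Fin (m + 1))) (t : ℝ) :
    ℝ × (Fin m → ℤ) := (t, fl (δ⁻¹ • icpt i e a + t • δ⁻¹ • slope i e))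

theorem measurable_path (δ : ℝ) (i : Fin (m + 1)) (e a : EuclideanSpace ℝ (Fin (m + 1))) :
    Measurable (path δ i e a) :=
  measurable_id.prodMk (measurable_fl.comp (by fun_prop))

/-- Normalized time spent along the path, for directions whose `i`-th coordinate is largest. -/
noncomputable def rho (δ : ℝ) (i : Fin (m + 1)) (a : EuclideanSpace ℝ (Fin (m + 1)))
    (e : sphere (0 : EuclideanSpace ℝ (Fin (m + 1))) 1) : Measure (ℝ × (Fin m → ℤ)) :=
  if ∀ k, |e.1 k| ≤ |e.1 i| then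
    (3⁻¹ : ℝ≥0∞) • (volume.restrict (Icc (a i - 3 / 2) (a i + 3 / 2))).map (path δ i e.1 a)
  else 0

theorem rho_apply_le (δ : ℝ) (i : Fin (m + 1)) (a : EuclideanSpace ℝ (Fin (m + 1)))
    (e : sphere (0 : EuclideanSpace ℝ (Fin (m + 1))) 1) {E : Set (ℝ × (Fin m → ℤ))}
    (hE : MeasurableSet E) : rho δ i a e E
      ≤ 3⁻¹ * volume (path δ i e.1 a ⁻¹' E ∩ Icc (a i - 3 / 2) (a i + 3 / 2)) := by
  unfold rho
  split_ifs
  · rw [Measure.smul_apply, Measure.map_apply (measurable_path _ _ _ _) hE,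
      Measure.restrict_apply' measurableSet_Icc, smul_eq_mul]
  · simp

theorem rho_univ (δ : ℝ) (i : Fin (m + 1)) (a : EuclideanSpace ℝ (Fin (m + 1)))
    (e : sphere (0 : EuclideanSpace ℝ (Fin (m + 1))) 1) : rho δ i a e univ ≤ 1 := by
  refine (rho_apply_le δ i a e MeasurableSet.univ).trans (le_of_eq ?_)
  rw [preimage_univ, univ_inter, Real.volume_Icc, show a i + 3 / 2 - (a i - 3 / 2) = 3 by ring,
    ENNReal.ofReal_ofNat, ENNReal.inv_mul_cancel (by simp) (by simp)]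

theorem third_le (x : ℝ≥0∞) : 3⁻¹ * x ≤ x :=
  mul_le_of_le_one_left zero_le (ENNReal.inv_le_one.2 (by norm_num))

theorem rho_le (δ : ℝ) (i : Fin (m + 1)) (a : EuclideanSpace ℝ (Fin (m + 1)))
    (e : sphere (0 : EuclideanSpace ℝ (Fin (m + 1))) 1) :
    rho δ i a e ≤ volume.prod Measure.count := by
  refine Measure.le_iff.2 fun E hE => (rho_apply_le δ i a e hE).trans ((third_le _).trans
    ((measure_mono inter_subset_left).trans ?_))
  rw [Measure.prod_apply hE, ← lintegral_indicator_one (measurable_path δ i e.1 a hE)]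
  refine lintegral_mono fun t => indicator_apply_le' (fun ht => ?_) fun _ => zero_le
  exact (Measure.count_singleton (path δ i e.1 a t).2).ge.trans
    (measure_mono (singleton_subset_iff.2 ht))

theorem weak {β : ℝ} (hβ : 1 ≤ β) (hT : TT β) : ∃ m₀ : ℕ, ∀ m ≥ m₀, ∀ ε > 0, ∃ C > 0,
    ∀ δ : ℝ, 0 < δ → δ < 1 → ∀ (i : Fin (m + 1)) (E : Set (ℝ × (Fin m → ℤ))), MeasurableSet E →
    ∀ k : ℕ, (volume : Measure (EuclideanSpace ℝ (Fin (m + 1)))).toSphere
      {e | ∃ a, 2⁻¹ ^ k < rho δ i a e E}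
      ≤ ENNReal.ofReal (C * δ ^ (m / β) * (2 ^ k) ^ (1 + m / β + ε))
        * (volume.prod Measure.count) E := by
  obtain ⟨m₀, h⟩ := core hβ hT
  refine ⟨m₀, fun m hm ε hε => ?_⟩
  obtain ⟨c, hc, h⟩ := h m hm ε hε
  refine ⟨(m + 1) * 2 * 8 ^ m / c, by positivity, fun δ hδ hδ1 i E hE k => ?_⟩
  set W := {e | ∃ a, 2⁻¹ ^ k < rho δ i a e E} with hW
  have hcl : ∀ e ∈ W, ∀ j, |e.1 j| ≤ |e.1 i| := fun e ⟨a, ha⟩ => by
    by_contra hne
    simp [rho, hne] at ha
  set B : Finset (Fin m → ℤ) := Fintype.piFinset fun _ => Finset.Icc ⌊-δ⁻¹⌋ ⌊δ⁻¹⌋ with hB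
  set S := B.filter fun z => ∃ e ∈ W, fl (δ⁻¹ • slope i e.1) = z with hS
  have hδi : 1 < δ⁻¹ := (one_lt_inv₀ hδ).2 hδ1
  have hSc : (S.card : ℝ) ≤ (4 / δ) ^ m := by
    refine (Nat.cast_le.2 (Finset.card_filter_le _ _)).trans ?_
    rw [hB, Fintype.card_piFinset_const, Nat.cast_pow, Int.card_Icc]
    gcongr
    have h3 : (0 : ℤ) ≤ ⌊δ⁻¹⌋ + 1 - ⌊-δ⁻¹⌋ := by
      have := Int.floor_mono (show -δ⁻¹ ≤ δ⁻¹ by linarith)
      omega
    rw [← Int.cast_natCast, Int.toNat_of_nonneg h3, div_eq_mul_inv]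
    push_cast
    linarith [Int.floor_le δ⁻¹, Int.lt_floor_add_one (-δ⁻¹)]
  have h1 : W ⊆ ⋃ z ∈ S, {e | e.1 i ≠ 0 ∧ fl (δ⁻¹ • slope i e.1) = z} := fun e he => by
    refine mem_biUnion (Finset.mem_coe.2 (Finset.mem_filter.2 ⟨Fintype.mem_piFinset.2 fun j => ?_,
      e, he, rfl⟩)) ⟨coord_ne (norm_eq_of_mem_sphere e) (hcl e he), rfl⟩
    have := abs_le.1 (slope_le (hcl e he) j)
    exact Finset.mem_Icc.2 ⟨Int.floor_mono (by simp only [Pi.smul_apply, smul_eq_mul]; nlinarith),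
      Int.floor_mono (by simp only [Pi.smul_apply, smul_eq_mul]; nlinarith)⟩
  have h2 : ∀ z ∈ S, ∃ e a : EuclideanSpace ℝ (Fin (m + 1)), fl (δ⁻¹ • slope i e) = z ∧
      2⁻¹ ^ k ≤ volume (path δ i e a ⁻¹' E ∩ Icc (a i - 3 / 2) (a i + 3 / 2)) := fun z hz => by
    obtain ⟨e, ⟨a, ha⟩, he⟩ := (Finset.mem_filter.1 hz).2
    exact ⟨e, a, he, ha.le.trans ((rho_apply_le δ i a e hE).trans (third_le _))⟩
  choose! e a he ha using h2
  have h3 := h _ S (fun z => δ⁻¹ • icpt i (e z) (a z)) (fun z => δ⁻¹ • slope i (e z))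
    (fun z => a z i) E (k * log 2) hE (by positivity)
    (fun z hz z' hz' e' => (he z hz).symm.trans (e'.trans (he z' hz'))) fun z hz => by
      refine le_trans (le_of_eq ?_) (ha z hz)
      rw [← mul_neg, exp_nat_mul, exp_neg, exp_log two_pos, ENNReal.ofReal_pow (by norm_num),
        ENNReal.ofReal_inv_of_pos two_pos, ENNReal.ofReal_ofNat]
  rw [Measure.prod_apply hE]
  refine le_trans ?_ (mul_le_mul_right h3 _)
  refine (measure_mono h1).trans ((measure_biUnion_finset_le _ _).trans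
    ((Finset.sum_le_sum fun z _ => sphere_cell i hδ z).trans ?_))
  rw [← ENNReal.ofReal_sum_of_nonneg fun _ _ => by positivity, ← ENNReal.ofReal_mul (by positivity),
    Finset.sum_const, nsmul_eq_mul]
  refine ENNReal.ofReal_le_ofReal ?_
  have e1 : ((2 : ℝ) ^ k) ^ (1 + m / β + ε) * exp (-((1 + m / β + ε) * (k * log 2))) = 1 := by
    rw [rpow_def_of_pos (by positivity), ← exp_add, log_pow, exp_eq_one_iff]; ring
  have hb1 : β⁻¹ ≤ 1 := inv_le_one_of_one_le₀ hβ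
  have e2 : (S.card : ℝ) ≤ S.card ^ β⁻¹ * (4 ^ m * δ ^ (m / β) / δ ^ m) := by
    calc (S.card : ℝ) = S.card ^ β⁻¹ * S.card ^ (1 - β⁻¹) := by
          rw [← rpow_add' (Nat.cast_nonneg _) (by norm_num)]; simp
      _ ≤ S.card ^ β⁻¹ * ((4 / δ) ^ m) ^ (1 - β⁻¹) := by gcongr
      _ ≤ _ := by
          gcongr
          rw [rpow_sub (by positivity), rpow_one, div_pow, div_rpow (by positivity) (by positivity),
            ← rpow_natCast δ m, ← rpow_mul hδ.le, ← div_eq_mul_inv, div_div_eq_mul_div,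
            div_mul_eq_mul_div]
          exact div_le_self (by positivity) (one_le_rpow (one_le_pow₀ (by norm_num)) (by positivity))
  calc (S.card : ℝ) * ((m + 1) * (2 * (2 * δ) ^ m))
      ≤ S.card ^ β⁻¹ * (4 ^ m * δ ^ (m / β) / δ ^ m) * ((m + 1) * (2 * (2 * δ) ^ m)) := by gcongr
    _ = (m + 1) * 2 * 8 ^ m / c * δ ^ (m / β) * 1 * (c * S.card ^ β⁻¹) := by
        rw [show (8 : ℝ) = 4 * 2 by norm_num, mul_pow, mul_pow]; field_simp
    _ = _ := by
        linear_combination (-((m + 1) * 2 * 8 ^ m / c * δ ^ (m / β) * (c * S.card ^ β⁻¹))) * e1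

theorem exists_scale {δ : ℝ} (hδ : 0 < δ) (hδ1 : δ < 1) :
    ∃ N : ℕ, N ≠ 0 ∧ 1 / δ ≤ 2 ^ N ∧ (2 : ℝ) ^ N ≤ 2 / δ := by
  obtain ⟨n, h1, h2⟩ := exists_nat_pow_near (show 1 ≤ 1 / δ from (one_lt_one_div hδ hδ1).le)
    one_lt_two
  refine ⟨n + 1, by omega, h2.le, ?_⟩
  rw [pow_succ, show 2 / δ = 1 / δ * 2 by ring]
  linarith

theorem log_loss {δ ε : ℝ} (hδ : 0 < δ) (hε : 0 < ε) {N : ℕ} (h : (2 : ℝ) ^ N ≤ 2 / δ) :
    2 * N + 2 ≤ (4 / ε + 2) * 2 ^ ε * δ ^ (-ε) := by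
  have h1 : ((2 : ℝ) ^ N) ^ ε ≤ 2 ^ ε * δ ^ (-ε) := by
    rw [rpow_neg hδ.le, ← div_eq_mul_inv, ← div_rpow zero_le_two hδ.le]; gcongr
  have h2 : N * (ε / 2) + 1 ≤ ((2 : ℝ) ^ N) ^ ε := by
    rw [rpow_def_of_pos (by positivity), log_pow]
    refine le_trans ?_ (add_one_le_exp _)
    have := mul_le_mul_of_nonneg_left (show 1 / 2 ≤ log 2 by linarith [log_two_gt_d9])
      (show 0 ≤ N * ε by positivity)
    linarith
  have h3 : 0 ≤ N * (ε / 2) := by positivity
  have h4 : 2 * N + 2 ≤ (4 / ε + 2) * (N * (ε / 2) + 1) := by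
    have : 4 / ε * (N * (ε / 2)) = 2 * N := by field_simp; ring
    have : 0 ≤ 4 / ε := by positivity
    nlinarith
  rw [mul_assoc]
  exact h4.trans (mul_le_mul_of_nonneg_left (h2.trans h1) (by positivity))

theorem strong {β : ℝ} (hβ : 1 ≤ β) (hT : TT β) : ∃ m₀ : ℕ, ∀ m ≥ m₀, ∀ p ≥ 1 + m / β, ∀ ε > 0,
    ∃ C ≥ 0, ∀ δ : ℝ, 0 < δ → δ < 1 → ∀ (i : Fin (m + 1)) (h : ℝ × (Fin m → ℤ) → ℝ≥0∞),
    Measurable h → ∃ G : sphere (0 : EuclideanSpace ℝ (Fin (m + 1))) 1 → ℝ≥0∞, Measurable G ∧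
      (∀ a e, ∫⁻ q, h q ∂rho δ i a e ≤ G e) ∧ eLpNorm G (ENNReal.ofReal p) volume.toSphere
        ≤ ENNReal.ofReal (C * δ ^ (m / β / p - ε))
          * (∫⁻ q, h q ^ p ∂(volume.prod Measure.count)) ^ (1 / p) := by
  obtain ⟨m₀, hw⟩ := weak hβ hT
  refine ⟨max m₀ ⌈β⌉₊, fun m hm p hp ε hε => ?_⟩
  have hβ0 : 0 < β := by linarith
  have hm1 : 1 ≤ m / β := (one_le_div hβ0).2 (Nat.ceil_le.1 (le_of_max_le_right hm))
  have hp2 : 2 ≤ p := by linarith
  have hp0 : 0 < p := by linarith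
  set η := ε / 3 with hη
  have hη0 : 0 < η := by positivity
  obtain ⟨C, hC, hw⟩ := hw m (le_of_max_le_left hm) η hη0
  set b := ((volume : Measure (EuclideanSpace ℝ (Fin (m + 1)))).toSphere univ ^ (1 / p)).toReal
  have hb : (volume : Measure (EuclideanSpace ℝ (Fin (m + 1)))).toSphere univ ^ (1 / p)
      = ENNReal.ofReal b := (ENNReal.ofReal_toReal
    (ENNReal.rpow_ne_top_of_nonneg (by positivity) (measure_ne_top _ _))).symm
  have hb0 : 0 ≤ b := ENNReal.toReal_nonneg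
  set L := (4 / η + 2) * 2 ^ η with hL
  refine ⟨L * b + L ^ 2 * (4 * (C * 4 ^ η) ^ (1 / p)), by positivity, fun δ hδ hδ1 i h hh => ?_⟩
  obtain ⟨N, hN, hN1, hN2⟩ := exists_scale hδ hδ1
  set K := (C * 4 ^ η) ^ (1 / p) * δ ^ (m / β / p - η) with hK
  have hK0 : 0 < K := by positivity
  obtain ⟨G, g1, g2, g3⟩ := levels (volume.prod Measure.count) volume.toSphere (rho δ i)
    (rho_univ δ i) (rho_le δ i) hp2 hN (ENNReal.ofReal_pos.2 hK0).ne' hh fun E hE k hk => by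
      refine (hw δ hδ hδ1 i E hE k).trans (mul_le_mul_left ?_ _)
      rw [← ENNReal.ofReal_ofNat 2, ← ENNReal.ofReal_pow zero_le_two,
        ← ENNReal.ofReal_mul hK0.le, ENNReal.ofReal_rpow_of_pos (by positivity)]
      refine ENNReal.ofReal_le_ofReal ?_
      have k1 : (1 : ℝ) ≤ 2 ^ k := one_le_pow₀ one_le_two
      have k2 : ((2 : ℝ) ^ k) ^ η ≤ 4 ^ η * δ ^ (-(η * p)) := by
        have k3 : (2 : ℝ) ^ k ≤ 4 * δ ^ (-p) := by
          calc (2 : ℝ) ^ k ≤ (2 ^ N) ^ 2 := by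
                rw [← pow_mul]; exact pow_le_pow_right₀ one_le_two (by omega)
            _ ≤ (2 / δ) ^ 2 := by gcongr
            _ = 4 * δ ^ (-2 : ℝ) := by rw [rpow_neg hδ.le, rpow_two]; ring
            _ ≤ _ := by
                gcongr 4 * ?_
                exact rpow_le_rpow_of_exponent_ge hδ hδ1.le (by linarith)
        refine (rpow_le_rpow (by positivity) k3 hη0.le).trans (le_of_eq ?_)
        rw [mul_rpow (by norm_num) (by positivity), ← rpow_mul hδ.le]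
        congr 2; ring
      rw [mul_rpow hK0.le (by positivity), hK, mul_rpow (by positivity) (by positivity),
        ← rpow_mul (by positivity), one_div_mul_cancel hp0.ne', rpow_one, ← rpow_mul hδ.le,
        sub_mul, div_mul_cancel₀ _ hp0.ne', sub_eq_add_neg, rpow_add hδ,
        rpow_add (by positivity) (1 + m / β)]
      calc _ ≤ C * δ ^ (m / β) * ((2 ^ k) ^ p * (4 ^ η * δ ^ (-(η * p)))) := by gcongr
        _ = _ := by ring
  refine ⟨G, g1, g2, g3.trans (mul_le_mul_left ?_ _)⟩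
  have e : ((2 * N + 2) * 2⁻¹ ^ N * ENNReal.ofReal b + 2 * N * (2 * N + 1) * (4 * ENNReal.ofReal K))
      = ENNReal.ofReal ((2 * N + 2) * 2⁻¹ ^ N * b + 2 * N * (2 * N + 1) * (4 * K)) := by
    simp (disch := positivity) only [ENNReal.ofReal_add, ENNReal.ofReal_mul, ENNReal.ofReal_pow,
      ENNReal.ofReal_inv_of_pos, ENNReal.ofReal_ofNat, ENNReal.ofReal_natCast, ENNReal.ofReal_one]
  rw [hb, e]
  refine ENNReal.ofReal_le_ofReal ?_
  have k1 := log_loss hδ hη0 hN2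
  rw [← hL] at k1
  have k2 : (2⁻¹ : ℝ) ^ N ≤ δ ^ (m / β / p - 2 * η) := by
    calc (2⁻¹ : ℝ) ^ N ≤ δ ^ (1 : ℝ) := by
          rw [inv_pow, rpow_one, inv_le_comm₀ (by positivity) hδ, ← one_div]; exact hN1
      _ ≤ _ := rpow_le_rpow_of_exponent_ge hδ hδ1.le (by
          have : m / β / p ≤ 1 := (div_le_one hp0).2 (by linarith)
          linarith)
  have hN0 : (0 : ℝ) ≤ N := Nat.cast_nonneg _
  calc _ ≤ L * δ ^ (-η) * δ ^ (m / β / p - 2 * η) * b
        + L * δ ^ (-η) * (L * δ ^ (-η)) * (4 * K) := by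
        have k3 : 2 * N ≤ L * δ ^ (-η) := by linarith
        have k4 : 2 * N + 1 ≤ L * δ ^ (-η) := by linarith
        gcongr ?_ * ?_ * b + ?_ * ?_ * (4 * K)
    _ = _ := by
        have e1 : δ ^ (m / β / p - ε) = δ ^ (-η) * δ ^ (m / β / p - 2 * η) := by
          rw [← rpow_add hδ]; congr 1; rw [hη]; ring
        have e2 : δ ^ (m / β / p - 2 * η) = δ ^ (-η) * δ ^ (m / β / p - η) := by
          rw [← rpow_add hδ]; congr 1; ring
        rw [e1, hK, e2]; ring

theorem kakeya_bound {β : ℝ} (h1 : 1 < β) (h2 : 0 < β ^ 3 - 4 * β + 2) :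
    ∃ n₀ : ℕ, ∀ n ≥ n₀, ∀ p : ℝ, 1 + (n - 1) / β ≤ p → ∀ ε : ℝ, 0 < ε → ∃ C : ℝ,
      ∀ f : EuclideanSpace ℝ (Fin n) → ℝ, AEMeasurable f volume → ∀ δ : ℝ, 0 < δ → δ < 1 →
      ∃ G : sphere (0 : EuclideanSpace ℝ (Fin n)) 1 → ℝ≥0∞, Measurable G ∧
        (∀ e, kakeyaMax δ f e ≤ G e) ∧ eLpNorm G (ENNReal.ofReal p) volume.toSphere
          ≤ ENNReal.ofReal (C * δ ^ (-((n - (1 + (n - 1) / β)) / p) - ε))
            * eLpNorm f (ENNReal.ofReal p) volume := by
  obtain ⟨m₀, hs⟩ := strong h1.le (TT_all h1 h2)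
  refine ⟨m₀ + 2, fun n hn p hp ε hε => ?_⟩
  obtain ⟨m, rfl⟩ : ∃ m, n = m + 1 := ⟨n - 1, by omega⟩
  simp only [Nat.cast_succ, add_sub_cancel_right] at hp ⊢
  obtain ⟨C, hC, hs⟩ := hs m (by omega) p hp ε hε
  have hp1 : 1 < p := by
    have : (0 : ℝ) < m := by exact_mod_cast (show 0 < m by omega)
    have : 0 < m / β := by positivity
    linarith
  have hp0 : 0 < p := by linarith
  have hp' : ENNReal.ofReal p ≠ 0 := (ENNReal.ofReal_pos.2 hp0).ne'
  refine ⟨(m + 1) * (3 * (2 * (m + 1)) ^ (m + 1) * (C * (6 ^ m * 7 ^ m))), fun f hf δ hδ hδ1 => ?_⟩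
  set g : Fin (m + 1) → ℝ × (Fin m → ℝ) → ℝ≥0∞ := fun i q => ‖hf.mk f ((spl i).symm q)‖ₑ with hg
  have hgm : ∀ i, Measurable (g i) := fun i =>
    (hf.measurable_mk.comp (spl i).symm.measurable).enorm
  choose G g1 g2 g3 using fun i => hs δ hδ hδ1 i _ (measurable_smooth δ (hgm i))
  set c : ℝ := 3 * (2 * (m + 1)) ^ (m + 1) / δ ^ m with hc
  have hGm : ∀ i, Measurable fun e => ENNReal.ofReal c * G i e := fun i => (g1 i).const_mul _
  refine ⟨∑ i, fun e => ENNReal.ofReal c * G i e, ?_, fun e => iSup_le fun a => ?_, ?_⟩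
  · convert Finset.measurable_sum Finset.univ fun i _ => hGm i using 1
    funext e; exact Finset.sum_apply _ _ _
  · obtain ⟨i, -, hi⟩ := Finset.univ.exists_max_image (fun k => |e.1 k|) Finset.univ_nonempty
    have hi' : ∀ k, |e.1 k| ≤ |e.1 i| := fun k => hi k (by simp)
    have he := norm_eq_of_mem_sphere e
    rw [Finset.sum_apply]
    refine le_trans ?_ (Finset.single_le_sum (f := fun i => ENNReal.ofReal c * G i e)
      (fun _ _ => zero_le) (Finset.mem_univ i))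
    have k1 : ∫⁻ y in tube e.1 a δ, ‖f y‖ₑ = ∫⁻ y in tube e.1 a δ, g i (spl i y) :=
      lintegral_congr_ae (ae_restrict_of_ae (hf.ae_eq_mk.mono fun y hy => by simp [hg, hy]))
    have k2 := g2 i a e
    rw [rho, if_pos hi', lintegral_smul_measure,
      lintegral_map (measurable_smooth δ (hgm i)) (measurable_path _ _ _ _), smul_eq_mul] at k2
    have k3 := (tube_le_smooth (a := a) hδ hδ1 he hi' (hgm i)).trans
      ((ENNReal.inv_mul_le_iff (by simp) (by simp)).1 k2)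
    refine ENNReal.div_le_of_le_mul (k1 ▸ k3.trans ?_)
    refine le_trans (le_of_eq ?_) (mul_le_mul_right (volume_tube_ge hδ hδ1 he) _)
    rw [mul_right_comm, ← ENNReal.ofReal_mul (by positivity), ← ENNReal.ofReal_ofNat 3]
    congr 2
    rw [hc]; field_simp
  · refine (eLpNorm_sum_le (fun i _ => (hGm i).aestronglyMeasurable)
      (ENNReal.one_le_ofReal.2 hp1.le)).trans ((Finset.sum_le_sum (g := fun _ =>
        ENNReal.ofReal (c * (C * δ ^ (m / β / p - ε) * (6 ^ m * δ ^ (m - m / p) * 7 ^ m)))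
          * eLpNorm f (ENNReal.ofReal p) volume) fun i _ => ?_).trans (le_of_eq ?_))
    · have k1 : eLpNorm (fun e => ENNReal.ofReal c * G i e) (ENNReal.ofReal p) volume.toSphere
          = ENNReal.ofReal c * eLpNorm (G i) (ENNReal.ofReal p) volume.toSphere := by
        simp only [eLpNorm_eq_lintegral_rpow_enorm_toReal hp' ENNReal.ofReal_ne_top,
          ENNReal.toReal_ofReal hp0.le, enorm_eq_self, ENNReal.mul_rpow_of_nonneg _ _ hp0.le]
        rw [lintegral_const_mul _ ((g1 i).pow_const p),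
          ENNReal.mul_rpow_of_nonneg _ _ (by positivity), ← ENNReal.rpow_mul,
          mul_one_div_cancel hp0.ne', ENNReal.rpow_one]
      have k2 : (∫⁻ q, g i q ^ p ∂(volume.prod volume)) ^ (1 / p)
          = eLpNorm f (ENNReal.ofReal p) volume := by
        rw [eLpNorm_congr_ae hf.ae_eq_mk,
          eLpNorm_eq_lintegral_rpow_enorm_toReal hp' ENNReal.ofReal_ne_top,
          ENNReal.toReal_ofReal hp0.le, ← (spl_mp i).lintegral_comp ((hgm i).pow_const p)]
        simp [hg]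
      have k3 := ENNReal.rpow_le_rpow (lintegral_smooth hδ (hgm i) hp1)
        (show 0 ≤ 1 / p by positivity)
      rw [ENNReal.mul_rpow_of_nonneg _ _ (by positivity), k2] at k3
      rw [k1, ENNReal.ofReal_mul (by positivity), ENNReal.ofReal_mul (p := C * _) (by positivity),
        mul_assoc, mul_assoc]
      refine mul_le_mul_right ((g3 i).trans (mul_le_mul_right (k3.trans
        (mul_le_mul_left ?_ _)) _)) _
      rw [← ENNReal.ofReal_ofNat 7, ← ENNReal.ofReal_pow (by norm_num),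
        ENNReal.ofReal_rpow_of_pos (by positivity), ← ENNReal.ofReal_mul (by positivity),
        ENNReal.ofReal_rpow_of_pos (by positivity)]
      refine ENNReal.ofReal_le_ofReal ?_
      have k4 : 1 / p ≤ 1 := (div_le_one hp0).2 hp1.le
      rw [mul_rpow (by positivity) (by positivity), ← rpow_mul (by positivity), mul_pow,
        mul_rpow (by positivity) (by positivity), ← rpow_natCast δ, ← rpow_mul hδ.le,
        show m * ((p - 1) * (1 / p)) = m - m / p by field_simp]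
      gcongr
      · exact rpow_le_self_of_one_le (one_le_pow₀ (by norm_num))
          (by rw [mul_one_div, div_le_one hp0]; linarith)
      · exact rpow_le_self_of_one_le (one_le_pow₀ (by norm_num)) k4
    · rw [Finset.sum_const, Finset.card_fin, nsmul_eq_mul, ← mul_assoc, ← ENNReal.ofReal_natCast,
        ← ENNReal.ofReal_mul (by positivity)]
      congr 2
      have e : δ ^ (-((m + 1 - (1 + m / β)) / p) - ε)
          = δ ^ (m / β / p - ε) * δ ^ (m - m / p) / δ ^ m := by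
        rw [← rpow_natCast δ, ← rpow_add hδ, ← rpow_sub hδ]; congr 1; ring
      rw [e, hc]; push_cast; ring

end Pool.Agent.MP_5168f5_an.H95
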