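import Mathlib

/-!
One-dimensional averaging, pigeonholing and localization lemmas.
-/

open MeasureTheory Set Classical
open scoped ENNReal

namespace Pool.Agent.MP_5168f5_an.H95

variable {τ : Type}

theorem exists_popular (F : Finset τ) (Z : τ → Set ℝ) (hZ : ∀ T ∈ F, MeasurableSet (Z T))
    {A B η : ℝ} (hAB : A < B) (hη : 0 < η) (hsub : ∀ T ∈ F, Z T ⊆ Icc A B)
    (h : ∀ T ∈ F, ENNReal.ofReal η ≤ volume (Z T)) :
    ∃ t, ∃ F' ⊆ F, η / (2 * (B - A)) * F.card ≤ F'.card ∧ ∀ T ∈ F', t ∈ Z T := by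
  suffices ∃ t, η / (2 * (B - A)) * F.card ≤ (F.filter fun T => t ∈ Z T).card from
    this.imp fun t ht => ⟨_, Finset.filter_subset _ _, ht, fun T hT => (Finset.mem_filter.1 hT).2⟩
  by_contra hcon
  push Not at hcon
  have hBA : 0 < B - A := sub_pos.2 hAB
  have hc : (0 : ℝ) < F.card := by
    have := (Nat.cast_nonneg (α := ℝ) _).trans_lt (hcon 0)
    exact (mul_pos_iff_of_pos_left (by positivity)).1 this
  have h1 : ∑ T ∈ F, volume (Z T) = ∫⁻ t in Icc A B, ∑ T ∈ F, (Z T).indicator 1 t := by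
    rw [lintegral_finsetSum' _ fun T hT => (measurable_one.indicator (hZ T hT)).aemeasurable]
    refine Finset.sum_congr rfl fun T hT => ?_
    rw [lintegral_indicator_one (hZ T hT), Measure.restrict_apply (hZ T hT),
      inter_eq_left.2 (hsub T hT)]
  have h2 : ∫⁻ t in Icc A B, ∑ T ∈ F, (Z T).indicator (1 : ℝ → ℝ≥0∞) t
      ≤ ENNReal.ofReal (η / 2 * F.card) := by
    calc _ ≤ ∫⁻ _ in Icc A B, ENNReal.ofReal (η / (2 * (B - A)) * F.card) := by
          refine lintegral_mono fun t => ?_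
          refine le_trans (le_of_eq ?_) (ENNReal.ofReal_le_ofReal (hcon t).le)
          rw [ENNReal.ofReal_natCast, Finset.card_filter]
          push_cast
          exact Finset.sum_congr rfl fun T _ => by simp [indicator_apply]
      _ = _ := by
          rw [setLIntegral_const, Real.volume_Icc, ← ENNReal.ofReal_mul (by positivity)]
          congr 1
          field_simp
  have h3 : ENNReal.ofReal (η * F.card) ≤ ∑ T ∈ F, volume (Z T) := by
    refine le_trans (le_of_eq ?_) (Finset.sum_le_sum h)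
    rw [Finset.sum_const, nsmul_eq_mul, mul_comm η, ENNReal.ofReal_mul hc.le,
      ENNReal.ofReal_natCast]
  have h4 := (ENNReal.ofReal_le_ofReal_iff (by positivity)).1 (h3.trans (h1 ▸ h2))
  nlinarith

theorem measurable_slice {A : Set ℝ} (hA : MeasurableSet A) {S : Set (ℝ × ℝ)}
    (hS : MeasurableSet S) : Measurable fun c => volume {r ∈ A | (r, c) ∈ S} :=
  measurable_measure_prodMk_right (μ := volume) ((measurable_fst hA).inter hS)

theorem fubini_markov {A : Set ℝ} (hA : MeasurableSet A) (hA1 : A ⊆ Ico 0 1) {S : Set (ℝ × ℝ)}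
    (hS : MeasurableSet S) {lam η B : ℝ} (hlam : 0 ≤ lam) (hη : 0 ≤ η) (hB : 0 < B)
    (hAl : ENNReal.ofReal lam ≤ volume A)
    (hfib : ∀ r ∈ A, ENNReal.ofReal η ≤ volume {c ∈ Icc (-B) B | (r, c) ∈ S}) :
    ENNReal.ofReal (lam * η / 2) ≤ volume {c ∈ Icc (-B) B |
      ENNReal.ofReal (lam * η / (4 * B)) ≤ volume {r ∈ A | (r, c) ∈ S}} := by
  set G := {c ∈ Icc (-B) B | ENNReal.ofReal (lam * η / (4 * B)) ≤ volume {r ∈ A | (r, c) ∈ S}}
  have hG : MeasurableSet G :=
    measurableSet_Icc.inter (measurableSet_le measurable_const (measurable_slice hA hS))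
  set U : Set (ℝ × ℝ) := (Prod.fst ⁻¹' A ∩ Prod.snd ⁻¹' Icc (-B) B) ∩ S with hU
  have hUm : MeasurableSet U := ((measurable_fst hA).inter (measurable_snd measurableSet_Icc)).inter hS
  have h1 : ENNReal.ofReal (lam * η) ≤ (volume.prod volume) U := by
    rw [Measure.prod_apply hUm, mul_comm, ENNReal.ofReal_mul hη]
    calc ENNReal.ofReal η * ENNReal.ofReal lam ≤ ENNReal.ofReal η * volume A := by gcongr
      _ = ∫⁻ r, A.indicator (fun _ => ENNReal.ofReal η) r := by
          rw [lintegral_indicator_const hA]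
      _ ≤ _ := lintegral_mono fun r => by
          by_cases hr : r ∈ A
          · rw [indicator_of_mem hr]
            exact (hfib r hr).trans (measure_mono fun c hc => ⟨⟨hr, hc.1⟩, hc.2⟩)
          · simp [indicator_of_notMem hr]
  have h2 : (volume.prod volume) U ≤ volume G + ENNReal.ofReal (lam * η / 2) := by
    rw [Measure.prod_apply_symm hUm]
    calc _ ≤ ∫⁻ c, G.indicator 1 c
          + (Icc (-B) B).indicator (fun _ => ENNReal.ofReal (lam * η / (4 * B))) c := by
          refine lintegral_mono fun c => ?_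
          by_cases hc : c ∈ Icc (-B) B
          · by_cases hc' : c ∈ G
            · refine le_add_right ?_
              rw [indicator_of_mem hc']
              calc _ ≤ volume (Ico (0 : ℝ) 1) := measure_mono fun r hr => hA1 hr.1.1
                _ = 1 := by simp
            · refine le_add_left ?_
              rw [indicator_of_mem hc]
              have : ¬ENNReal.ofReal (lam * η / (4 * B)) ≤ volume {r ∈ A | (r, c) ∈ S} :=
                fun h => hc' ⟨hc, h⟩
              refine le_trans (measure_mono ?_) (not_le.1 this).le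
              exact fun r hr => ⟨hr.1.1, hr.2⟩
          · have : (fun r => (r, c)) ⁻¹' U = ∅ := eq_empty_of_forall_notMem fun r hr => hc hr.1.2
            simp [this]
      _ = _ := by
          rw [lintegral_add_left (measurable_one.indicator hG), lintegral_indicator_one hG,
            lintegral_indicator_const measurableSet_Icc, Real.volume_Icc,
            ← ENNReal.ofReal_mul (by positivity)]
          congr 2
          field_simp
          ring
  have h3 := h1.trans h2
  rw [show lam * η = lam * η / 2 + lam * η / 2 by ring,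
    ENNReal.ofReal_add (by positivity) (by positivity)] at h3
  have h4 := (ENNReal.add_le_add_iff_right ENNReal.ofReal_ne_top).1
    (by simpa only [add_halves] using h3)
  exact h4

theorem nonempty_of_frac {F F' : Finset τ} {θ : ℝ} (hθ : 0 < θ) (hF : F.Nonempty)
    (h : θ * F.card ≤ F'.card) : F'.Nonempty := by
  have : (0 : ℝ) < F.card := by exact_mod_cast hF.card_pos
  have : (0 : ℝ) < F'.card := lt_of_lt_of_le (by positivity) h
  exact Finset.card_pos.1 (by exact_mod_cast this)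

theorem iterate {δ ι : Type} [Inhabited δ] {θ : ℝ} (hθ : 0 < θ) (Q : ι → δ → Prop)
    (P : ι → δ → τ → Prop) (R : Finset ι) (F : Finset τ) (hF : F.Nonempty)
    (h : ∀ r ∈ R, ∀ F' ⊆ F, F'.Nonempty →
      ∃ D, ∃ F'' ⊆ F', θ * F'.card ≤ F''.card ∧ Q r D ∧ ∀ T ∈ F'', P r D T) :
    ∃ D : ι → δ, ∃ F'' ⊆ F, θ ^ R.card * F.card ≤ F''.card ∧
      ∀ r ∈ R, Q r (D r) ∧ ∀ T ∈ F'', P r (D r) T := by
  induction R using Finset.induction_on with
  | empty => exact ⟨default, F, subset_rfl, by simp, by simp⟩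
  | insert r R hr ih =>
    obtain ⟨D, F', h1, h2, h3⟩ := ih fun r' hr' => h r' (Finset.mem_insert_of_mem hr')
    obtain ⟨D₀, F'', k1, k2, k3, k4⟩ := h r (Finset.mem_insert_self _ _) F' h1
      (nonempty_of_frac (by positivity) hF h2)
    refine ⟨Function.update D r D₀, F'', k1.trans h1, ?_, fun r' hr' => ?_⟩
    · rw [Finset.card_insert_of_notMem hr, pow_succ', mul_assoc]
      exact (mul_le_mul_of_nonneg_left h2 hθ.le).trans k2
    · rcases Finset.mem_insert.1 hr' with rfl | hr''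
      · rw [Function.update_self]; exact ⟨k3, k4⟩
      · rw [Function.update_of_ne (ne_of_mem_of_not_mem hr'' hr)]
        exact ⟨(h3 r' hr'').1, fun T hT => (h3 r' hr'').2 T (k1 hT)⟩

theorem pigeon {κ : Type} (F : Finset τ) (f : τ → κ) (K : Finset κ) (hK : K.Nonempty)
    (hf : ∀ T ∈ F, f T ∈ K) :
    ∃ y, ∃ F' ⊆ F, (K.card : ℝ)⁻¹ * F.card ≤ F'.card ∧ ∀ T ∈ F', f T = y := by
  have hc : (0 : ℝ) < K.card := by exact_mod_cast hK.card_pos
  obtain ⟨y, -, hy⟩ := Finset.exists_le_sum_fiber_of_maps_to_of_nsmul_le_sum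
    (w := fun _ => (1 : ℝ)) (b := (K.card : ℝ)⁻¹ * F.card) hf hK (by
      rw [nsmul_eq_mul, ← mul_assoc, mul_inv_cancel₀ hc.ne']; simp)
  exact ⟨y, F.filter fun T => f T = y, Finset.filter_subset _ _, by simpa using hy,
    fun T hT => (Finset.mem_filter.1 hT).2⟩

theorem pigeon_nat (F : Finset τ) (f : τ → ℕ) :
    ∃ j, ∃ F' ⊆ F, (1 / 2 : ℝ) ^ (j + 1) * F.card ≤ F'.card ∧ ∀ T ∈ F', f T = j := by
  suffices ∃ j, (1 / 2 : ℝ) ^ (j + 1) * F.card ≤ (F.filter fun T => f T = j).card from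
    this.imp fun t ht => ⟨_, Finset.filter_subset _ _, ht, fun T hT => (Finset.mem_filter.1 hT).2⟩
  by_contra hcon
  push Not at hcon
  have h1 : (F.card : ℝ) = ∑ j ∈ Finset.range (F.sup f + 1),
      ((F.filter fun T => f T = j).card : ℝ) := by
    exact_mod_cast Finset.card_eq_sum_card_fiberwise fun T hT =>
      Finset.mem_coe.2 (Finset.mem_range.2 (Nat.lt_succ_of_le (Finset.le_sup (f := f) hT)))
  have h2 := Finset.sum_lt_sum_of_nonempty (s := Finset.range (F.sup f + 1)) (by simp)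
    fun j _ => hcon j
  rw [← h1, ← Finset.sum_mul] at h2
  have h3 : ∑ j ∈ Finset.range (F.sup f + 1), (1 / 2 : ℝ) ^ (j + 1) ≤ 1 := by
    have := sum_geometric_two_le (F.sup f + 1)
    simp only [pow_succ, ← Finset.sum_mul]
    linarith
  nlinarith [Nat.cast_nonneg (α := ℝ) F.card]

theorem volume_affine (a c : ℝ) (hc : c ≠ 0) (S : Set ℝ) :
    volume {t | a + t * c ∈ S} = ENNReal.ofReal |c⁻¹| * volume S := by
  have : {t | a + t * c ∈ S} = (fun t => t * c) ⁻¹' ((fun t => a + t) ⁻¹' S) := rfl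
  rw [this, Real.volume_preimage_mul_right hc, measure_preimage_add]

/-- The part of `Y` in the `k`-th interval of length `1 / N`, blown up to unit size. -/
def zoom (N : ℕ) (k : ℤ) (Y : Set ℝ) : Set ℝ := {t | k / N + t / N ∈ Y}

/-- The `l`-th of `M` equal blocks of the unit interval. -/
def blk (M l : ℕ) : Set ℝ := Ico ((l : ℝ) / M) ((l + 1) / M)

theorem localize {M : ℕ} (hM : 10 < M) {Y : Set ℝ} {lam : ℝ} (hlam : 0 < lam) {k₀ : ℤ}
    (h₀ : ENNReal.ofReal lam ≤ volume (zoom 1 k₀ Y ∩ Ico 0 1)) :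
    ∃ (j : ℕ) (k : ℤ) (l : ℕ × ℕ × ℕ), lam * (M / 10) ^ j ≤ 1 ∧
      l.1 + 2 ≤ l.2.1 ∧ l.2.1 + 2 ≤ l.2.2 ∧ l.2.2 < M ∧
      ∀ i ∈ ({l.1, l.2.1, l.2.2} : Set ℕ), ENNReal.ofReal (lam * (M / 10) ^ j / (2 * M))
        ≤ volume (zoom (M ^ j) k Y ∩ blk M i) := by
  have hM' : (10 : ℝ) < M := by exact_mod_cast hM
  have hM0 : (0 : ℝ) < M := by linarith
  set P : ℕ → Prop := fun j =>
    ∃ k, ENNReal.ofReal (lam * (M / 10) ^ j) ≤ volume (zoom (M ^ j) k Y ∩ Ico 0 1) with hP
  have hle : ∀ j, P j → lam * (M / 10) ^ j ≤ 1 := fun j ⟨k, hk⟩ => by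
    have := hk.trans (measure_mono inter_subset_right)
    simpa using this
  have hex : ∃ j, ¬P (j + 1) := by
    obtain ⟨j, hj⟩ := pow_unbounded_of_one_lt (1 / lam) (show (1 : ℝ) < M / 10 by linarith)
    refine ⟨j, fun h => ?_⟩
    have h1 := hle _ h
    rw [div_lt_iff₀ hlam] at hj
    have h2 : (M / 10 : ℝ) ^ j ≤ (M / 10) ^ (j + 1) := pow_le_pow_right₀ (by linarith) (by omega)
    nlinarith
  have hj1 := Nat.find_spec hex
  have hj : P (Nat.find hex) := by
    rcases Nat.eq_zero_or_eq_succ_pred (Nat.find hex) with h | h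
    · rw [h]; exact ⟨k₀, by simpa using h₀⟩
    · rw [h]; exact not_not.1 (Nat.find_min hex (by omega))
  generalize Nat.find hex = j at hj hj1
  obtain ⟨k, hk⟩ := id hj
  set x := lam * (M / 10 : ℝ) ^ j with hx
  have hx0 : 0 < x := by positivity
  have child : ∀ l : ℕ, volume (zoom (M ^ j) k Y ∩ blk M l) ≤ ENNReal.ofReal (x / 10) := by
    intro l
    have h1 : volume (zoom (M ^ (j + 1)) (k * M + l) Y ∩ Ico 0 1)
        < ENNReal.ofReal (lam * (M / 10) ^ (j + 1)) := not_le.1 fun h => hj1 ⟨_, h⟩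
    have h2 : zoom (M ^ (j + 1)) (k * M + l) Y ∩ Ico 0 1
        = {t | (l : ℝ) / M + t * (M : ℝ)⁻¹ ∈ zoom (M ^ j) k Y ∩ blk M l} := by
      ext t
      simp only [zoom, blk, mem_inter_iff, mem_Ico, mem_ofPred_eq]
      refine and_congr (iff_of_eq (congrArg (· ∈ Y) ?_)) (and_congr ?_ ?_)
      · push_cast; field_simp; ring
      · rw [le_add_iff_nonneg_right, mul_nonneg_iff_of_pos_right (by positivity)]
      · rw [add_div, add_lt_add_iff_left, ← div_eq_mul_inv, div_lt_div_iff_of_pos_right hM0]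
    rw [h2, volume_affine _ _ (by positivity), inv_inv, abs_of_pos hM0,
      show lam * (M / 10 : ℝ) ^ (j + 1) = M * (x / 10) by rw [hx]; ring,
      ENNReal.ofReal_mul hM0.le] at h1
    exact ((ENNReal.mul_lt_mul_iff_right (ENNReal.ofReal_pos.2 hM0).ne' ENNReal.ofReal_ne_top).1 h1).le
  set Hv := (Finset.range M).filter fun l =>
    ENNReal.ofReal (x / (2 * M)) ≤ volume (zoom (M ^ j) k Y ∩ blk M l) with hHv
  have hcov : zoom (M ^ j) k Y ∩ Ico 0 1 ⊆ ⋃ l ∈ Finset.range M, zoom (M ^ j) k Y ∩ blk M l := by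
    rintro t ⟨h1, h2, h3⟩
    have h4 : 0 ≤ t * M := by positivity
    refine mem_biUnion (x := ⌊t * M⌋₊) (Finset.mem_coe.2 (Finset.mem_range.2
      ((Nat.floor_lt h4).2 (by nlinarith)))) ⟨h1, ?_, ?_⟩
    · rw [div_le_iff₀ hM0]; exact Nat.floor_le h4
    · rw [lt_div_iff₀ hM0]; exact Nat.lt_floor_add_one _
  have h5 : ENNReal.ofReal x ≤ ENNReal.ofReal (Hv.card * (x / 10) + x / 2) := by
    refine hk.trans ((measure_mono hcov).trans ((measure_biUnion_finset_le _ _).trans ?_))
    calc _ ≤ ∑ l ∈ Finset.range M, ENNReal.ofReal ((if l ∈ Hv then x / 10 else 0) + x / (2 * M)) := by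
          refine Finset.sum_le_sum fun l hl => ?_
          split_ifs with h
          · exact (child l).trans (ENNReal.ofReal_le_ofReal (le_add_of_nonneg_right (by positivity)))
          · rw [zero_add]
            exact (not_le.1 fun h' => h (Finset.mem_filter.2 ⟨hl, h'⟩)).le
      _ = _ := by
          rw [← ENNReal.ofReal_sum_of_nonneg fun l _ => by split_ifs <;> positivity,
            Finset.sum_add_distrib, Finset.sum_ite_mem, Finset.inter_eq_right.2
              (Finset.filter_subset _ _)]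
          simp only [Finset.sum_const, nsmul_eq_mul, Finset.card_range]
          congr 2
          field_simp
  have h6 : 5 ≤ Hv.card := by
    have := (ENNReal.ofReal_le_ofReal_iff (by positivity)).1 h5
    have : (5 : ℝ) ≤ Hv.card := by nlinarith
    exact_mod_cast this
  set e := Hv.orderEmbOfFin rfl
  have hlt : ∀ (a b : ℕ) (ha : a < Hv.card) (hb : b < Hv.card), a < b → e ⟨a, ha⟩ < e ⟨b, hb⟩ :=
    fun a b ha hb h => e.strictMono h
  have hmem : ∀ i, e i ∈ Hv := Hv.orderEmbOfFin_mem rfl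
  refine ⟨j, k, (e ⟨0, by omega⟩, e ⟨2, by omega⟩, e ⟨4, by omega⟩), hle j hj, ?_, ?_,
    Finset.mem_range.1 (Finset.mem_filter.1 (hmem _)).1, ?_⟩
  · have := hlt 0 1 (by omega) (by omega) (by omega)
    have := hlt 1 2 (by omega) (by omega) (by omega)
    simp only; omega
  · have := hlt 2 3 (by omega) (by omega) (by omega)
    have := hlt 3 4 (by omega) (by omega) (by omega)
    simp only; omega
  · rintro i (rfl | rfl | rfl) <;> exact (Finset.mem_filter.1 (hmem _)).2

theorem blk_sub {M l : ℕ} (h : l < M) : blk M l ⊆ Ico 0 1 := by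
  have hM : (0 : ℝ) < M := by exact_mod_cast (Nat.zero_le l).trans_lt h
  have : (l : ℝ) + 1 ≤ M := by exact_mod_cast h
  exact Ico_subset_Ico (by positivity) ((div_le_one hM).2 this)

theorem blk_sep {M l l' : ℕ} (hM : 0 < M) (h : l + 2 ≤ l') {x y : ℝ} (hx : x ∈ blk M l)
    (hy : y ∈ blk M l') : (M : ℝ)⁻¹ ≤ |x - y| := by
  have hM : (0 : ℝ) < M := by exact_mod_cast hM
  have h1 : (l : ℝ) + 2 ≤ l' := by exact_mod_cast h
  have h2 : ((l : ℝ) + 2) / M ≤ l' / M := by gcongr
  have h3 : ((l : ℝ) + 2) / M = (l + 1) / M + (M : ℝ)⁻¹ := by field_simp; ring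
  rw [abs_sub_comm]
  exact le_trans (by linarith [hx.2, hy.1]) (le_abs_self _)

end Pool.Agent.MP_5168f5_an.H95
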