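import Pool.Agent.MP_5168f5_an.H95.SD

/-!
The corner step of Katz and Tao in entropy form, with free heights.
-/

open Finset Classical

namespace Pool.Agent.MP_5168f5_an.H95

variable {Ω : Type} [Fintype Ω] {m : ℕ}

/-- Entropy of the pair (cell at height `a` of the first line, cell at height `u` of the second
line) for two lines that are conditionally independent given their common cell at height `b`. -/
noncomputable def PP (p : Ω → ℝ) (x v : Ω → Fin m → ℝ) (b a u : ℝ) : ℝ :=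
  ent (glue p p (cell x v b) (cell x v b)) (fun z => (cell x v a z.1, cell x v u z.2))

/-- The inequality attached to a node `(b; a, u)`. -/
def UU (b a u : ℝ) (R : Finset ℝ) (X z L : ℝ) : Prop :=
  ∃ Λ, Pos R z Λ ∧ ∀ (m : ℕ) (Ω : Type) [Fintype Ω] (p : Ω → ℝ) (x v : Ω → Fin m → ℝ),
    (∀ ω, 0 ≤ p ω) → Inj p x v →
    X * ent p (fun ω => fl (v ω)) + PP p x v b a u
      ≤ Λ (fun t => ent p (cell x v t)) + mass p * m * L

theorem UU_zero (b a u : ℝ) : UU b a u {a, u} 0 2 0 := by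
  refine ⟨ev a + ev u, ⟨fun φ hφ => ?_, by
    simp only [LinearMap.add_apply, ev_apply, Pi.one_apply]; norm_num⟩,
    fun m Ω _ p x v hp _ => ?_⟩
  · simpa [ev_apply] using add_nonneg (hφ a (by simp)) (hφ u (by simp))
  · have h1 := ent_pair_le (glue_nonneg hp hp (cell x v b) (cell x v b))
      (fun z => cell x v a z.1) (fun z => cell x v u z.2)
    rw [(push_fst hp fun _ => rfl).ent (cell x v a), (push_snd hp fun _ => rfl).ent (cell x v u)]
      at h1
    simp only [LinearMap.add_apply, ev_apply, PP]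
    linarith

theorem UU.toSD {b a u : ℝ} {R : Finset ℝ} {X z L : ℝ} (h : UU b a u R X z L) (hX : 0 < X) :
    SD R (z / X) (L / X) := by
  obtain ⟨Λ, hΛ, h⟩ := h
  refine ⟨X⁻¹ • Λ, ⟨fun φ hφ => mul_nonneg (inv_nonneg.2 hX.le) (hΛ.1 φ hφ), by
    rw [LinearMap.smul_apply, hΛ.2, smul_eq_mul, inv_mul_eq_div]⟩, fun m Ω _ p x v hp hi => ?_⟩
  have h1 := h m Ω p x v hp hi
  have h2 : 0 ≤ PP p x v b a u := ent_nonneg (glue_nonneg hp hp _ _) _
  rw [LinearMap.smul_apply, smul_eq_mul]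
  refine le_of_mul_le_mul_left ?_ hX
  rw [mul_add, ← mul_assoc, mul_inv_cancel₀ hX.ne', one_mul]
  have : X * (mass p * m * (L / X)) = mass p * m * L := by field_simp
  linarith

theorem abs_comb {A B d₁ d₂ d₃ d₄ : ℝ} (h1 : |d₁| ≤ 1) (h2 : |d₂| ≤ 1) (h3 : |d₃| ≤ 1)
    (h4 : |d₄| ≤ 1) : |A * d₁ + B * d₂ + B * d₃ - B * d₄| ≤ |A| + 3 * |B| := by
  have e : ∀ c d : ℝ, |d| ≤ 1 → |c * d| ≤ |c| := fun c d h => by
    rw [abs_mul]; exact mul_le_of_le_one_right (abs_nonneg _) h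
  have a1 := abs_le.1 (e A _ h1)
  have a2 := abs_le.1 (e B _ h2)
  have a3 := abs_le.1 (e B _ h3)
  have a4 := abs_le.1 (e B _ h4)
  exact abs_le.2 ⟨by linarith [a1.1, a2.1, a3.1, a4.2], by linarith [a1.2, a2.2, a3.2, a4.1]⟩

theorem ent_le_fst {α β : Type} {p : Ω → ℝ} (hp : ∀ ω, 0 ≤ p ω) (f : Ω → α) (g : Ω → β) :
    ent p f ≤ ent p (fun ω => (f ω, g ω)) :=
  ent_le_of_det hp fun _ _ _ _ e => (Prod.ext_iff.1 e).1

omit [Fintype Ω] in
theorem Inj.cell {p : Ω → ℝ} {x v : Ω → Fin m → ℝ} (hi : Inj p x v) {ω ω' : Ω} (h0 : p ω ≠ 0)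
    (h1 : p ω' ≠ 0) (e : fl (v ω) = fl (v ω')) (t : ℝ) : cell x v t ω = cell x v t ω' := by
  obtain ⟨e1, e2⟩ := hi ω ω' h0 h1 e
  simp only [H95.cell, e1, e2]

/-- The segment inequality. -/
theorem segment {Λ : (ℝ → ℝ) →ₗ[ℝ] ℝ} {β L κ K a b c s : ℝ} {R : Finset ℝ} (hΛ : Pos R β Λ)
    (h : ∀ (p : Ω × Ω → ℝ) (x v : Ω × Ω → Fin m → ℝ), (∀ ω, 0 ≤ p ω) → Inj p x v →
      ent p (fun ω => fl (v ω)) ≤ Λ (fun t => ent p (cell x v t)) + mass p * m * L)
    (hκ : 0 < κ) (hc : κ ≤ |c|) (hK : 2 / κ ≤ K) (rs : ℝ → ℝ)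
    (hr : ∀ r ∈ R, ∃ A B, A * (r - a) = s * (b - a) ∧ A + B = s ∧ B * (rs r - a) = c ∧
      |A| + 3 * |B| ≤ K)
    {p : Ω → ℝ} {x v : Ω → Fin m → ℝ} (hp : ∀ ω, 0 ≤ p ω) (hi : Inj p x v) :
    (β - 1) * ent (glue p p (cell x v a) (cell x v a))
        (fun z => fl (c • v z.2 + s • (x z.1 + b • v z.1)))
      + 2 * ent p (fun ω => fl (v ω)) - ent p (cell x v a)
      ≤ Λ (fun r => PP p x v a r (rs r))
        + mass p * m * (L + (β + 1) * Real.log (2 * K + 2)) := by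
  set q := glue p p (cell x v a) (cell x v a) with hq
  set ν : Ω × Ω → Fin m → ℤ := fun z => fl (c • v z.2 + s • (x z.1 + b • v z.1)) with hν
  have hq0 : ∀ z, 0 ≤ q z := glue_nonneg hp hp _ _
  have hK0 : 0 ≤ K := le_trans (by positivity) hK
  have hm : mass q = mass p := (push_fst hp fun _ => rfl).mass
  have h1 := ent_glue hp hp (a := cell x v a) (a' := cell x v a) (fun _ => rfl)
    (fun ω => fl (v ω)) (fun ω => fl (v ω))
  have h2 := ent_le_fst hp (fun ω => fl (v ω)) (cell x v a)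
  have h3 := ent_le_approx hq0 (fun z => v z.2) (W := fun z => (fl (v z.1), ν z))
    (F := fun z => ((fl (v z.1), cell x v a z.1), fl (v z.2))) hK0
    (fun z z' h0 h0' e i => by
      obtain ⟨e1, e2⟩ := hi _ _ (glue_ne h0).2.1 (glue_ne h0').2.1 (Prod.ext_iff.1 e).1
      have h4 := fl_close (Prod.ext_iff.1 e).2 i
      simp only [e1, e2, Pi.add_apply, Pi.smul_apply, smul_eq_mul] at h4
      refine (abs_le_div hκ hc (k := 2) ?_).trans hK
      rw [mul_sub]
      rw [add_sub_add_right_eq_sub] at h4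
      linarith)
    (fun z z' h0 h0' e e' => by
      have e1 := (Prod.ext_iff.1 e').1
      simp only at e e1
      rw [e, e1, hi.cell (glue_ne h0).2.1 (glue_ne h0').2.1 e1])
  have h4 := SD_cond hΛ h (x := fun z => x z.1) (v := fun z => v z.1) hq0 ν
    fun z z' h0 h0' _ e => hi _ _ (glue_ne h0).2.1 (glue_ne h0').2.1 e
  have h5 := hΛ.le
    (φ := fun t => ent q (fun z => (cell (fun z => x z.1) (fun z => v z.1) t z, ν z)))
    (ψ := fun r => PP p x v a r (rs r)) (c := mass q * m * Real.log (2 * K + 2)) fun r hr' => by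
      obtain ⟨A, B, e1, e2, e3, e4⟩ := hr r hr'
      refine ent_le_approx hq0 (fun z => c • v z.2 + s • (x z.1 + b • v z.1)) hK0
        (fun z z' h0 h0' e i => ?_) (fun z z' _ _ e e' => ?_)
      · refine le_trans (le_of_eq ?_) ((abs_comb (A := A) (B := B)
          (fl_close (Prod.ext_iff.1 e).1 i) (fl_close (Prod.ext_iff.1 e).2 i)
          (fl_close (glue_ne h0).1.symm i) (fl_close (glue_ne h0').1.symm i)).trans e4)
        simp only [Pi.add_apply, Pi.smul_apply, smul_eq_mul]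
        congr 1
        rw [← e3, ← e2]
        rw [← e2] at e1
        linear_combination (v z'.1 i - v z.1 i) * e1
      · exact Prod.ext (Prod.ext_iff.1 e').1 e
  rw [hm] at h3 h4 h5
  linarith

/-- The corner inequality. -/
theorem corner {Λ : (ℝ → ℝ) →ₗ[ℝ] ℝ} {β L κ K a b c u : ℝ} {R : Finset ℝ} (hΛ : Pos R β Λ)
    (hβ : 1 ≤ β)
    (h : ∀ (p : (Ω × Ω) × Ω → ℝ) (x v : (Ω × Ω) × Ω → Fin m → ℝ), (∀ ω, 0 ≤ p ω) → Inj p x v →
      ent p (fun ω => fl (v ω)) ≤ Λ (fun t => ent p (cell x v t)) + mass p * m * L)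
    (hκ : 0 < κ) (hc : κ ≤ |c|) (hab : κ ≤ |a - b|) (hK : 2 / κ ≤ K) (s : ℝ → ℝ)
    (hs : ∀ r ∈ R, (1 - s r) * (r - b) = u - b ∧ 1 + |1 - s r| + 2 * |s r| ≤ K)
    {p : Ω → ℝ} {x v : Ω → Fin m → ℝ} (hp : ∀ ω, 0 ≤ p ω) (hi : Inj p x v) :
    (β + 2) * ent p (fun ω => fl (v ω)) + (β - 1) * PP p x v b a u
      ≤ Λ (fun t => ent p (cell x v t))
        + Λ (fun r => ent (glue p p (cell x v a) (cell x v a))
            (fun z => fl (c • v z.2 + s r • (x z.1 + b • v z.1))))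
        + β * ent p (cell x v a) + ent p (cell x v b) + (β - 1) * ent p (cell x v u)
        + mass p * m * (L + (2 * β + 1) * Real.log (2 * K + 2)) := by
  set V := glue p p (cell x v b) (cell x v b) with hV
  have hV0 : ∀ z, 0 ≤ V z := glue_nonneg hp hp _ _
  have pV1 : Push V Prod.fst p := push_fst hp fun _ => rfl
  have pV2 : Push V Prod.snd p := push_snd hp fun _ => rfl
  have hlaw : ∀ w, pr V (fun z => cell x v a z.1) w = pr p (cell x v a) w := pV1.pr _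
  set q := glue V p (fun z => cell x v a z.1) (cell x v a) with hq
  have hq0 : ∀ z, 0 ≤ q z := glue_nonneg hV0 hp _ _
  have pq1 : Push q Prod.fst V := push_fst hV0 hlaw
  have pq2 : Push q (fun z => (z.1.1, z.2)) (glue p p (cell x v a) (cell x v a)) :=
    push_glue pV1 p _ _
  have hm : mass q = mass p := pq1.mass.trans pV1.mass
  have hK0 : 0 ≤ K := le_trans (by positivity) hK
  have supp : ∀ z, q z ≠ 0 → cell x v a z.2 = cell x v a z.1.1 ∧
      cell x v b z.1.2 = cell x v b z.1.1 ∧ p z.2 ≠ 0 ∧ p z.1.1 ≠ 0 ∧ p z.1.2 ≠ 0 := fun z h0 =>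
    ⟨(glue_ne h0).1, (glue_ne (glue_ne h0).2.1).1, (glue_ne h0).2.2,
      (glue_ne (glue_ne h0).2.1).2⟩
  set μ : (Ω × Ω) × Ω → Fin m → ℤ := fun z => fl (c • v z.2 + (x z.1.2 + u • v z.1.2)) with hμ
  have g1 := ent_glue hp hp (a := cell x v b) (a' := cell x v b) (fun _ => rfl)
    (fun ω => fl (v ω)) (fun ω => fl (v ω))
  have g2 := ent_glue hV0 hp hlaw (fun z => ((fl (v z.1), cell x v b z.1), fl (v z.2)))
    (fun ω => fl (v ω))
  have g3 := ent_glue hV0 hp hlaw (fun z => cell x v u z.2) (fun ω => fl (v ω))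
  have a1 := ent_le_fst hp (fun ω => fl (v ω)) (cell x v a)
  have a2 := ent_le_fst hp (fun ω => fl (v ω)) (cell x v b)
  have a3 := ent_le_fst hV0 (fun z => ((fl (v z.1), cell x v b z.1), fl (v z.2)))
    (fun z => cell x v a z.1)
  have a4 : ent V (fun z => cell x v a z.1) = ent p (cell x v a) := pV1.ent _
  have a5 : PP p x v b a u ≤ ent V (fun z => (cell x v u z.2, cell x v a z.1)) :=
    ent_le_of_det hV0 fun _ _ _ _ e => Prod.ext (Prod.ext_iff.1 e).2 (Prod.ext_iff.1 e).1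
  have b1 := ent_le_approx hq0 (fun z => v z.1.1) (W := fun z => (fl (v z.2), fl (v z.1.2), μ z))
    (F := fun z => ((((fl (v z.1.1), cell x v b z.1.1), fl (v z.1.2)), cell x v a z.1.1),
      fl (v z.2))) hK0
    (fun z z' h0 h0' e i => by
      obtain ⟨s1, s2, s3, s4, s5⟩ := supp z h0
      obtain ⟨t1, t2, t3, t4, t5⟩ := supp z' h0'
      have e1 := hi.cell s3 t3 (Prod.ext_iff.1 e).1 a
      have e2 := hi.cell s5 t5 (Prod.ext_iff.1 (Prod.ext_iff.1 e).2).1 b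
      have h1 := abs_le.1 (fl_close (s1.symm.trans (e1.trans t1)) i)
      have h2 := abs_le.1 (fl_close (s2.symm.trans (e2.trans t2)) i)
      simp only [Pi.add_apply, Pi.smul_apply, smul_eq_mul] at h1 h2
      exact (abs_le_div hκ hab (k := 2)
        (abs_le.2 ⟨by linarith [h1.1, h2.2], by linarith [h1.2, h2.1]⟩)).trans hK)
    (fun z z' h0 h0' e e' => by
      have e1 := (Prod.ext_iff.1 e').1
      have e2 := (Prod.ext_iff.1 (Prod.ext_iff.1 e').2).1
      have s4 := (supp z h0).2.2.2.1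
      have t4 := (supp z' h0').2.2.2.1
      simp only at e e1 e2
      rw [e, e1, e2, hi.cell s4 t4 e a, hi.cell s4 t4 e b])
  have b2 := ent_fl_le hq0 (fun z => v z.2) (fun z => (fl (v z.1.2), μ z)) hK0
    (fun z z' h0 h0' e i => by
      obtain ⟨e1, e2⟩ := hi _ _ (supp z h0).2.2.2.2 (supp z' h0').2.2.2.2 (Prod.ext_iff.1 e).1
      have h4 := fl_close (Prod.ext_iff.1 e).2 i
      simp only [e1, e2, Pi.add_apply, Pi.smul_apply, smul_eq_mul] at h4
      refine (abs_le_div hκ hc (k := 2) ?_).trans hK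
      rw [mul_sub]
      rw [add_sub_add_right_eq_sub] at h4
      linarith)
  have b3 := ent_le_approx hq0 (fun z => v z.2) (W := fun z => (μ z, cell x v u z.1.2))
    (F := fun z => ((cell x v u z.1.2, cell x v a z.1.1), fl (v z.2))) hK0
    (fun z z' h0 h0' e i => by
      have h1 := abs_le.1 (fl_close (Prod.ext_iff.1 e).1 i)
      have h2 := abs_le.1 (fl_close (Prod.ext_iff.1 e).2 i)
      simp only [Pi.add_apply, Pi.smul_apply, smul_eq_mul] at h1 h2
      exact (abs_le_div hκ hc (k := 2)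
        (abs_le.2 ⟨by linarith [h1.1, h2.2], by linarith [h1.2, h2.1]⟩)).trans hK)
    (fun z z' h0 h0' e e' => by
      obtain ⟨s1, s2, s3, s4, s5⟩ := supp z h0
      obtain ⟨t1, t2, t3, t4, t5⟩ := supp z' h0'
      have e2 := (Prod.ext_iff.1 e').2
      simp only at e e2
      rw [e, e2, ← s1, ← t1, hi.cell s3 t3 e a])
  have b4 := ent_pair_le hq0 μ (fun z => cell x v u z.1.2)
  have b5 : ∀ t, ent q (fun z => cell x v t z.1.2) = ent p (cell x v t) := fun t =>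
    (pq1.ent fun z => cell x v t z.2).trans (pV2.ent _)
  have c1 := SD_cond hΛ h (x := fun z => x z.1.2) (v := fun z => v z.1.2) hq0 μ
    fun z z' h0 h0' _ e => hi _ _ (supp z h0).2.2.2.2 (supp z' h0').2.2.2.2 e
  have c2 := hΛ.le
    (φ := fun t => ent q (fun z => (cell (fun z => x z.1.2) (fun z => v z.1.2) t z, μ z)))
    (ψ := (fun t => ent p (cell x v t)) + fun r => ent (glue p p (cell x v a) (cell x v a))
      (fun z => fl (c • v z.2 + s r • (x z.1 + b • v z.1))))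
    (c := mass q * m * Real.log (2 * K + 2)) fun r hr => by
      obtain ⟨e1, e2⟩ := hs r hr
      rw [Pi.add_apply, ← b5 r, ← pq2.ent]
      refine le_trans ?_ (add_le_add_left (ent_pair_le hq0 _ _) _)
      refine ent_le_approx hq0 (fun z => c • v z.2 + (x z.1.2 + u • v z.1.2)) hK0
        (fun z z' h0 h0' e i => ?_) (fun z z' _ _ e e' => Prod.ext (Prod.ext_iff.1 e').1 e)
      have h1 := fl_close (Prod.ext_iff.1 e).1 i
      have h2 := abs_le.1 (fl_close (Prod.ext_iff.1 e).2 i)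
      have h3 := abs_le.1 (abs_comb (A := 1 - s r) (B := s r) h1 (d₂ := 0) (by simp)
        (fl_close (supp z h0).2.1 i) (fl_close (supp z' h0').2.1 i))
      have h3' := abs_le.1 (abs_comb (A := 1 - s r) (B := 0) h1 h1 h1 h1)
      have f : ∀ d : ℝ, |d| ≤ 1 → |s r * d| ≤ |s r| := fun d h => by
        rw [abs_mul]; exact mul_le_of_le_one_right (abs_nonneg _) h
      have h4 := abs_le.1 (f _ (fl_close (supp z h0).2.1 i))
      have h5 := abs_le.1 (f _ (fl_close (supp z' h0').2.1 i))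
      simp only [Pi.add_apply, Pi.smul_apply, smul_eq_mul, zero_mul, add_zero, sub_zero, abs_zero,
        mul_zero] at h2 h3' h4 h5 ⊢
      have e3 : u = b + (1 - s r) * (r - b) := by linarith
      rw [e3]
      exact abs_le.2 ⟨by linarith [h2.1, h3'.1, h4.1, h5.2], by linarith [h2.2, h3'.2, h4.2, h5.1]⟩
  rw [map_add, hm] at c2
  rw [hm] at b1 b2 b3 c1
  rw [b5] at b4
  have d1 : ent p (fun ω => fl (v ω)) + PP p x v b a u - ent p (cell x v a) - ent p (cell x v u)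
      - mass p * m * Real.log (2 * K + 2) ≤ ent q μ := by linarith
  have d2 := mul_le_mul_of_nonneg_left d1 (sub_nonneg.2 hβ)
  linarith

/-- The node step. -/
theorem node {β L₁ L₂ L₃ κ K a b c u X z : ℝ} {R' Rn : Finset ℝ} {R : ℝ → Finset ℝ}
    {RR : ℝ → ℝ → Finset ℝ} (hβ : 1 < β) (h₁ : SD R' β L₁) (h₂ : ∀ r' ∈ R', SD (R r') β L₂)
    (s : ℝ → ℝ) (rs : ℝ → ℝ → ℝ)
    (h₃ : ∀ r' ∈ R', ∀ r ∈ R r', UU a r (rs r' r) (RR r' r) X z L₃)
    (hκ : 0 < κ) (hc : κ ≤ |c|) (hab : κ ≤ |a - b|) (hK : 2 / κ ≤ K)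
    (hs : ∀ r ∈ R', (1 - s r) * (r - b) = u - b ∧ 1 + |1 - s r| + 2 * |s r| ≤ K)
    (hr : ∀ r' ∈ R', ∀ r ∈ R r', ∃ A B, A * (r - a) = s r' * (b - a) ∧ A + B = s r' ∧
      B * (rs r' r - a) = c ∧ |A| + 3 * |B| ≤ K)
    (hR' : R' ⊆ Rn) (hRR : ∀ r' ∈ R', ∀ r ∈ R r', RR r' r ⊆ Rn) (ha : a ∈ Rn) (hb : b ∈ Rn)
    (hu : u ∈ Rn) :
    UU b a u Rn ((β + 2 + (2 * β + β ^ 2 * X) / (β - 1)) / (β - 1))
      ((3 * β + (β + β ^ 2 * z) / (β - 1)) / (β - 1))
      ((L₁ + (2 * β + 1) * Real.log (2 * K + 2)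
        + (β * (L₂ + (β + 1) * Real.log (2 * K + 2)) + β ^ 2 * L₃) / (β - 1)) / (β - 1)) := by
  obtain ⟨Λ₁, hΛ₁, h₁⟩ := h₁
  choose! Λ₂ hΛ₂ h₂ using h₂
  choose! Λ₃ hΛ₃ h₃ using h₃
  have hD : 0 < β - 1 := sub_pos.2 hβ
  set D := β - 1 with hDdef
  set Λ₄ : (ℝ → ℝ) →ₗ[ℝ] ℝ :=
    Λ₁ ∘ₗ LinearMap.pi fun r' => Λ₂ r' ∘ₗ LinearMap.pi fun r => Λ₃ r' r with hΛ₄
  have e4 : ∀ φ, Λ₄ φ = Λ₁ fun r' => Λ₂ r' fun r => Λ₃ r' r φ := fun _ => rfl
  refine ⟨D⁻¹ • (Λ₁ + D⁻¹ • (Λ₄ + β • ev a) + β • ev a + ev b + D • ev u),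
    ⟨fun φ hφ => ?_, ?_⟩, fun m Ω _ p x v hp hi => ?_⟩
  · have k1 := hΛ₁.1 φ fun t ht => hφ t (hR' ht)
    have k2 : 0 ≤ Λ₄ φ := hΛ₁.1 _ fun r' h1 => (hΛ₂ r' h1).1 _ fun r h2 =>
      (hΛ₃ r' h1 r h2).1 _ fun t ht => hφ t (hRR r' h1 r h2 ht)
    have k3 := hφ a ha
    have k4 := hφ b hb
    have k5 := hφ u hu
    have : 0 < β := by linarith
    simp only [LinearMap.add_apply, LinearMap.smul_apply, ev_apply, smul_eq_mul]
    positivity
  · have k1 : Λ₄ 1 ≤ β * (β * z) := by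
      simpa [e4] using hΛ₁.le (ψ := 0) (c := β * z) fun r' h1 => by
        simpa using (hΛ₂ r' h1).le (ψ := 0) (c := z) fun r h2 => by
          simp [(hΛ₃ r' h1 r h2).2]
    have k2 : 0 ≤ Λ₄ 1 + β * -(β * z) := by
      simpa [e4] using hΛ₁.le (φ := 0) (c := -(β * z)) fun r' h1 => by
        simpa using (hΛ₂ r' h1).le (φ := 0) (c := -z) fun r h2 => by
          simp [(hΛ₃ r' h1 r h2).2]
    have k3 : Λ₄ 1 = β ^ 2 * z := by linarith
    simp only [LinearMap.add_apply, LinearMap.smul_apply, ev_apply, smul_eq_mul, k3, hΛ₁.2,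
      Pi.one_apply]
    field_simp
    ring
  · have k1 := corner hΛ₁ hβ.le (h₁ m _) hκ hc hab hK s hs hp hi
    set H : ℝ → ℝ := fun t => ent p (cell x v t) with hH
    set h := ent p (fun ω => fl (v ω)) with hh
    set e := Real.log (2 * K + 2) with he
    set M := mass p * m with hM
    have k2 := hΛ₁.le (φ := D • fun r => ent (glue p p (cell x v a) (cell x v a))
        (fun z => fl (c • v z.2 + s r • (x z.1 + b • v z.1))))
      (ψ := fun r' => Λ₂ r' fun r => Λ₃ r' r H)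
      (c := H a - 2 * h + M * (L₂ + (β + 1) * e) + β * (M * L₃ - X * h)) fun r' h1 => by
        have k3 := segment (hΛ₂ r' h1) (h₂ r' h1 m _) hκ hc hK (rs r') (hr r' h1) hp hi
        have k4 := (hΛ₂ r' h1).le (φ := fun r => PP p x v a r (rs r' r))
          (ψ := fun r => Λ₃ r' r H) (c := M * L₃ - X * h) fun r h2 => by
            have := h₃ r' h1 r h2 m Ω p x v hp hi
            linarith
        simp only [Pi.smul_apply, smul_eq_mul]
        linarith
    rw [map_smul, smul_eq_mul, ← e4] at k2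
    simp only [LinearMap.add_apply, LinearMap.smul_apply, ev_apply, smul_eq_mul]
    set N := Λ₁ fun r => ent (glue p p (cell x v a) (cell x v a))
      (fun z => fl (c • v z.2 + s r • (x z.1 + b • v z.1))) with hN
    have k5 : N ≤ D⁻¹ * (Λ₄ H + β * (H a - 2 * h + M * (L₂ + (β + 1) * e)
        + β * (M * L₃ - X * h))) := by
      rw [inv_mul_eq_div, le_div_iff₀ hD]; linarith
    refine le_of_mul_le_mul_left ?_ hD
    have k6 : D * ((β + 2 + (2 * β + β ^ 2 * X) / D) / D * h + PP p x v b a u)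
        = (β + 2) * h + D * PP p x v b a u + D⁻¹ * ((2 * β + β ^ 2 * X) * h) := by
      field_simp; ring
    have k7 : D * (D⁻¹ * (Λ₁ H + D⁻¹ * (Λ₄ H + β * H a) + β * H a + H b + D * H u)
        + M * ((L₁ + (2 * β + 1) * e + (β * (L₂ + (β + 1) * e) + β ^ 2 * L₃) / D) / D))
        = Λ₁ H + D⁻¹ * (Λ₄ H + β * H a) + β * H a + H b + D * H u + M * (L₁ + (2 * β + 1) * e)
          + D⁻¹ * (M * (β * (L₂ + (β + 1) * e) + β ^ 2 * L₃)) := by
      field_simp; ring
    rw [k6, k7]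
    linarith

end Pool.Agent.MP_5168f5_an.H95
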