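import Pool.Agent.MP_5168f5_an.H95.Node
import Pool.Agent.MP_5168f5_an.H95.Meas

/-!
Finding the heights of a node and of all its descendants inside many given sets of heights.
-/

open MeasureTheory Set Classical Real
open scoped ENNReal

namespace Pool.Agent.MP_5168f5_an.H95

/-- A proportion `exp (-y)` of the sets `Y T` contain `R`. -/
def Found {τ : Type} (F : Finset τ) (Y : τ → Set ℝ) (y : ℝ) (R : Finset ℝ) : Prop :=
  ∃ F' ⊆ F, exp (-y) * F.card ≤ F'.card ∧ ∀ T ∈ F', (R : Set ℝ) ⊆ Y T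

/-- A block separated from the next one. -/
def Blk (σ : ℝ) (J J' : Set ℝ) : Prop :=
  MeasurableSet J ∧ J ⊆ Ico 0 1 ∧ ∀ x ∈ J, ∀ y ∈ J', σ ≤ |x - y|

/-- `Y` has measure at least `exp (-l)` in each of three blocks. -/
def Big (l : ℝ) (J₀ J₁ J₂ Y : Set ℝ) : Prop :=
  MeasurableSet Y ∧ ENNReal.ofReal (exp (-l)) ≤ volume (Y ∩ J₀) ∧
    ENNReal.ofReal (exp (-l)) ≤ volume (Y ∩ J₁) ∧ ENNReal.ofReal (exp (-l)) ≤ volume (Y ∩ J₂)

/-- Heights for the exponent `β` in arbitrary sets. -/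
def SS (β : ℝ) : Prop :=
  ∃ (C K : ℝ) (M : ℕ), 0 ≤ C ∧ 0 ≤ K ∧ ∀ (τ : Type) (F : Finset τ) (Y : τ → Set ℝ) (l : ℝ),
    F.Nonempty → 0 ≤ l →
    (∀ T ∈ F, MeasurableSet (Y T) ∧ Y T ⊆ Ico 0 1 ∧ ENNReal.ofReal (exp (-l)) ≤ volume (Y T)) →
    ∃ R, R.card ≤ M ∧ SD R β (20 / 19 * l + K) ∧ Found F Y (C * l + K) R

/-- Heights for a node. -/
def UT (X z : ℝ) : Prop :=
  ∃ C : ℝ, 0 ≤ C ∧ ∀ σ : ℝ, 0 < σ → σ ≤ 1 → ∃ (K : ℝ) (M : ℕ), 0 ≤ K ∧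
    ∀ (τ : Type) (F : Finset τ) (Y : τ → Set ℝ) (l : ℝ) (J₀ J₁ J₂ : Set ℝ) (b a u : ℝ),
    Blk σ J₀ J₁ → Blk σ J₁ J₂ → Blk σ J₂ J₀ → F.Nonempty → 0 ≤ l → b ∈ J₀ → a ∈ J₁ → u ∈ J₁ →
    (∀ T ∈ F, Big l J₀ J₁ J₂ (Y T) ∧ b ∈ Y T ∧ a ∈ Y T ∧ u ∈ Y T) →
    ∃ R, R.card ≤ M ∧ UU b a u R X z (49 / 50 * X * l + K) ∧ Found F Y (C * l + K) R

theorem UU.mono {b a u : ℝ} {R : Finset ℝ} {X z L L' : ℝ} (h : UU b a u R X z L) (hL : L ≤ L') :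
    UU b a u R X z L' := by
  obtain ⟨Λ, hΛ, h⟩ := h
  refine ⟨Λ, hΛ, fun m Ω _ p x v hp hi => (h m Ω p x v hp hi).trans ?_⟩
  have := mul_nonneg (mass_nonneg hp) (Nat.cast_nonneg (α := ℝ) m)
  gcongr

theorem UT_zero : UT 0 2 := by
  refine ⟨0, le_rfl, fun σ _ _ => ⟨0, 2, le_rfl,
    fun τ F Y l J₀ J₁ J₂ b a u _ _ _ _ _ _ _ _ h => ⟨{a, u}, Finset.card_le_two, ?_,
      F, subset_rfl, by simp, fun T hT => ?_⟩⟩⟩
  · simpa using UU_zero b a u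
  · simp [insert_subset_iff, (h T hT).2.2.1, (h T hT).2.2.2]

theorem abs_sub_le_one {x y : ℝ} (hx : x ∈ Ico (0 : ℝ) 1) (hy : y ∈ Ico (0 : ℝ) 1) :
    |x - y| ≤ 1 :=
  abs_le.2 ⟨by linarith [hx.1, hy.2], by linarith [hx.2, hy.1]⟩

theorem ratio_le {σ x y : ℝ} (hσ : 0 < σ) (hx : |x| ≤ 1) (hy : σ ≤ |y|) : |x / y| ≤ σ⁻¹ := by
  rw [abs_div, ← one_div]
  gcongr

theorem le_ratio {σ x y : ℝ} (hσ : 0 < σ) (hx : σ ≤ |x|) (hy : σ ≤ |y|) (hy1 : |y| ≤ 1) :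
    σ ≤ |x / y| := by
  rw [abs_div, le_div_iff₀ (hσ.trans_le hy)]
  nlinarith

theorem fib_bound {G : Set ℝ} {a k σ g B : ℝ} (hσ : 0 < σ) (h1 : σ ≤ |k|) (h2 : |k| ≤ σ⁻¹)
    (hG : ENNReal.ofReal g ≤ volume G) (hB : ∀ y ∈ G, |y - a| ≤ σ * B) :
    ENNReal.ofReal (σ * g) ≤ volume {c ∈ Icc (-B) B | a + c * k ∈ G} := by
  have hk : 0 < |k| := hσ.trans_le h1
  have e : {c ∈ Icc (-B) B | a + c * k ∈ G} = {c | a + c * k ∈ G} := by
    ext c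
    refine ⟨fun h => h.2, fun h => ⟨abs_le.1 ?_, h⟩⟩
    have := hB _ h
    rw [add_sub_cancel_left, abs_mul] at this
    refine le_of_mul_le_mul_left (le_trans ?_ this) hσ
    rw [mul_comm]
    exact mul_le_mul_of_nonneg_left h1 (abs_nonneg _)
  rw [e, volume_affine _ _ (abs_pos.1 hk), ENNReal.ofReal_mul hσ.le]
  gcongr
  rw [abs_inv]
  exact (le_inv_comm₀ hk hσ).1 h2

theorem choose_c {τ : Type} (F : Finset τ) (A : τ → Set ℝ) {σ lam a b u : ℝ} (hσ : 0 < σ)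
    (hlam : 0 < lam) (ha : a ∈ Ico (0 : ℝ) 1) (hb : b ∈ Ico (0 : ℝ) 1) (hu : u ∈ Ico (0 : ℝ) 1)
    (hA : ∀ T ∈ F, MeasurableSet (A T) ∧ A T ⊆ Ico 0 1 ∧ ENNReal.ofReal lam ≤ volume (A T) ∧
      ∀ r ∈ A T, σ ≤ |r - a| ∧ σ ≤ |r - b| ∧ σ ≤ |r - u|) :
    ∃ c : ℝ, ∃ F' ⊆ F, σ ^ 4 * lam ^ 3 / 16 * F.card ≤ F'.card ∧ ∀ T ∈ F', ∃ Y ⊆ A T,
      MeasurableSet Y ∧ ENNReal.ofReal (σ ^ 4 * lam ^ 3 / 8) ≤ volume Y ∧ ∀ r' ∈ Y,
        ENNReal.ofReal (σ ^ 2 * lam ^ 2 / 4) ≤ volume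
          {r ∈ A T | a + c * ((r' - b) / (r' - u)) * ((r - a) / (r - b)) ∈ A T} := by
  set G : τ → Set ℝ := fun T => {c ∈ Icc (-σ⁻¹) σ⁻¹ | ENNReal.ofReal (lam * (σ * lam) / (4 * σ⁻¹))
    ≤ volume {r ∈ A T | (r, c) ∈ {z : ℝ × ℝ | a + z.2 * ((z.1 - a) / (z.1 - b)) ∈ A T}}} with hG
  have hS1 : ∀ T ∈ F, MeasurableSet {z : ℝ × ℝ | a + z.2 * ((z.1 - a) / (z.1 - b)) ∈ A T} :=
    fun T hT => (by fun_prop : Measurable fun z : ℝ × ℝ => a + z.2 * ((z.1 - a) / (z.1 - b)))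
      (hA T hT).1
  have hGm : ∀ T ∈ F, MeasurableSet (G T) := fun T hT =>
    measurableSet_Icc.inter (measurableSet_le measurable_const
      (measurable_slice (hA T hT).1 (hS1 T hT)))
  have hGv : ∀ T ∈ F, ENNReal.ofReal (lam * (σ * lam) / 2) ≤ volume (G T) := fun T hT => by
    obtain ⟨h1, h2, h3, h4⟩ := hA T hT
    refine fubini_markov h1 h2 (hS1 T hT) hlam.le (by positivity) (by positivity) h3 fun r hr => ?_
    exact fib_bound hσ (le_ratio hσ (h4 r hr).1 (h4 r hr).2.1 (abs_sub_le_one (h2 hr) hb))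
      (ratio_le hσ (abs_sub_le_one (h2 hr) ha) (h4 r hr).2.1) h3 fun y hy => by
        rw [mul_inv_cancel₀ hσ.ne']; exact abs_sub_le_one (h2 hy) ha
  have hS2 : ∀ T ∈ F, MeasurableSet {z : ℝ × ℝ | 0 + z.2 * ((z.1 - b) / (z.1 - u)) ∈ G T} :=
    fun T hT => (by fun_prop : Measurable fun z : ℝ × ℝ => 0 + z.2 * ((z.1 - b) / (z.1 - u)))
      (hGm T hT)
  set Z : τ → Set ℝ := fun T => {c ∈ Icc (-(σ⁻¹ * σ⁻¹)) (σ⁻¹ * σ⁻¹) |
    ENNReal.ofReal (lam * (σ * (lam * (σ * lam) / 2)) / (4 * (σ⁻¹ * σ⁻¹)))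
    ≤ volume {r ∈ A T | (r, c) ∈ {z : ℝ × ℝ | 0 + z.2 * ((z.1 - b) / (z.1 - u)) ∈ G T}}} with hZ
  obtain ⟨c, F', sF, hc, hF'⟩ := exists_popular F Z (A := -(σ⁻¹ * σ⁻¹)) (B := σ⁻¹ * σ⁻¹)
    (η := lam * (σ * (lam * (σ * lam) / 2)) / 2)
    (fun T hT => measurableSet_Icc.inter (measurableSet_le measurable_const
      (measurable_slice (hA T hT).1 (hS2 T hT))))
    (neg_lt_self (by positivity)) (by positivity) (fun T _ => sep_subset _ _) fun T hT => by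
      obtain ⟨h1, h2, h3, h4⟩ := hA T hT
      refine fubini_markov h1 h2 (hS2 T hT) hlam.le (by positivity) (by positivity) h3
        fun r hr => ?_
      exact fib_bound hσ (le_ratio hσ (h4 r hr).2.1 (h4 r hr).2.2 (abs_sub_le_one (h2 hr) hu))
        (ratio_le hσ (abs_sub_le_one (h2 hr) hb) (h4 r hr).2.2) (hGv T hT) fun y hy => by
          rw [← mul_assoc, mul_inv_cancel₀ hσ.ne', one_mul, sub_zero]; exact abs_le.2 hy.1
  refine ⟨c, F', sF, le_trans (le_of_eq ?_) hc, fun T hT' => ?_⟩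
  · field_simp; ring
  · have hT := sF hT'
    have hc' := hF' T hT'
    refine ⟨_, sep_subset _ _, (hA T hT).1.inter (measurable_prodMk_right (hS2 T hT)),
      le_trans (le_of_eq ?_) hc'.2, fun r' hr' => ?_⟩
    · congr 1; field_simp; ring
    · have := hr'.2.2
      rw [zero_add] at this
      refine le_trans (le_of_eq ?_) this
      congr 1; field_simp

theorem exp_frac {y y' a b c : ℝ} (h1 : exp (-y) * a ≤ b) (h2 : exp (-y') * b ≤ c) :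
    exp (-(y + y')) * a ≤ c := by
  rw [neg_add, exp_add, mul_comm (exp _), mul_assoc]
  exact (mul_le_mul_of_nonneg_left h1 (exp_pos _).le).trans h2

theorem exp_frac_mono {y y' : ℝ} {a : ℕ} {b : ℝ} (h1 : exp (-y) * a ≤ b) (h : y ≤ y') :
    exp (-y') * a ≤ b :=
  le_trans (by gcongr) h1

theorem exp_frac_pow {y : ℝ} {a n M : ℕ} {b : ℝ} (h1 : exp (-y) ^ n * a ≤ b) (hy : 0 ≤ y)
    (h : n ≤ M) : exp (-(M * y)) * a ≤ b := by
  rw [← exp_nat_mul, mul_neg] at h1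
  exact exp_frac_mono h1 (by gcongr)

theorem UT_step {β X z : ℝ} (hβ : 1 < β)
    (hc : 20 / 19 * (5 * β - 3) ≤ 49 / 50 * (β ^ 2 + 3 * β - 2)) (hS : SS β) (hU : UT X z) :
    UT ((β + 2 + (2 * β + β ^ 2 * X) / (β - 1)) / (β - 1))
      ((3 * β + (β + β ^ 2 * z) / (β - 1)) / (β - 1)) := by
  obtain ⟨C₁, K₁, M₁, hC₁, hK₁, hS⟩ := hS
  obtain ⟨C₃, hC₃, hU⟩ := hU
  have hD : 0 < β - 1 := sub_pos.2 hβ
  refine ⟨3 + 3 * C₁ + M₁ * (2 * C₁ + M₁ * C₃), by positivity, fun σ hσ hσ1 => ?_⟩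
  obtain ⟨K₃, M₃, hK₃, hU⟩ := hU σ hσ hσ1
  obtain ⟨k, hk0, hk⟩ : ∃ k, 0 ≤ k ∧ exp (-k) = σ ^ 4 / 16 :=
    ⟨-log (σ ^ 4 / 16), neg_nonneg.2 (log_nonpos (by positivity)
      (by linarith [pow_le_one₀ (n := 4) hσ.le hσ1])), by rw [neg_neg, exp_log (by positivity)]⟩
  set e := log (2 * (4 / σ ^ 3) + 2) with he
  have he0 : 0 ≤ e := log_nonneg (by have : 0 ≤ 4 / σ ^ 3 := by positivity
                                     linarith)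
  set Ka := k + (C₁ * k + K₁) + M₁ * (C₁ * k + K₁ + M₁ * K₃) with hKa
  set Kb := (20 / 19 * k + K₁ + (2 * β + 1) * e
    + (β * (20 / 19 * k + K₁ + (β + 1) * e) + β ^ 2 * K₃) / (β - 1)) / (β - 1) with hKb
  have hKa0 : 0 ≤ Ka := by positivity
  have hKb0 : 0 ≤ Kb := by have : 0 < β := by linarith
                           positivity
  refine ⟨Ka + Kb, 3 + M₁ + M₁ * (M₁ * M₃), by positivity,
    fun τ F Y l J₀ J₁ J₂ b a u B₀ B₁ B₂ hF hl hb ha hu hY => ?_⟩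
  have sep : ∀ r ∈ J₂, σ ≤ |r - a| ∧ σ ≤ |r - b| ∧ σ ≤ |r - u| := fun r hr =>
    ⟨abs_sub_comm a r ▸ B₁.2.2 a ha r hr, B₂.2.2 r hr b hb, abs_sub_comm u r ▸ B₁.2.2 u hu r hr⟩
  have one : ∀ r ∈ J₂, |r - a| ≤ 1 ∧ |r - b| ≤ 1 ∧ |r - u| ≤ 1 := fun r hr =>
    ⟨abs_sub_le_one (B₂.2.1 hr) (B₁.2.1 ha), abs_sub_le_one (B₂.2.1 hr) (B₀.2.1 hb),
      abs_sub_le_one (B₂.2.1 hr) (B₁.2.1 hu)⟩
  obtain ⟨c, F₁, s₁, f₁, h₁⟩ := choose_c F (fun T => Y T ∩ J₂) hσ (exp_pos (-l)) (B₁.2.1 ha)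
    (B₀.2.1 hb) (B₁.2.1 hu) fun T hT => ⟨(hY T hT).1.1.inter B₂.1, fun _ h => B₂.2.1 h.2,
      (hY T hT).1.2.2.2, fun r hr => sep r hr.2⟩
  choose! Y' hY'1 hY'2 hY'3 hY'4 using h₁
  have e3 : exp (-(3 * l + k)) = σ ^ 4 * exp (-l) ^ 3 / 16 := by
    rw [neg_add, exp_add, hk, ← exp_nat_mul]; push_cast; ring_nf
  have e2 : exp (-(2 * l + k)) = σ ^ 4 * exp (-l) ^ 2 / 16 := by
    rw [neg_add, exp_add, hk, ← exp_nat_mul]; push_cast; ring_nf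
  rw [← e3] at f₁
  obtain ⟨R', c₁, d₁, F₂, s₂, f₂, g₂⟩ := hS τ F₁ Y' (3 * l + k)
    (nonempty_of_frac (exp_pos _) hF f₁) (by positivity) fun T hT =>
      ⟨hY'2 T hT, fun _ h => B₂.2.1 (hY'1 T hT h).2, le_trans (ENNReal.ofReal_le_ofReal (by
        rw [e3]; have : 0 ≤ σ ^ 4 * exp (-l) ^ 3 := by positivity
        linarith)) (hY'3 T hT)⟩
  have hF₂ := nonempty_of_frac (exp_pos _) hF (exp_frac f₁ f₂)
  set rs : ℝ → ℝ → ℝ := fun r' r => a + c * ((r' - b) / (r' - u)) * ((r - a) / (r - b)) with hrs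
  obtain ⟨D, F₃, s₃, f₃, g₃⟩ := iterate (δ := Finset ℝ × (ℝ → Finset ℝ))
    (exp_pos (-(C₁ * (2 * l + k) + K₁ + M₁ * (C₃ * l + K₃))))
    (fun r' D => D.1.card ≤ M₁ ∧ SD D.1 β (20 / 19 * (2 * l + k) + K₁) ∧ ∀ r ∈ D.1,
      (D.2 r).card ≤ M₃ ∧ UU a r (rs r' r) (D.2 r) X z (49 / 50 * X * l + K₃) ∧
        r ∈ J₂ ∧ rs r' r ∈ J₂)
    (fun _ D T => ∀ r ∈ D.1, (D.2 r : Set ℝ) ⊆ Y T) R' F₂ hF₂ fun r' hr' F' sF' hF' => by
      have hF'F : ∀ T ∈ F', T ∈ F := fun T hT => s₁ (s₂ (sF' hT))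
      obtain ⟨R, c₂, d₂, F₄, s₄, f₄, g₄⟩ := hS τ F'
        (fun T => {r ∈ Y T ∩ J₂ | rs r' r ∈ Y T ∩ J₂}) (2 * l + k) hF' (by positivity)
        fun T hT => by
          have hm := (hY T (hF'F T hT)).1.1.inter B₂.1
          refine ⟨hm.inter ((by simp only [hrs]; fun_prop : Measurable (rs r')) hm),
            fun _ h => B₂.2.1 h.1.2, le_trans (ENNReal.ofReal_le_ofReal ?_)
              (hY'4 T (s₂ (sF' hT)) r' (g₂ T (sF' hT) hr'))⟩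
          have h1 : σ ^ 4 ≤ σ ^ 2 := pow_le_pow_of_le_one hσ.le hσ1 (by norm_num)
          have h2 : 0 ≤ exp (-l) ^ 2 := by positivity
          have h3 : 0 ≤ σ ^ 2 * exp (-l) ^ 2 := by positivity
          rw [e2]; nlinarith
      have hF₄ := nonempty_of_frac (exp_pos _) hF' f₄
      obtain ⟨D, F₅, s₅, f₅, g₅⟩ := iterate (δ := Finset ℝ) (exp_pos (-(C₃ * l + K₃)))
        (fun r D => D.card ≤ M₃ ∧ UU a r (rs r' r) D X z (49 / 50 * X * l + K₃) ∧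
          r ∈ J₂ ∧ rs r' r ∈ J₂) (fun _ D T => (D : Set ℝ) ⊆ Y T) R F₄ hF₄
        fun r hr F'' sF'' hF'' => by
          obtain ⟨T₀, hT₀⟩ := hF₄
          have k1 := g₄ T₀ hT₀ hr
          obtain ⟨D, c₃, d₃, F₆, s₆, f₆, g₆⟩ := hU τ F'' Y l J₁ J₂ J₀ a r (rs r' r) B₁ B₂ B₀ hF'' hl
            ha k1.1.2 k1.2.2 fun T hT => by
              obtain ⟨⟨y1, y2, y3, y4⟩, -, y5, -⟩ := hY T (hF'F T (s₄ (sF'' hT)))
              have k2 := g₄ T (sF'' hT) hr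
              exact ⟨⟨y1, y3, y4, y2⟩, y5, k2.1.1, k2.2.1⟩
          exact ⟨D, F₆, s₆, f₆, ⟨c₃, d₃, k1.1.2, k1.2.2⟩, g₆⟩
      exact ⟨(R, D), F₅, s₅.trans s₄, exp_frac f₄ (exp_frac_pow f₅ (by positivity) c₂),
        ⟨c₂, d₂, fun r hr => (g₅ r hr).1⟩, fun T hT r hr => (g₅ r hr).2 T hT⟩
  have hJ : ∀ r' ∈ R', r' ∈ J₂ := fun r' hr' => by
    obtain ⟨T₀, hT₀⟩ := hF₂
    exact (hY'1 T₀ (s₂ hT₀) (g₂ T₀ hT₀ hr')).2
  have hs1 : 1 ≤ σ⁻¹ := (one_le_inv₀ hσ).2 hσ1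
  have hs2 : σ⁻¹ ≤ σ⁻¹ * σ⁻¹ := le_mul_of_one_le_right (by positivity) hs1
  have hs3 : 4 * (σ⁻¹ * σ⁻¹) ≤ 4 / σ ^ 3 := by
    rw [div_eq_mul_inv, ← inv_pow, pow_succ, sq]
    exact mul_le_mul_of_nonneg_left (le_mul_of_one_le_right (by positivity) hs1) (by norm_num)
  have hcc : σ ^ 3 ≤ |c| := by
    obtain ⟨r', hr'⟩ := d₁.choose_spec.1.nonempty (by linarith)
    obtain ⟨r, hr⟩ := (g₃ r' hr').1.2.1.choose_spec.1.nonempty (by linarith)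
    obtain ⟨-, -, k1, k2⟩ := (g₃ r' hr').1.2.2 r hr
    have k3 := (sep _ k2).1
    simp only [hrs, add_sub_cancel_left] at k3
    rw [abs_mul, abs_mul] at k3
    have k4 := k3.trans (mul_le_mul (mul_le_mul_of_nonneg_left
      (ratio_le hσ (one _ (hJ r' hr')).2.1 (sep _ (hJ r' hr')).2.2) (abs_nonneg c))
      (ratio_le hσ (one _ k1).1 (sep _ k1).2.1) (abs_nonneg _) (by positivity))
    rw [← div_eq_mul_inv, ← div_eq_mul_inv, le_div_iff₀ hσ, le_div_iff₀ hσ] at k4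
    linarith
  set Rn : Finset ℝ := {a, b, u} ∪ R' ∪ R'.biUnion fun r' => (D r').1.biUnion (D r').2 with hRn
  refine ⟨Rn, ?_, ?_, F₃, s₃.trans (s₂.trans s₁), ?_, fun T hT => ?_⟩
  · refine (Finset.card_union_le _ _).trans (add_le_add ((Finset.card_union_le _ _).trans
      (add_le_add Finset.card_le_three c₁)) ?_)
    refine (Finset.card_biUnion_le_card_mul _ _ (M₁ * M₃) fun r' hr' => ?_).trans (by gcongr)
    refine (Finset.card_biUnion_le_card_mul _ _ M₃ fun r hr =>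
      ((g₃ r' hr').1.2.2 r hr).1).trans ?_
    gcongr
    exact (g₃ r' hr').1.1
  · refine (node (R := fun r' => (D r').1) (RR := fun r' => (D r').2) (κ := σ ^ 3) (K := 4 / σ ^ 3)
      hβ d₁ (fun r' hr' => (g₃ r' hr').1.2.1) (fun r' => (r' - u) / (r' - b)) rs
      (fun r' hr' r hr => ((g₃ r' hr').1.2.2 r hr).2.1) (by positivity) hcc ?_ (by gcongr; norm_num)
      (fun r hr => ?_) (fun r' hr' r hr => ?_) ?_ ?_ (by simp [hRn]) (by simp [hRn])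
      (by simp [hRn])).mono ?_
    · refine le_trans ?_ (abs_sub_comm b a ▸ B₀.2.2 b hb a ha)
      simpa using pow_le_pow_of_le_one hσ.le hσ1 (show 1 ≤ 3 by norm_num)
    · have k0 : r - b ≠ 0 := abs_pos.1 (hσ.trans_le (sep _ (hJ r hr)).2.1)
      have k1 : 1 - (r - u) / (r - b) = (u - b) / (r - b) := by field_simp; ring
      have k2 := ratio_le hσ (abs_sub_le_one (B₁.2.1 hu) (B₀.2.1 hb)) (sep _ (hJ r hr)).2.1
      have k3 := ratio_le hσ (one _ (hJ r hr)).2.2 (sep _ (hJ r hr)).2.1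
      rw [k1]
      exact ⟨div_mul_cancel₀ _ k0, by linarith⟩
    · have k1 := ((g₃ r' hr').1.2.2 r hr).2.2.1
      have k0 : r' - b ≠ 0 := abs_pos.1 (hσ.trans_le (sep _ (hJ r' hr')).2.1)
      have k0' : r' - u ≠ 0 := abs_pos.1 (hσ.trans_le (sep _ (hJ r' hr')).2.2)
      have k2 : r - a ≠ 0 := abs_pos.1 (hσ.trans_le (sep _ k1).1)
      have k2' : r - b ≠ 0 := abs_pos.1 (hσ.trans_le (sep _ k1).2.1)
      have k3 := ratio_le hσ (one _ (hJ r' hr')).2.2 (sep _ (hJ r' hr')).2.1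
      have k4 := ratio_le hσ (abs_sub_le_one (B₀.2.1 hb) (B₁.2.1 ha)) (sep _ k1).1
      have k5 := ratio_le hσ (one _ k1).2.1 (sep _ k1).1
      refine ⟨(r' - u) / (r' - b) * ((b - a) / (r - a)), (r' - u) / (r' - b) * ((r - b) / (r - a)),
        by field_simp, by field_simp; ring, by simp only [hrs]; field_simp; ring, ?_⟩
      have k6 := mul_le_mul k3 k4 (abs_nonneg _) (by positivity)
      have k7 := mul_le_mul k3 k5 (abs_nonneg _) (by positivity)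
      rw [abs_mul, abs_mul]
      linarith
    · exact Finset.subset_union_right.trans Finset.subset_union_left
    · exact fun r' hr' r hr => ((Finset.subset_biUnion_of_mem (D r').2 hr).trans
        (Finset.subset_biUnion_of_mem (fun r' => (D r').1.biUnion (D r').2) hr')).trans
        Finset.subset_union_right
    · have k1 : (20 / 19 * (3 * l + k) + K₁ + (2 * β + 1) * e
          + (β * (20 / 19 * (2 * l + k) + K₁ + (β + 1) * e)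
            + β ^ 2 * (49 / 50 * X * l + K₃)) / (β - 1)) / (β - 1)
          = 49 / 50 * ((β + 2 + (2 * β + β ^ 2 * X) / (β - 1)) / (β - 1)) * l + Kb
            - (49 / 50 * (β ^ 2 + 3 * β - 2) - 20 / 19 * (5 * β - 3)) * l / (β - 1) ^ 2 := by
        rw [hKb]; field_simp; ring
      have k2 : 0 ≤ (49 / 50 * (β ^ 2 + 3 * β - 2) - 20 / 19 * (5 * β - 3)) * l / (β - 1) ^ 2 :=
        div_nonneg (mul_nonneg (sub_nonneg.2 hc) hl) (sq_nonneg _)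
      rw [← he, k1]
      linarith
  · refine exp_frac_mono (exp_frac (exp_frac f₁ f₂) (exp_frac_pow f₃ (by positivity) c₁)) ?_
    rw [hKa]
    nlinarith
  · obtain ⟨-, y1, y2, y3⟩ := hY T (s₁ (s₂ (s₃ hT)))
    intro t ht
    simp only [hRn, Finset.coe_union, Finset.coe_insert, Finset.coe_singleton, mem_union,
      mem_insert_iff, mem_singleton_iff, Finset.coe_biUnion, mem_iUnion, Finset.mem_coe] at ht
    rcases ht with ((rfl | rfl | rfl) | h) | ⟨r', hr', r, hr, h⟩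
    exacts [y2, y1, y3, (hY'1 T (s₂ (s₃ hT)) (g₂ T (s₃ hT) h)).1, (g₃ r' hr').2 T hT r hr h]

end Pool.Agent.MP_5168f5_an.H95
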